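import Mathlib

set_option autoImplicit false

namespace Pool.Agent.H.MP_1b807b_an

open Real Filter Topology Set MeasureTheory Metric

abbrev EE (n : ℕ) := EuclideanSpace ℝ (Fin n)

/-- spherical shell centred at the origin -/
def shell0 (n : ℕ) (r₁ r₂ : ℝ) : Set (EE n) := {x | r₁ < ‖x‖ ∧ ‖x‖ < r₂}

lemma isOpen_shell0 (n : ℕ) (r₁ r₂ : ℝ) : IsOpen (shell0 n r₁ r₂) :=
  (isOpen_lt continuous_const continuous_norm).inter (isOpen_lt continuous_norm continuous_const)

lemma measurableSet_shell0 (n : ℕ) (r₁ r₂ : ℝ) : MeasurableSet (shell0 n r₁ r₂) :=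
  (isOpen_shell0 n r₁ r₂).measurableSet

lemma shell0_subset (n : ℕ) (r₁ r₂ : ℝ) : shell0 n r₁ r₂ ⊆ closedBall 0 r₂ := by
  intro x hx
  simpa using hx.2.le

lemma integrableOn_shell0 {n : ℕ} {r₁ r₂ : ℝ} {f : EE n → ℝ} (hf : Continuous f) :
    IntegrableOn f (shell0 n r₁ r₂) :=
  (hf.continuousOn.integrableOn_compact (isCompact_closedBall 0 r₂)).mono_set
    (shell0_subset n r₁ r₂)

lemma finrank_EE (n : ℕ) : Module.finrank ℝ (EE n) = n := by simp

/-- polar coordinates for continuous functions on a shell -/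
theorem polar {n : ℕ} (hn : 1 ≤ n) {r₁ r₂ : ℝ} (h0 : 0 ≤ r₁) (h12 : r₁ ≤ r₂) {f : EE n → ℝ}
    (hf : Continuous f) :
    ∫ x in shell0 n r₁ r₂, f x =
      ∫ ω : sphere (0 : EE n) 1, (∫ r in r₁..r₂, r ^ (n - 1) * f (r • (ω : EE n)))
        ∂((volume : Measure (EE n)).toSphere) := by
  have : Nonempty (Fin n) := ⟨⟨0, hn⟩⟩
  have : Nontrivial (EE n) := inferInstance
  set μ : Measure (EE n) := volume with hμ
  set S := shell0 n r₁ r₂ with hS
  have hmp := μ.measurePreserving_homeomorphUnitSphereProd
  have hemb := (homeomorphUnitSphereProd (EE n)).measurableEmbedding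
  set g : EE n → ℝ := S.indicator f with hg
  have hgi : Integrable g μ := (integrable_indicator_iff (measurableSet_shell0 n r₁ r₂)).2
    (integrableOn_shell0 hf)
  set G : sphere (0 : EE n) 1 × Ioi (0 : ℝ) → ℝ := fun q => g ((q.2 : ℝ) • (q.1 : EE n)) with hG
  have hGe : ∀ x : ({0}ᶜ : Set (EE n)), G (homeomorphUnitSphereProd (EE n) x) = g x := by
    intro x
    simp only [hG]
    congr 1
    have hx : (x : EE n) ≠ 0 := x.2
    have : ‖(x : EE n)‖ ≠ 0 := norm_ne_zero_iff.2 hx
    simp [smul_smul, this]
  have hGi : Integrable G (μ.toSphere.prod (.volumeIoiPow (Module.finrank ℝ (EE n) - 1))) := by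
    rw [← hmp.integrable_comp_emb hemb]
    have h1 : (G ∘ homeomorphUnitSphereProd (EE n)) = fun x : ({0}ᶜ : Set (EE n)) => g x := by
      ext x
      exact hGe x
    rw [h1]
    have h2 : IntegrableOn g ({0}ᶜ : Set (EE n)) μ := hgi.integrableOn
    rwa [integrableOn_iff_comap_subtypeVal (by measurability)] at h2
  calc ∫ x in S, f x ∂μ = ∫ x, g x ∂μ := (integral_indicator (measurableSet_shell0 n r₁ r₂)).symm
    _ = ∫ x : ({0}ᶜ : Set (EE n)), g x ∂(μ.comap (↑)) := by
      rw [integral_subtype_comap (measurableSet_singleton _).compl g, restrict_compl_singleton]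
    _ = ∫ x : ({0}ᶜ : Set (EE n)), G (homeomorphUnitSphereProd (EE n) x) ∂(μ.comap (↑)) := by
      simp only [hGe]
    _ = ∫ q, G q ∂(μ.toSphere.prod (.volumeIoiPow (Module.finrank ℝ (EE n) - 1))) :=
      hmp.integral_comp hemb G
    _ = ∫ ω, (∫ r : Ioi (0:ℝ), G (ω, r) ∂(.volumeIoiPow (Module.finrank ℝ (EE n) - 1)))
        ∂μ.toSphere := integral_prod _ hGi
    _ = _ := by
      congr 1
      ext ω
      rw [finrank_EE]
      simp only [hG, Measure.volumeIoiPow, ENNReal.ofReal]
      have hω : ‖(ω : EE n)‖ = 1 := by simp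
      rw [integral_withDensity_eq_integral_smul,
        integral_subtype_comap measurableSet_Ioi
          fun a ↦ Real.toNNReal (a ^ (n - 1)) • g (a • (ω : EE n))]
      · rw [intervalIntegral.integral_of_le h12, integral_Ioc_eq_integral_Ioo,
          ← integral_indicator measurableSet_Ioi, ← integral_indicator measurableSet_Ioo]
        congr 1
        ext r
        by_cases hr : r ∈ Ioo r₁ r₂
        · have hr0 : 0 < r := lt_of_le_of_lt h0 hr.1
          rw [indicator_of_mem hr, indicator_of_mem (mem_Ioi.2 hr0)]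
          have hmem : r • (ω : EE n) ∈ S := by
            simp only [hS, shell0, mem_ofPred_eq, norm_smul, hω, mul_one, Real.norm_eq_abs,
              abs_of_pos hr0]
            exact hr
          simp only [hg]
          rw [indicator_of_mem hmem, NNReal.smul_def,
            Real.coe_toNNReal _ (pow_nonneg hr0.le _), smul_eq_mul]
        · rw [indicator_of_notMem hr]
          by_cases hr0 : r ∈ Ioi (0:ℝ)
          · have hr0' : 0 < r := hr0
            rw [indicator_of_mem hr0]
            have hmem : r • (ω : EE n) ∉ S := by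
              simp only [hS, shell0, mem_ofPred_eq, norm_smul, hω, mul_one, Real.norm_eq_abs,
                abs_of_pos hr0']
              exact hr
            simp only [hg]
            rw [indicator_of_notMem hmem, smul_zero]
          · rw [indicator_of_notMem hr0]
      · exact (measurable_subtype_coe.pow_const _).real_toNNReal

end Pool.Agent.H.MP_1b807b_an
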