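import Pool.Agent.H.MP_1b807b_an.Ser

set_option autoImplicit false

namespace Pool.Agent.H.MP_1b807b_an

open Real Filter Topology Set

/-- coefficients of the radial solution -/
noncomputable def cc (m : ℕ) : ℕ → ℝ
  | 0 => 1
  | (j + 1) => cc m j / ((2 * j + 2) * (2 * j + m + 1))

lemma cc_zero (m : ℕ) : cc m 0 = 1 := rfl

lemma cc_succ (m j : ℕ) : cc m (j + 1) = cc m j / ((2 * j + 2) * (2 * j + m + 1)) := rfl

lemma cc_pos (m j : ℕ) : 0 < cc m j := by
  induction j with
  | zero => simp [cc_zero]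
  | succ j ih => rw [cc_succ]; positivity

lemma cc_le (m j : ℕ) : cc m j ≤ 1 / (j.factorial : ℝ) := by
  induction j with
  | zero => simp [cc_zero]
  | succ j ih =>
    rw [cc_succ, Nat.factorial_succ]
    push_cast
    have hj : (0 : ℝ) < (j.factorial : ℝ) := by exact_mod_cast Nat.factorial_pos j
    have hj0 : (0:ℝ) ≤ j := by positivity
    have hm0 : (0:ℝ) ≤ m := by positivity
    calc cc m j / ((2 * j + 2) * (2 * j + m + 1)) ≤ (1 / (j.factorial : ℝ)) / ((j + 1) * 1) := by
          gcongr <;> linarith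
      _ = 1 / ((j + 1) * (j.factorial : ℝ)) := by field_simp

lemma ent_cc (m : ℕ) : Ent (cc m) :=
  ⟨1, fun j => by rw [abs_of_pos (cc_pos m j)]; exact cc_le m j⟩

lemma ser_ode (m : ℕ) (z : ℝ) :
    4 * z * ser (shc (shc (cc m))) z + 2 * (m + 1) * ser (shc (cc m)) z = ser (cc m) z := by
  have h0 := (ent_cc m).summable z
  have h1 := (ent_cc m).shc.summable z
  have h2 := (ent_cc m).shc.shc.summable z
  -- rewrite z * ser (shc (shc cc)) z
  have e2 : z * ser (shc (shc (cc m))) z = ∑' j : ℕ, (j : ℝ) * (j + 1) * cc m (j + 1) * z ^ j := by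
    have hs : Summable (fun j : ℕ => (j : ℝ) * (j + 1) * cc m (j + 1) * z ^ j) := by
      rw [← summable_nat_add_iff 1]
      refine (h2.mul_left z).congr (fun j => ?_)
      unfold shc
      push_cast
      ring
    rw [hs.tsum_eq_zero_add]
    simp only [Nat.cast_zero, zero_mul, zero_add]
    unfold ser
    rw [← tsum_mul_left]
    congr 1
    ext j
    unfold shc
    push_cast
    ring
  have hs2 : Summable (fun j : ℕ => (j : ℝ) * (j + 1) * cc m (j + 1) * z ^ j) := by
    rw [← summable_nat_add_iff 1]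
    refine (h2.mul_left z).congr (fun j => ?_)
    unfold shc
    push_cast
    ring
  calc 4 * z * ser (shc (shc (cc m))) z + 2 * (m + 1) * ser (shc (cc m)) z
      = 4 * (z * ser (shc (shc (cc m))) z) + 2 * (m + 1) * ser (shc (cc m)) z := by ring
    _ = ∑' j : ℕ, (4 * ((j : ℝ) * (j + 1) * cc m (j + 1) * z ^ j)
          + 2 * (m + 1) * (shc (cc m) j * z ^ j)) := by
        rw [e2, (hs2.mul_left 4).tsum_add (h1.mul_left (2 * ((m : ℝ) + 1))), tsum_mul_left,
          tsum_mul_left]
        rfl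
    _ = ser (cc m) z := by
        unfold ser
        congr 1
        ext j
        unfold shc
        rw [cc_succ]
        have : (0:ℝ) ≤ j := by positivity
        have : (0:ℝ) ≤ m := by positivity
        field_simp
        ring

/-- the even entire solution of `V'' + (m/t) V' = V`, `V 0 = 1` -/
noncomputable def V (m : ℕ) (t : ℝ) : ℝ := ser (cc m) (t ^ 2)

/-- derivative of `V` -/
noncomputable def W (m : ℕ) (t : ℝ) : ℝ := 2 * t * ser (shc (cc m)) (t ^ 2)

/-- second derivative of `V` -/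
noncomputable def W1 (m : ℕ) (t : ℝ) : ℝ :=
  2 * ser (shc (cc m)) (t ^ 2) + 4 * t ^ 2 * ser (shc (shc (cc m))) (t ^ 2)

lemma hasDerivAt_V (m : ℕ) (t : ℝ) : HasDerivAt (V m) (W m t) t := by
  have h := HasDerivAt.comp (h₂ := ser (cc m)) (h := fun x : ℝ => x ^ 2) t
    (hasDerivAt_ser (ent_cc m) (t ^ 2)) (hasDerivAt_pow 2 t)
  refine h.congr_deriv ?_
  unfold W
  push_cast
  ring

lemma hasDerivAt_W (m : ℕ) (t : ℝ) : HasDerivAt (W m) (W1 m t) t := by
  have h := HasDerivAt.comp (h₂ := ser (shc (cc m))) (h := fun x : ℝ => x ^ 2) t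
    (hasDerivAt_ser (ent_cc m).shc (t ^ 2)) (hasDerivAt_pow 2 t)
  have h2 := ((hasDerivAt_id t).const_mul 2).mul h
  refine h2.congr_deriv ?_
  unfold W1
  simp only [id, Function.comp]
  push_cast
  ring

lemma W1_eq (m : ℕ) {t : ℝ} (ht : t ≠ 0) : W1 m t = V m t - m / t * W m t := by
  have h := ser_ode m (t ^ 2)
  unfold W1 V W
  rw [← h]
  field_simp
  ring

lemma continuous_V (m : ℕ) : Continuous (V m) :=
  continuous_iff_continuousAt.2 fun z => (hasDerivAt_V m z).continuousAt

lemma continuous_W (m : ℕ) : Continuous (W m) :=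
  continuous_iff_continuousAt.2 fun z => (hasDerivAt_W m z).continuousAt

lemma continuous_W1 (m : ℕ) : Continuous (W1 m) := by
  unfold W1
  have h1 := continuous_ser (ent_cc m).shc
  have h2 := continuous_ser (ent_cc m).shc.shc
  fun_prop

lemma ser_ge {a : ℕ → ℝ} (h : Ent a) (ha : ∀ j, 0 ≤ a j) {z : ℝ} (hz : 0 ≤ z) : a 0 ≤ ser a z := by
  unfold ser
  have := (h.summable z).le_tsum 0 (fun j _ => mul_nonneg (ha j) (pow_nonneg hz j))
  simpa using this

lemma shc_nonneg {a : ℕ → ℝ} (ha : ∀ j, 0 ≤ a j) (j : ℕ) : 0 ≤ shc a j := by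
  unfold shc
  exact mul_nonneg (by positivity) (ha _)

lemma one_le_V (m : ℕ) (t : ℝ) : 1 ≤ V m t := by
  have := ser_ge (ent_cc m) (fun j => (cc_pos m j).le) (sq_nonneg t)
  rwa [cc_zero] at this

lemma V_pos (m : ℕ) (t : ℝ) : 0 < V m t := lt_of_lt_of_le one_pos (one_le_V m t)

lemma ser_shc_pos (m : ℕ) (t : ℝ) : 1 / (2 * ((m : ℝ) + 1)) ≤ ser (shc (cc m)) (t ^ 2) := by
  have := ser_ge (ent_cc m).shc (fun j => shc_nonneg (fun j => (cc_pos m j).le) j) (sq_nonneg t)
  have e : shc (cc m) 0 = 1 / (2 * ((m : ℝ) + 1)) := by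
    unfold shc
    rw [cc_succ, cc_zero]
    push_cast
    ring_nf
  rwa [e] at this

lemma W_pos (m : ℕ) {t : ℝ} (ht : 0 < t) : 0 < W m t := by
  unfold W
  have h := ser_shc_pos m t
  have h2 : (0:ℝ) < 1 / (2 * ((m : ℝ) + 1)) := by positivity
  have h3 : 0 < ser (shc (cc m)) (t ^ 2) := lt_of_lt_of_le h2 h
  positivity

lemma V_zero (m : ℕ) : V m 0 = 1 := by
  unfold V
  simp [ser_zero, cc_zero]

lemma W_zero (m : ℕ) : W m 0 = 0 := by
  unfold W
  simp

lemma V_neg (m : ℕ) (t : ℝ) : V m (-t) = V m t := by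
  unfold V
  simp

lemma W_neg (m : ℕ) (t : ℝ) : W m (-t) = - W m t := by
  unfold W
  simp

lemma W1_neg (m : ℕ) (t : ℝ) : W1 m (-t) = W1 m t := by
  unfold W1
  simp

lemma W1_zero (m : ℕ) : W1 m 0 = 1 / ((m : ℝ) + 1) := by
  unfold W1
  simp only [ne_eq, OfNat.ofNat_ne_zero, not_false_eq_true, zero_pow, ser_zero, mul_zero, zero_mul,
    add_zero]
  unfold shc
  rw [cc_succ, cc_zero]
  push_cast
  have : (0:ℝ) ≤ m := by positivity
  field_simp
  ring

/-- the energy `V² - W²` is at least one on `[0,∞)` -/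
lemma one_le_energy (m : ℕ) {t : ℝ} (ht : 0 ≤ t) : 1 ≤ V m t ^ 2 - W m t ^ 2 := by
  have hmono : MonotoneOn (fun t => V m t ^ 2 - W m t ^ 2) (Ici 0) := by
    have hd : ∀ t : ℝ, HasDerivAt (fun t => V m t ^ 2 - W m t ^ 2)
        (2 * V m t * W m t - 2 * W m t * W1 m t) t := by
      intro t
      have h := ((hasDerivAt_V m t).pow 2).sub ((hasDerivAt_W m t).pow 2)
      refine h.congr_deriv ?_
      push_cast
      ring
    refine monotoneOn_of_deriv_nonneg (convex_Ici 0) ?_ ?_ ?_
    · exact fun t _ => (hd t).continuousAt.continuousWithinAt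
    · exact fun t _ => (hd t).differentiableAt.differentiableWithinAt
    · intro t ht
      rw [interior_Ici] at ht
      have ht' : 0 < t := ht
      rw [(hd t).deriv, W1_eq m ht'.ne']
      have : 2 * V m t * W m t - 2 * W m t * (V m t - m / t * W m t) = 2 * m / t * W m t ^ 2 := by
        ring
      rw [this]
      positivity
  have := hmono (mem_Ici.2 le_rfl) (mem_Ici.2 ht) ht
  simp only [V_zero, W_zero] at this
  linarith

/-- logarithmic derivative of `V` -/
noncomputable def F (m : ℕ) (t : ℝ) : ℝ := W m t / V m t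

/-- derivative of `F` -/
noncomputable def F1 (m : ℕ) (t : ℝ) : ℝ := (W1 m t * V m t - W m t ^ 2) / V m t ^ 2

lemma hasDerivAt_F (m : ℕ) (t : ℝ) : HasDerivAt (F m) (F1 m t) t := by
  have h := (hasDerivAt_W m t).div (hasDerivAt_V m t) (V_pos m t).ne'
  refine h.congr_deriv ?_
  unfold F1
  ring

lemma continuous_F (m : ℕ) : Continuous (F m) :=
  continuous_iff_continuousAt.2 fun z => (hasDerivAt_F m z).continuousAt

lemma continuous_F1 (m : ℕ) : Continuous (F1 m) := by
  unfold F1
  refine Continuous.div ?_ ?_ (fun t => ?_)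
  · exact ((continuous_W1 m).mul (continuous_V m)).sub ((continuous_W m).pow 2)
  · exact (continuous_V m).pow 2
  · exact pow_ne_zero 2 (V_pos m t).ne'

lemma F_zero (m : ℕ) : F m 0 = 0 := by simp [F, W_zero]

lemma F_neg (m : ℕ) (t : ℝ) : F m (-t) = - F m t := by
  simp [F, W_neg, V_neg, neg_div]

lemma F1_neg (m : ℕ) (t : ℝ) : F1 m (-t) = F1 m t := by
  simp [F1, W_neg, V_neg, W1_neg]

lemma F1_eq (m : ℕ) {t : ℝ} (ht : t ≠ 0) : F1 m t = 1 - F m t ^ 2 - m / t * F m t := by
  unfold F1 F
  rw [W1_eq m ht]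
  have := (V_pos m t).ne'
  field_simp
  ring

lemma F_pos (m : ℕ) {t : ℝ} (ht : 0 < t) : 0 < F m t := div_pos (W_pos m ht) (V_pos m t)

lemma F_sq_lt_one (m : ℕ) (t : ℝ) : F m t ^ 2 < 1 := by
  have key : ∀ s : ℝ, 0 ≤ s → F m s ^ 2 < 1 := by
    intro s hs
    have h := one_le_energy m hs
    have hV := V_pos m s
    unfold F
    rw [div_pow, div_lt_one (by positivity)]
    linarith
  rcases le_total 0 t with h | h
  · exact key t h
  · have := key (-t) (by linarith)
    rwa [F_neg, neg_sq] at this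

lemma F_lt_one (m : ℕ) (t : ℝ) : F m t < 1 := by
  have := F_sq_lt_one m t
  nlinarith

lemma neg_one_lt_F (m : ℕ) (t : ℝ) : -1 < F m t := by
  have := F_sq_lt_one m t
  nlinarith

lemma F1_pos_of_pos (m : ℕ) {t : ℝ} (ht : 0 < t) : 0 < F1 m t := by
  -- `(t^(m+1) V² F1)' = t^m (V² - W²)`
  set A : ℝ → ℝ := fun t => t ^ (m + 1) * (W1 m t * V m t - W m t ^ 2) with hA
  set A2 : ℝ → ℝ := fun t => t ^ (m + 1) * (V m t ^ 2 - W m t ^ 2) - m * t ^ m * (W m t * V m t)
    with hA2
  have hAA : ∀ t : ℝ, 0 < t → A t = A2 t := by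
    intro t ht
    simp only [hA, hA2]
    rw [W1_eq m ht.ne']
    field_simp
    ring
  have hd : ∀ t : ℝ, 0 < t → HasDerivAt A2 (t ^ m * (V m t ^ 2 - W m t ^ 2)) t := by
    intro t ht
    have h1 := (hasDerivAt_pow (m + 1) t).mul
      (((hasDerivAt_V m t).pow 2).sub ((hasDerivAt_W m t).pow 2))
    have h2 := ((hasDerivAt_pow m t).const_mul (m : ℝ)).mul
      ((hasDerivAt_W m t).mul (hasDerivAt_V m t))
    have h := h1.sub h2
    refine h.congr_deriv ?_
    rw [W1_eq m ht.ne']
    push_cast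
    simp only [Pi.sub_apply, Pi.pow_apply, Pi.mul_apply]
    rcases m with _ | m
    · simp only [Nat.cast_zero, zero_mul, sub_zero, zero_div, pow_zero, zero_add, pow_one]
      ring
    · simp only [Nat.add_sub_cancel]
      push_cast
      field_simp
      ring
  have hcont : ContinuousOn A (Icc 0 t) := by
    have h1 := continuous_V m
    have h2 := continuous_W m
    have h3 := continuous_W1 m
    simp only [hA]
    fun_prop
  have hmono : StrictMonoOn A (Icc 0 t) := by
    refine strictMonoOn_of_deriv_pos (convex_Icc 0 t) hcont ?_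
    intro s hs
    rw [interior_Icc] at hs
    have hs0 : 0 < s := hs.1
    have hev : A =ᶠ[𝓝 s] A2 := by
      filter_upwards [lt_mem_nhds hs0] with x hx
      exact hAA x hx
    rw [hev.deriv_eq, (hd s hs0).deriv]
    have := one_le_energy m hs0.le
    have h2 : 0 < V m s ^ 2 - W m s ^ 2 := by linarith
    positivity
  have h := hmono (left_mem_Icc.2 ht.le) (right_mem_Icc.2 ht.le) ht
  have h0 : A 0 = 0 := by simp [hA]
  rw [h0] at h
  simp only [hA] at h
  unfold F1
  have h3 : 0 < W1 m t * V m t - W m t ^ 2 := by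
    have ht' : 0 < t ^ (m + 1) := by positivity
    exact (mul_pos_iff_of_pos_left ht').1 h
  have := V_pos m t
  positivity

lemma F1_pos (m : ℕ) (t : ℝ) : 0 < F1 m t := by
  rcases lt_trichotomy 0 t with h | h | h
  · exact F1_pos_of_pos m h
  · subst h
    unfold F1
    rw [W1_zero, V_zero, W_zero]
    have : (0:ℝ) ≤ m := by positivity
    simp
    positivity
  · have := F1_pos_of_pos m (t := -t) (by linarith)
    rwa [F1_neg] at this

lemma strictMono_F (m : ℕ) : StrictMono (F m) := by
  refine strictMono_of_deriv_pos fun t => ?_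
  rw [(hasDerivAt_F m t).deriv]
  exact F1_pos m t

/-- key inequality: `t F' (1+F²) > F (1-F²)` for `t > 0` -/
lemma key_ineq (m : ℕ) {t : ℝ} (ht : 0 < t) :
    F m t * (1 - F m t ^ 2) < t * F1 m t * (1 + F m t ^ 2) := by
  -- Z = t^m V² (t F1 - F (1-F²)/(1+F²))
  set Z : ℝ → ℝ := fun t => t ^ m * V m t ^ 2 * (t * F1 m t - F m t * (1 - F m t ^ 2) / (1 + F m t ^ 2))
    with hZ
  set Z2 : ℝ → ℝ := fun t => t ^ m * V m t ^ 2 * ((t * (1 - F m t ^ 2) - m * F m t)
    - F m t * (1 - F m t ^ 2) / (1 + F m t ^ 2)) with hZ2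
  have hZZ : ∀ t : ℝ, 0 < t → Z t = Z2 t := by
    intro t ht
    simp only [hZ, hZ2]
    rw [F1_eq m ht.ne']
    field_simp
  have hd : ∀ t : ℝ, 0 < t → HasDerivAt Z2
      (t ^ m * V m t ^ 2 * (4 * F m t ^ 2 * F1 m t / (1 + F m t ^ 2) ^ 2)) t := by
    intro t ht
    have hF := hasDerivAt_F m t
    have hV := hasDerivAt_V m t
    have hq : (1 + F m t ^ 2) ≠ 0 := by positivity
    have h1 := (hasDerivAt_pow m t).mul (hV.pow 2)
    have h2 := ((hasDerivAt_id t).mul ((hF.pow 2).const_sub 1)).sub (hF.const_mul (m : ℝ))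
    have h3 := (hF.mul ((hF.pow 2).const_sub 1)).div ((hF.pow 2).const_add 1) hq
    have h := h1.mul (h2.sub h3)
    refine h.congr_deriv ?_
    have hW : W m t = F m t * V m t := by
      unfold F
      have := (V_pos m t).ne'
      field_simp
    rw [hW, F1_eq m ht.ne']
    simp only [id, Pi.sub_apply, Pi.pow_apply, Pi.mul_apply, Pi.div_apply]
    rcases m with _ | m
    · simp
      field_simp
      ring
    · simp only [Nat.add_sub_cancel]
      push_cast
      field_simp
      ring
  have hcont : ContinuousOn Z (Icc 0 t) := by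
    have h1 := continuous_V m
    have h2 := continuous_F m
    have h3 := continuous_F1 m
    have h4 : ∀ s : ℝ, 1 + F m s ^ 2 ≠ 0 := fun s => by positivity
    refine Continuous.continuousOn ?_
    simp only [hZ]
    refine (((continuous_pow m).mul (h1.pow 2))).mul ((continuous_id.mul h3).sub ?_)
    refine Continuous.div (by fun_prop) (by fun_prop) h4
  have hmono : StrictMonoOn Z (Icc 0 t) := by
    refine strictMonoOn_of_deriv_pos (convex_Icc 0 t) hcont ?_
    intro s hs
    rw [interior_Icc] at hs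
    have hs0 : 0 < s := hs.1
    have hev : Z =ᶠ[𝓝 s] Z2 := by
      filter_upwards [lt_mem_nhds hs0] with x hx
      exact hZZ x hx
    rw [hev.deriv_eq, (hd s hs0).deriv]
    have := F1_pos m s
    have := V_pos m s
    have := F_pos m hs0
    positivity
  have h := hmono (left_mem_Icc.2 ht.le) (right_mem_Icc.2 ht.le) ht
  have h0 : Z 0 = 0 := by simp [hZ, F_zero]
  rw [h0] at h
  simp only [hZ] at h
  have hV := V_pos m t
  have h3 : 0 < t * F1 m t - F m t * (1 - F m t ^ 2) / (1 + F m t ^ 2) :=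
    (mul_pos_iff_of_pos_left (by positivity)).1 h
  have h4 : (0:ℝ) < 1 + F m t ^ 2 := by positivity
  have h5 : F m t * (1 - F m t ^ 2) / (1 + F m t ^ 2) < t * F1 m t := by linarith
  rwa [div_lt_iff₀ h4] at h5

/-- `S(t) = F/(t(1-F²))` is strictly increasing -/
lemma S_lt (m : ℕ) {s t : ℝ} (hs : 0 < s) (hst : s < t) :
    F m s / (s * (1 - F m s ^ 2)) < F m t / (t * (1 - F m t ^ 2)) := by
  have hmono : StrictMonoOn (fun t => F m t / (t * (1 - F m t ^ 2))) (Ioi 0) := by
    have hd : ∀ t : ℝ, 0 < t → HasDerivAt (fun t => F m t / (t * (1 - F m t ^ 2)))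
        ((t * F1 m t * (1 + F m t ^ 2) - F m t * (1 - F m t ^ 2)) / (t * (1 - F m t ^ 2)) ^ 2) t := by
      intro t ht
      have hF := hasDerivAt_F m t
      have h1 : 0 < 1 - F m t ^ 2 := by have := F_sq_lt_one m t; linarith
      have h := hF.div ((hasDerivAt_id t).mul ((hF.pow 2).const_sub 1))
        (by simp only [id, Pi.pow_apply, Pi.mul_apply]; positivity)
      refine h.congr_deriv ?_
      simp only [id, Pi.pow_apply, Pi.mul_apply]
      congr 1
      push_cast
      ring
    refine strictMonoOn_of_deriv_pos (convex_Ioi 0) ?_ ?_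
    · intro t ht
      exact (hd t ht).continuousAt.continuousWithinAt
    · intro t ht
      rw [interior_Ioi] at ht
      have ht' : 0 < t := ht
      rw [(hd t ht').deriv]
      have h1 : 0 < 1 - F m t ^ 2 := by have := F_sq_lt_one m t; linarith
      have := key_ineq m ht'
      have h2 : 0 < t * F1 m t * (1 + F m t ^ 2) - F m t * (1 - F m t ^ 2) := by linarith
      positivity
  exact hmono (mem_Ioi.2 hs) (mem_Ioi.2 (hs.trans hst)) hst

/-- `F` tends to `1`: it takes values above each `c < 1` -/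
lemma exists_F_gt (m : ℕ) {c : ℝ} (hc : c < 1) : ∃ t : ℝ, 0 < t ∧ c < F m t := by
  by_contra hcon
  push Not at hcon
  -- F ≤ c on (0,∞)
  have hc0 : 0 < c := lt_of_lt_of_le (F_pos m one_pos) (hcon 1 one_pos)
  set d : ℝ := (1 - c ^ 2) / 2 with hd
  have hd0 : 0 < d := by
    have : c ^ 2 < 1 := by nlinarith
    rw [hd]; linarith
  set T : ℝ := (m + 1) / d with hT
  have hT0 : 0 < T := by positivity
  have hder : ∀ t : ℝ, T ≤ t → d ≤ F1 m t := by
    intro t ht
    have ht0 : 0 < t := lt_of_lt_of_le hT0 ht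
    rw [F1_eq m ht0.ne']
    have h1 := hcon t ht0
    have h2 := F_pos m ht0
    have h3 : F m t ^ 2 ≤ c ^ 2 := by nlinarith
    have h4 : m / t * F m t ≤ d := by
      have : (m : ℝ) / t ≤ d := by
        rw [div_le_iff₀ ht0]
        have : (m : ℝ) + 1 ≤ d * t := by
          calc (m : ℝ) + 1 = d * T := by rw [hT]; field_simp
            _ ≤ d * t := by gcongr
        linarith
      have h5 : (0:ℝ) ≤ m / t := by positivity
      nlinarith [F_lt_one m t]
    have : 1 - c ^ 2 = 2 * d := by rw [hd]; ring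
    linarith
  -- mean value
  have h := Convex.mul_sub_le_image_sub_of_le_deriv (convex_Ici T)
    (f := F m) (C := d) (continuous_F m).continuousOn
    (fun t _ => (hasDerivAt_F m t).differentiableAt.differentiableWithinAt)
    (fun t ht => by
      rw [interior_Ici] at ht
      rw [(hasDerivAt_F m t).deriv]
      exact hder t (le_of_lt ht))
    T (mem_Ici.2 le_rfl) (T + 2 / d) (mem_Ici.2 (by have : 0 < 2 / d := by positivity
                                                    linarith)) (by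
        have : 0 < 2 / d := by positivity
        linarith)
  have h1 := F_lt_one m (T + 2 / d)
  have h2 := neg_one_lt_F m T
  have h3 : d * (T + 2 / d - T) = 2 := by field_simp; ring
  rw [h3] at h
  linarith

end Pool.Agent.H.MP_1b807b_an
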