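import Pool.Agent.H.MP_1b807b_an.Exist

set_option autoImplicit false

namespace Pool.Agent.H.MP_1b807b_an

open Real Filter Topology Set MeasureTheory intervalIntegral

section

variable {m : ℕ} {r₁ r₂ β k : ℝ} {u p : ℝ → ℝ}

/-- Rayleigh quotient bound from a test function -/
lemma GS.test (g : GS m r₁ r₂ β k u p) (h0 : 0 ≤ r₁) (h12 : r₁ < r₂) {w w1 : ℝ → ℝ}
    (hw : ∀ r ∈ Icc r₁ r₂, HasDerivAt w (w1 r) r) (hw1 : ContinuousOn w1 (Icc r₁ r₂)) :
    β * (r₁ ^ m * w r₁ ^ 2 + r₂ ^ m * w r₂ ^ 2) - ∫ r in r₁..r₂, r ^ m * w1 r ^ 2 ≤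
      k ^ 2 * ∫ r in r₁..r₂, r ^ m * w r ^ 2 := by
  have hwc : ContinuousOn w (Icc r₁ r₂) := fun r hr => (hw r hr).continuousAt.continuousWithinAt
  have h := g.picone h0 h12 hw hw1
  have hI1 : IntervalIntegrable (fun r => r ^ m * w1 r ^ 2) volume r₁ r₂ := by
    refine ContinuousOn.intervalIntegrable ?_
    rw [uIcc_of_le h12.le]
    fun_prop
  have hI2 : IntervalIntegrable (fun r => k ^ 2 * (r ^ m * w r ^ 2)) volume r₁ r₂ := by
    refine ContinuousOn.intervalIntegrable ?_
    rw [uIcc_of_le h12.le]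
    fun_prop
  have hsplit : ∫ r in r₁..r₂, r ^ m * (w1 r ^ 2 + k ^ 2 * w r ^ 2) =
      (∫ r in r₁..r₂, r ^ m * w1 r ^ 2) + k ^ 2 * ∫ r in r₁..r₂, r ^ m * w r ^ 2 := by
    rw [← intervalIntegral.integral_const_mul, ← intervalIntegral.integral_add hI1 hI2]
    congr 1
    ext r
    ring
  rw [hsplit] at h
  linarith

lemma GS.energy' (g : GS m r₁ r₂ β k u p) (h0 : 0 ≤ r₁) (h12 : r₁ < r₂) :
    β * (r₁ ^ m * u r₁ ^ 2 + r₂ ^ m * u r₂ ^ 2) - ∫ r in r₁..r₂, r ^ m * p r ^ 2 =
      k ^ 2 * ∫ r in r₁..r₂, r ^ m * u r ^ 2 := by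
  have hcu := g.cu
  have hcp := g.cp
  have h := g.energy h0 h12
  have hI1 : IntervalIntegrable (fun r => r ^ m * p r ^ 2) volume r₁ r₂ := by
    refine ContinuousOn.intervalIntegrable ?_
    rw [uIcc_of_le h12.le]
    fun_prop
  have hI2 : IntervalIntegrable (fun r => k ^ 2 * (r ^ m * u r ^ 2)) volume r₁ r₂ := by
    refine ContinuousOn.intervalIntegrable ?_
    rw [uIcc_of_le h12.le]
    fun_prop
  have hsplit : ∫ r in r₁..r₂, r ^ m * (p r ^ 2 + k ^ 2 * u r ^ 2) =
      (∫ r in r₁..r₂, r ^ m * p r ^ 2) + k ^ 2 * ∫ r in r₁..r₂, r ^ m * u r ^ 2 := by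
    rw [← intervalIntegral.integral_const_mul, ← intervalIntegral.integral_add hI1 hI2]
    congr 1
    ext r
    ring
  rw [hsplit] at h
  linarith

lemma GS.mass_pos (g : GS m r₁ r₂ β k u p) (h0 : 0 ≤ r₁) (h12 : r₁ < r₂) :
    0 < ∫ r in r₁..r₂, r ^ m * u r ^ 2 := by
  have hcu := g.cu
  refine intervalIntegral.intervalIntegral_pos_of_pos_on ?_ ?_ h12
  · refine ContinuousOn.intervalIntegrable ?_
    rw [uIcc_of_le h12.le]
    fun_prop
  · intro r hr
    have hr0 : 0 < r := lt_of_le_of_lt h0 hr.1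
    have := g.pos r (Ioo_subset_Icc_self hr)
    positivity

/-- upper bound for `k²` from a Riccati supersolution -/
lemma GS.le_of_super (g : GS m r₁ r₂ β k u p) (h0 : 0 ≤ r₁) (h12 : r₁ < r₂) {κ : ℝ}
    {G G1 : ℝ → ℝ} (hG : ContinuousOn G (Icc r₁ r₂))
    (hG1 : ∀ r ∈ Ioo r₁ r₂, HasDerivAt G (G1 r) r)
    (hR : ∀ r ∈ Ioo r₁ r₂, G1 r + G r ^ 2 + m / r * G r ≤ κ)
    (hl : r₁ ^ m * G r₁ ≤ - (r₁ ^ m * β)) (hr : β ≤ G r₂) : k ^ 2 ≤ κ := by
  have hcu := g.cu
  have hcp := g.cp
  have h := picone_le h0 h12.le hG hG1 hR g.du g.cp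
  have he := g.energy' h0 h12
  have hM := g.mass_pos h0 h12
  have hI1 : IntervalIntegrable (fun r => r ^ m * p r ^ 2) volume r₁ r₂ := by
    refine ContinuousOn.intervalIntegrable ?_
    rw [uIcc_of_le h12.le]
    fun_prop
  have hI2 : IntervalIntegrable (fun r => κ * (r ^ m * u r ^ 2)) volume r₁ r₂ := by
    refine ContinuousOn.intervalIntegrable ?_
    rw [uIcc_of_le h12.le]
    fun_prop
  have hsplit : ∫ r in r₁..r₂, r ^ m * (p r ^ 2 + κ * u r ^ 2) =
      (∫ r in r₁..r₂, r ^ m * p r ^ 2) + κ * ∫ r in r₁..r₂, r ^ m * u r ^ 2 := by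
    rw [← intervalIntegral.integral_const_mul, ← intervalIntegral.integral_add hI1 hI2]
    congr 1
    ext r
    ring
  rw [hsplit] at h
  have h2 : 0 < r₂ := lt_of_le_of_lt h0 h12
  have e1 : r₂ ^ m * β * u r₂ ^ 2 ≤ r₂ ^ m * G r₂ * u r₂ ^ 2 := by gcongr
  have e2 : r₁ ^ m * G r₁ * u r₁ ^ 2 ≤ - (r₁ ^ m * β) * u r₁ ^ 2 := by gcongr
  have h3 : k ^ 2 * (∫ r in r₁..r₂, r ^ m * u r ^ 2) ≤ κ * ∫ r in r₁..r₂, r ^ m * u r ^ 2 := by
    nlinarith
  exact le_of_mul_le_mul_right h3 hM

lemma GS.beta_lt (g : GS m r₁ r₂ β k u p) (h0 : 0 < r₁) (h12 : r₁ < r₂) (hβ : 0 ≤ β) (hk : 0 < k) :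
    β < k := by
  have h2 := right_mem_Icc.2 h12.le
  have h := g.lt_ball h0 h12 hβ hk r₂ h2
  rw [g.right] at h
  have hu := g.pos r₂ h2
  have h3 := lt_of_mul_lt_mul_right h hu.le
  have := F_lt_one m (k * r₂)
  nlinarith

end

/-- lower bound `β² + mβ/R < k²` for the ball -/
lemma ball_lower (m : ℕ) {R k : ℝ} (hR : 0 < R) (hk : 0 < k) :
    (k * F m (k * R)) ^ 2 + m / R * (k * F m (k * R)) < k ^ 2 := by
  have h := F1_pos m (k * R)
  rw [F1_eq m (mul_pos hk hR).ne'] at h
  have hk2 : 0 < k ^ 2 := by positivity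
  have h2 := mul_pos hk2 h
  have : k ^ 2 * (1 - F m (k * R) ^ 2 - m / (k * R) * F m (k * R)) =
      k ^ 2 - ((k * F m (k * R)) ^ 2 + m / R * (k * F m (k * R))) := by
    field_simp
    ring
  linarith

/-- upper bound `k² ≤ nβ/R + β²` for the ball -/
lemma ball_upper {m : ℕ} (hm : 1 ≤ m) {R k β : ℝ} (hR : 0 < R) (hk : 0 < k)
    (hβ : k * F m (k * R) = β) : k ^ 2 ≤ (m + 1) * β / R + β ^ 2 := by
  have g := GS_ball hm (R := R) hk
  rw [hβ] at g
  have hβ0 : 0 < β := by rw [← hβ]; exact mul_pos hk (F_pos m (mul_pos hk hR))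
  refine g.le_of_super le_rfl hR (G := fun r => β / R * r) (G1 := fun _ => β / R)
    (by fun_prop) (fun r _ => ?_) (fun r hr => ?_) ?_ ?_
  · simpa using (hasDerivAt_id r).const_mul (β / R)
  · have hr0 : 0 < r := hr.1
    have h1 : (β / R * r) ^ 2 ≤ β ^ 2 := by
      have : β / R * r ≤ β := by
        rw [div_mul_eq_mul_div, div_le_iff₀ hR]
        nlinarith [hr.2]
      have h0 : 0 ≤ β / R * r := by positivity
      nlinarith
    have h2 : (m : ℝ) / r * (β / R * r) = m * β / R := by field_simp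
    rw [h2]
    have : β / R + m * β / R = (m + 1) * β / R := by ring
    linarith
  · rw [zero_pow (by omega)]
    simp
  · have : β / R * R = β := by field_simp
    rw [this]

/-- monotonicity of the ball eigenvalue in the radius, and crossing for general `k ≤ k_ball` -/
theorem crossing2 {m : ℕ} (hm : 1 ≤ m) {r₁ r₂ R β β' k l kb kb' : ℝ} (h0 : 0 < r₁) (h12 : r₁ < r₂)
    (hR : 0 < R) (hβ : 0 < β) (hββ : β < β') (hk : 0 < k) (hkb : 0 < kb) (hkb' : 0 < kb')
    {u p u' p' : ℝ → ℝ} (g : GS m r₁ r₂ β k u p) (g' : GS m r₁ r₂ β' l u' p')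
    (hb : kb * F m (kb * R) = β) (hb' : kb' * F m (kb' * R) = β') (hle : k ≤ kb) :
    l ^ 2 < kb' ^ 2 := by
  have hβk := g.beta_lt h0 h12 hβ.le hk
  have hy : β / k ∈ Ioo (-1 : ℝ) 1 := by
    constructor
    · have : 0 < β / k := by positivity
      linarith
    · rw [div_lt_one hk]; exact hβk
  set R' : ℝ := Finv m (β / k) / k with hR'
  have hkR' : k * R' = Finv m (β / k) := by rw [hR']; field_simp
  have hFR' : F m (k * R') = β / k := by rw [hkR', F_Finv m hy]
  have hRR' : R ≤ R' := by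
    have h1 : F m (k * R) ≤ F m (k * R') := by
      rw [hFR', le_div_iff₀ hk, mul_comm]
      have := (kF_strictMonoOn m hR).monotoneOn (mem_Ici.2 hk.le) (mem_Ici.2 hkb.le) hle
      simp only [hb] at this
      exact this
    have h2 := (strictMono_F m).le_iff_le.1 h1
    exact le_of_mul_le_mul_left h2 hk
  have hR'0 : 0 < R' := lt_of_lt_of_le hR hRR'
  have hkβ : k * F m (k * R') = β := by rw [hFR']; field_simp
  obtain ⟨k', hk', hk'β⟩ := exists_ball m hR'0 (hβ.trans hββ)
  have hkk' : k < k' := by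
    by_contra hcon
    push Not at hcon
    have := (kF_strictMonoOn m hR'0).monotoneOn (mem_Ici.2 hk'.le) (mem_Ici.2 hk.le) hcon
    simp only [hk'β, hkβ] at this
    linarith
  rw [← hkβ] at g
  rw [← hk'β] at g'
  have h1 := crossing hm h0 h12 hR'0 hk hkk' g g'
  have h2 : k' ≤ kb' := by
    by_contra hcon
    push Not at hcon
    have h3 := kF_lt (m := m) hR hkb'.le hcon
    rw [hb'] at h3
    have h4 : F m (k' * R) ≤ F m (k' * R') := (strictMono_F m).monotone (by nlinarith)
    have h5 : k' * F m (k' * R) ≤ k' * F m (k' * R') := by gcongr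
    rw [hk'β] at h5
    linarith
  have h3 : k' ^ 2 ≤ kb' ^ 2 := by gcongr
  linarith

/-- `V(τ) ≤ exp τ` for `τ ≥ 0` -/
lemma V_le_exp (m : ℕ) {t : ℝ} (ht : 0 ≤ t) : V m t ≤ exp t := by
  have hd : ∀ x : ℝ, HasDerivAt (fun x => V m x * exp (-x))
      (W m x * exp (-x) + V m x * (exp (-x) * (-1))) x := by
    intro x
    exact (hasDerivAt_V m x).mul ((hasDerivAt_neg x).exp)
  have hanti : AntitoneOn (fun x => V m x * exp (-x)) (Ici 0) := by
    refine antitoneOn_of_deriv_nonpos (convex_Ici _) ?_ ?_ ?_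
    · exact fun x _ => (hd x).continuousAt.continuousWithinAt
    · exact fun x _ => (hd x).differentiableAt.differentiableWithinAt
    · intro x _
      rw [(hd x).deriv]
      have h1 : W m x ≤ V m x := by
        have hV := V_pos m x
        have := F_lt_one m x
        unfold F at this
        rw [div_lt_one hV] at this
        exact this.le
      have he := exp_pos (-x)
      nlinarith
  have h := hanti (mem_Ici.2 le_rfl) (mem_Ici.2 ht) ht
  simp only [neg_zero, exp_zero, mul_one, V_zero] at h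
  rw [exp_neg, ← div_eq_mul_inv, div_le_one (exp_pos _)] at h
  exact h

lemma integral_pow_m (m : ℕ) (a b : ℝ) :
    ∫ r in a..b, r ^ m = (b ^ (m + 1) - a ^ (m + 1)) / (m + 1) := by
  rw [integral_pow]

/-- constant test function -/
lemma GS.const_test {m : ℕ} {r₁ r₂ β k R : ℝ} {u p : ℝ → ℝ} (g : GS m r₁ r₂ β k u p)
    (h0 : 0 ≤ r₁) (h12 : r₁ < r₂) (hvol : r₂ ^ (m + 1) - r₁ ^ (m + 1) = R ^ (m + 1)) :
    (m + 1) * β * (r₁ ^ m + r₂ ^ m) ≤ k ^ 2 * R ^ (m + 1) := by
  have h := g.test h0 h12 (w := fun _ => 1) (w1 := fun _ => 0) (fun r _ => hasDerivAt_const r 1)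
    continuousOn_const
  simp only [one_pow, mul_one, ne_eq, OfNat.ofNat_ne_zero, not_false_eq_true, zero_pow, mul_zero,
    intervalIntegral.integral_zero, sub_zero] at h
  rw [integral_pow_m, hvol] at h
  have hm : (0:ℝ) < m + 1 := by positivity
  rw [← mul_div_assoc, le_div_iff₀ hm] at h
  linarith

/-- for small `β` every shell is strictly worse than the ball -/
theorem small_beta {m : ℕ} (hm : 1 ≤ m) {R : ℝ} (hR : 0 < R) :
    ∃ β0 : ℝ, 0 < β0 ∧ ∀ β, 0 < β → β ≤ β0 → ∀ r₁ r₂, 0 < r₁ → r₁ < r₂ →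
      r₂ ^ (m + 1) - r₁ ^ (m + 1) = R ^ (m + 1) → ∀ k u p, 0 < k → GS m r₁ r₂ β k u p →
      ∀ kb, 0 < kb → kb * F m (kb * R) = β → kb ^ 2 < k ^ 2 := by
  have hm0 : (0:ℝ) < m + 1 := by positivity
  refine ⟨min (1 / (128 * (m + 1) * R)) (((m:ℝ) + 1) / (4 ^ m * R) / 2), by positivity, ?_⟩
  intro β hβ hβ0 r₁ r₂ h1 h12 hvol k u p hk g kb hkb hb
  have hβa : β ≤ 1 / (128 * (m + 1) * R) := hβ0.trans (min_le_left _ _)
  have hβb : β ≤ ((m:ℝ) + 1) / (4 ^ m * R) / 2 := hβ0.trans (min_le_right _ _)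
  have h2 : 0 < r₂ := h1.trans h12
  have hup := ball_upper hm hR hkb hb
  have hRn : 0 < R ^ (m + 1) := by positivity
  -- R < r₂
  have hRr : R < r₂ := by
    have : R ^ (m + 1) < r₂ ^ (m + 1) := by
      have : 0 < r₁ ^ (m + 1) := by positivity
      linarith
    exact lt_of_pow_lt_pow_left₀ _ h2.le this
  rcases le_or_gt (R / 4) r₁ with hc | hc
  · -- constant test function
    have ht := g.const_test h1.le h12 hvol
    have ha : (R / 4) ^ m ≤ r₁ ^ m := by gcongr
    have hbb : R ^ m ≤ r₂ ^ m := by gcongr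
    have h3 : (m + 1) * β * (R ^ m + (R / 4) ^ m) ≤ k ^ 2 * R ^ (m + 1) := by
      refine le_trans ?_ ht
      have : 0 ≤ ((m:ℝ) + 1) * β := by positivity
      gcongr ?_ * ?_
      linarith
    have h4 : kb ^ 2 * R ^ (m + 1) < (m + 1) * β * (R ^ m + (R / 4) ^ m) := by
      have e1 : (m + 1) * β * (R ^ m + (R / 4) ^ m) =
          (((m:ℝ) + 1) * β / R + (m + 1) * β / (4 ^ m * R)) * R ^ (m + 1) := by
        rw [div_pow, pow_succ]
        field_simp
      rw [e1]
      have h5 : β ^ 2 < (m + 1) * β / (4 ^ m * R) := by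
        have : (m + 1) * β / (4 ^ m * R) = β * (((m:ℝ) + 1) / (4 ^ m * R)) := by ring
        rw [this, sq]
        have h6 : 0 < ((m:ℝ) + 1) / (4 ^ m * R) := by positivity
        have : β < ((m:ℝ) + 1) / (4 ^ m * R) := by linarith
        gcongr
      gcongr
      linarith
    have h7 : kb ^ 2 * R ^ (m + 1) < k ^ 2 * R ^ (m + 1) := by linarith
    exact lt_of_mul_lt_mul_right h7 hRn.le
  · -- ball ground state as test function
    have hm1 : (1:ℝ) ≤ m := by exact_mod_cast hm
    have hkR : kb * R ≤ 1 / 8 := by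
      have h3 : β * R ≤ 1 / (128 * (m + 1)) := by
        calc β * R ≤ 1 / (128 * (m + 1) * R) * R := by gcongr
          _ = 1 / (128 * (m + 1)) := by field_simp
      have h4 : β * R ≤ 1 / 128 := by
        refine h3.trans ?_
        apply one_div_le_one_div_of_le (by norm_num)
        linarith
      have h5 : (kb * R) ^ 2 ≤ (m + 1) * (β * R) + (β * R) ^ 2 := by
        calc (kb * R) ^ 2 = kb ^ 2 * R ^ 2 := by ring
          _ ≤ ((m + 1) * β / R + β ^ 2) * R ^ 2 := by gcongr
          _ = (m + 1) * (β * R) + (β * R) ^ 2 := by field_simp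
      have h6 : (β * R) ^ 2 ≤ β * R := by
        have : 0 ≤ β * R := by positivity
        nlinarith
      have h10 : ((m:ℝ) + 1) * (β * R) ≤ 1 / 128 := by
        calc ((m:ℝ) + 1) * (β * R) ≤ ((m:ℝ) + 1) * (1 / (128 * (m + 1))) := by gcongr
          _ = 1 / 128 := by field_simp
      have h7 : (kb * R) ^ 2 ≤ (1 / 8) ^ 2 := by
        norm_num
        linarith
      exact le_of_sq_le_sq h7 (by norm_num)
    -- geometry
    have hr1n : r₁ ^ (m + 1) ≤ R ^ (m + 1) := by
      have : r₁ ≤ R := by linarith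
      gcongr
    have hr2n : r₂ ^ (m + 1) ≤ 2 * R ^ (m + 1) := by linarith
    have hr2R : r₂ ≤ 2 * R := by
      have h3 : r₂ ^ (m + 1) ≤ (2 * R) ^ (m + 1) := by
        refine hr2n.trans ?_
        rw [mul_pow]
        have : (2:ℝ) ≤ 2 ^ (m + 1) := by
          calc (2:ℝ) = 2 ^ 1 := by norm_num
            _ ≤ 2 ^ (m + 1) := by gcongr; norm_num; omega
        gcongr
      exact le_of_pow_le_pow_left₀ (by omega) (by positivity) h3
    have hr2m : r₂ ^ m ≤ 2 * R ^ m := by
      have h3 : r₂ ^ m * R ≤ 2 * R ^ m * R := by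
        calc r₂ ^ m * R ≤ r₂ ^ m * r₂ := by gcongr
          _ = r₂ ^ (m + 1) := by ring
          _ ≤ 2 * R ^ (m + 1) := hr2n
          _ = 2 * R ^ m * R := by ring
      exact le_of_mul_le_mul_right h3 hR
    have hV2 : V m (kb * r₂) ^ 2 ≤ 2 := by
      have h3 := V_le_exp m (t := kb * r₂) (by positivity)
      have h4 : kb * r₂ ≤ 1 / 4 := by
        calc kb * r₂ ≤ kb * (2 * R) := by gcongr
          _ = 2 * (kb * R) := by ring
          _ ≤ 1 / 4 := by linarith
      have hV := V_pos m (kb * r₂)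
      calc V m (kb * r₂) ^ 2 ≤ exp (kb * r₂) ^ 2 := by gcongr
        _ ≤ exp (1 / 4) ^ 2 := by gcongr
        _ = exp (1 / 2) := by rw [← exp_nat_mul]; norm_num
        _ ≤ 2 := by
          have h5 := one_sub_le_exp_neg (1 / 2)
          rw [exp_neg] at h5
          have h6 := exp_pos (1 / 2 : ℝ)
          rw [← one_div, le_div_iff₀ h6] at h5
          linarith
    -- f₂ - β
    set f2 : ℝ := kb * F m (kb * r₂) with hf2
    set f1 : ℝ := kb * F m (kb * r₁) with hf1
    have hf1p : 0 < f1 := mul_pos hkb (F_pos m (mul_pos hkb h1))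
    have hdf : ∀ r : ℝ, HasDerivAt (fun r => kb * F m (kb * r)) (kb ^ 2 * F1 m (kb * r)) r := by
      intro r
      have := HasDerivAt.comp (h₂ := F m) (h := fun x : ℝ => kb * x) r (hasDerivAt_F m (kb * r))
        ((hasDerivAt_id r).const_mul kb)
      refine (this.const_mul kb).congr_deriv ?_
      ring
    have hfb : f2 - β ≤ (m + 1) * β / R * (r₂ - R) := by
      have h3 := Convex.image_sub_le_mul_sub_of_deriv_le (convex_Icc R r₂)
        (f := fun r => kb * F m (kb * r)) (C := (m + 1) * β / R)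
        (fun r _ => (hdf r).continuousAt.continuousWithinAt)
        (fun r _ => (hdf r).differentiableAt.differentiableWithinAt)
        (fun r hr => by
          rw [interior_Icc] at hr
          have hr0 : 0 < r := hR.trans hr.1
          rw [(hdf r).deriv, F1_eq m (mul_pos hkb hr0).ne']
          have h4 : β ≤ kb * F m (kb * r) := by
            rw [← hb]
            have : F m (kb * R) ≤ F m (kb * r) := (strictMono_F m).monotone (by nlinarith [hr.1])
            gcongr
          have h5 : β ^ 2 ≤ (kb * F m (kb * r)) ^ 2 := by gcongr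
          have h6 : 0 < F m (kb * r) := F_pos m (mul_pos hkb hr0)
          have h7 : 0 ≤ m / r * (kb * F m (kb * r)) := by positivity
          have e : kb ^ 2 * (1 - F m (kb * r) ^ 2 - m / (kb * r) * F m (kb * r)) =
              kb ^ 2 - (kb * F m (kb * r)) ^ 2 - m / r * (kb * F m (kb * r)) := by
            field_simp
          rw [e]
          linarith)
        R (left_mem_Icc.2 hRr.le) r₂ (right_mem_Icc.2 hRr.le) hRr.le
      simp only [hb] at h3
      exact h3
    have hrr : (m + 1) * R ^ m * (r₂ - R) ≤ r₁ ^ (m + 1) := by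
      have h3 := one_add_mul_le_pow (a := (r₂ - R) / R) (by
        have : 0 ≤ (r₂ - R) / R := div_nonneg (by linarith) hR.le
        linarith) (m + 1)
      have h4 : 1 + (r₂ - R) / R = r₂ / R := by field_simp; ring
      rw [h4, div_pow, le_div_iff₀ hRn] at h3
      push_cast at h3
      have h5 : (1 + ((m:ℝ) + 1) * ((r₂ - R) / R)) * R ^ (m + 1) =
          R ^ (m + 1) + (m + 1) * R ^ m * (r₂ - R) := by
        rw [pow_succ]
        field_simp
      rw [h5] at h3
      linarith
    have hfb2 : f2 - β ≤ β * r₁ ^ (m + 1) / R ^ (m + 1) := by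
      refine hfb.trans ?_
      have e : (m + 1) * β / R * (r₂ - R) = β * ((m + 1) * R ^ m * (r₂ - R)) / R ^ (m + 1) := by
        rw [pow_succ]
        field_simp
      rw [e]
      gcongr
    -- test function inequality
    have hcVk : Continuous (fun r => V m (kb * r)) :=
      (continuous_V m).comp (continuous_const.mul continuous_id)
    have hcWk : Continuous (fun r => W m (kb * r)) :=
      (continuous_W m).comp (continuous_const.mul continuous_id)
    have ht := g.test h1.le h12 (w := fun r => V m (kb * r)) (w1 := fun r => kb * W m (kb * r))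
      (fun r _ => hasDerivAt_Vk m kb r) (continuous_const.mul hcWk).continuousOn
    have hFTC := integral_eq_sub_of_hasDerivAt_of_le h12.le
      (f := fun r => r ^ m * (kb * W m (kb * r) * V m (kb * r)))
      (f' := fun r => r ^ m * (kb * W m (kb * r)) ^ 2 + kb ^ 2 * (r ^ m * V m (kb * r) ^ 2))
      (by fun_prop) (fun r hr => by
        have hr0 : 0 < r := h1.trans hr.1
        have h3 := (hasDerivAt_pow m r).mul (((hasDerivAt_Wk m kb r).const_mul kb).mul
          (hasDerivAt_Vk m kb r))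
        refine h3.congr_deriv ?_
        rw [W1_eq m (mul_pos hkb hr0).ne']
        simp only [Pi.mul_apply]
        rcases m with _ | m
        · omega
        · simp only [Nat.add_sub_cancel]
          push_cast
          field_simp
          ring) (Continuous.intervalIntegrable (by fun_prop) _ _)
    rw [intervalIntegral.integral_add (Continuous.intervalIntegrable (by fun_prop) _ _)
      (Continuous.intervalIntegrable (by fun_prop) _ _), intervalIntegral.integral_const_mul] at hFTC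
    have hV1 := one_le_V m (kb * r₁)
    have hV1p := V_pos m (kb * r₁)
    have hV2p := V_pos m (kb * r₂)
    have hW1 : kb * W m (kb * r₁) = f1 * V m (kb * r₁) := by
      rw [hf1]; unfold F; field_simp
    have hW2 : kb * W m (kb * r₂) = f2 * V m (kb * r₂) := by
      rw [hf2]; unfold F; field_simp
    simp only [hW1, hW2] at hFTC
    have hI : 0 < ∫ r in r₁..r₂, r ^ m * V m (kb * r) ^ 2 := by
      refine intervalIntegral.intervalIntegral_pos_of_pos_on
        (Continuous.intervalIntegrable (by fun_prop) _ _) ?_ h12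
      intro r hr
      have hr0 : 0 < r := h1.trans hr.1
      have := V_pos m (kb * r)
      positivity
    have hkey : (f2 - β) * (r₂ ^ m * V m (kb * r₂) ^ 2) <
        (β + f1) * (r₁ ^ m * V m (kb * r₁) ^ 2) := by
      have h3 : (f2 - β) * (r₂ ^ m * V m (kb * r₂) ^ 2) ≤
          β * r₁ ^ (m + 1) / R ^ (m + 1) * (2 * R ^ m * 2) := by
        have h4 : r₂ ^ m * V m (kb * r₂) ^ 2 ≤ 2 * R ^ m * 2 := by gcongr
        have h5 : 0 ≤ β * r₁ ^ (m + 1) / R ^ (m + 1) := by positivity
        calc (f2 - β) * (r₂ ^ m * V m (kb * r₂) ^ 2)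
            ≤ β * r₁ ^ (m + 1) / R ^ (m + 1) * (r₂ ^ m * V m (kb * r₂) ^ 2) := by gcongr
          _ ≤ _ := by gcongr
      have h6 : β * r₁ ^ (m + 1) / R ^ (m + 1) * (2 * R ^ m * 2) = β * r₁ ^ m * (4 * r₁ / R) := by
        rw [pow_succ, pow_succ]
        field_simp
        ring
      have h7 : 4 * r₁ / R ≤ 1 := by
        rw [div_le_one hR]; linarith
      have h8 : β * r₁ ^ m * (4 * r₁ / R) ≤ β * r₁ ^ m * 1 := by gcongr
      have h9 : β * r₁ ^ m * 1 < (β + f1) * (r₁ ^ m * V m (kb * r₁) ^ 2) := by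
        have h10 : (1:ℝ) ≤ V m (kb * r₁) ^ 2 := one_le_pow₀ hV1
        have h11 : 0 < r₁ ^ m := by positivity
        calc β * r₁ ^ m * 1 < (β + f1) * r₁ ^ m * 1 := by
              have : β < β + f1 := by linarith
              gcongr
          _ ≤ (β + f1) * r₁ ^ m * V m (kb * r₁) ^ 2 := by gcongr
          _ = _ := by ring
      linarith
    have hfin : kb ^ 2 * (∫ r in r₁..r₂, r ^ m * V m (kb * r) ^ 2) <
        k ^ 2 * ∫ r in r₁..r₂, r ^ m * V m (kb * r) ^ 2 := by
      nlinarith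
    exact lt_of_mul_lt_mul_right hfin hI.le

end Pool.Agent.H.MP_1b807b_an
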