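import Pool.Agent.H.MP_1b807b_an.OneD

set_option autoImplicit false

namespace Pool.Agent.H.MP_1b807b_an

open Real Filter Topology Set MeasureTheory intervalIntegral

/-- inverse of `F m` -/
noncomputable def Finv (m : ℕ) (y : ℝ) : ℝ := Function.invFun (F m) y

lemma Finv_F (m : ℕ) (t : ℝ) : Finv m (F m t) = t :=
  Function.leftInverse_invFun (strictMono_F m).injective t

lemma exists_F_eq (m : ℕ) {y : ℝ} (hy : y ∈ Ioo (-1 : ℝ) 1) : ∃ t, F m t = y := by
  have key : ∀ y : ℝ, 0 ≤ y → y < 1 → ∃ t, F m t = y := by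
    intro y h0 h1
    obtain ⟨t, ht, hty⟩ := exists_F_gt m h1
    have := intermediate_value_Icc ht.le (continuous_F m).continuousOn
    obtain ⟨s, _, hs⟩ := this ⟨by rw [F_zero]; exact h0, hty.le⟩
    exact ⟨s, hs⟩
  rcases le_total 0 y with h | h
  · exact key y h hy.2
  · obtain ⟨t, ht⟩ := key (-y) (by linarith) (by linarith [hy.1])
    exact ⟨-t, by rw [F_neg, ht, neg_neg]⟩

lemma F_Finv (m : ℕ) {y : ℝ} (hy : y ∈ Ioo (-1 : ℝ) 1) : F m (Finv m y) = y :=
  Function.invFun_eq (exists_F_eq m hy)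

lemma hasDerivAt_Finv (m : ℕ) {y : ℝ} (hy : y ∈ Ioo (-1 : ℝ) 1) :
    HasDerivAt (Finv m) (F1 m (Finv m y))⁻¹ y := by
  have hnhds : Ioo (-1 : ℝ) 1 ∈ 𝓝 y := isOpen_Ioo.mem_nhds hy
  refine HasDerivAt.of_local_left_inverse ?_ (hasDerivAt_F m _) (F1_pos m _).ne' ?_
  · refine continuousAt_of_monotoneOn_of_image_mem_nhds (s := Ioo (-1 : ℝ) 1) ?_ hnhds ?_
    · intro a ha b hb hab
      by_contra hcon
      push Not at hcon
      have := strictMono_F m hcon
      rw [F_Finv m ha, F_Finv m hb] at this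
      linarith
    · have : Finv m '' Ioo (-1 : ℝ) 1 = univ := by
        ext t
        simp only [mem_image, mem_univ, iff_true]
        exact ⟨F m t, ⟨neg_one_lt_F m t, F_lt_one m t⟩, Finv_F m t⟩
      rw [this]
      exact univ_mem
  · filter_upwards [hnhds] with z hz
    exact F_Finv m hz

/-- the pointwise inequality behind the crossing lemma -/
lemma ineq_strict (m : ℕ) (hm : 1 ≤ m) {x ρ s : ℝ} (hρ : 0 < ρ) (hs : 1 < s) (hx : x < ρ)
    (hx0 : x ≠ 0) :
    F1 m (s * x) / F1 m x * ((1 - F m x ^ 2) - m / ρ * F m x) + F m (s * x) ^ 2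
      + m / (s * ρ) * F m (s * x) < 1 := by
  have hs0 : 0 < s := by linarith
  have hsx : s * x ≠ 0 := mul_ne_zero hs0.ne' hx0
  have hF1 := F1_pos m x
  have hm' : (0:ℝ) < m := by exact_mod_cast hm
  have hA : 0 < 1 - F m x ^ 2 := by have := F_sq_lt_one m x; linarith
  have hB : 0 < 1 - F m (s * x) ^ 2 := by have := F_sq_lt_one m (s * x); linarith
  -- sign of the product
  have hsign : 0 < (1 / x - 1 / ρ) *
      ((1 - F m x ^ 2) * F m (s * x) / s - (1 - F m (s * x) ^ 2) * F m x) := by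
    rcases lt_or_gt_of_ne hx0 with h | h
    · -- x < 0
      have hz : 0 < -x := by linarith
      have hlt : -x < s * (-x) := by nlinarith
      have hS := S_lt m hz hlt
      have e1 : F m (-x) = - F m x := F_neg m x
      have e2 : F m (s * -x) = - F m (s * x) := by rw [mul_neg, F_neg]
      rw [e1, e2] at hS
      simp only [neg_sq] at hS
      rw [div_lt_div_iff₀ (by positivity) (by positivity)] at hS
      have h1 : 1 / x - 1 / ρ < 0 := by
        have : 1 / x < 0 := one_div_neg.2 h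
        have : 0 < 1 / ρ := by positivity
        linarith
      have h2 : (1 - F m x ^ 2) * F m (s * x) / s - (1 - F m (s * x) ^ 2) * F m x < 0 := by
        have h3 : (-x) * ((1 - F m (s * x) ^ 2) * (- F m x) * s) <
            (-x) * ((1 - F m x ^ 2) * (- F m (s * x))) := by linarith
        have h4 := lt_of_mul_lt_mul_left h3 hz.le
        rw [sub_neg, div_lt_iff₀ hs0]
        linarith
      exact mul_pos_of_neg_of_neg h1 h2
    · have hlt : x < s * x := by nlinarith
      have hS := S_lt m h hlt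
      rw [div_lt_div_iff₀ (by positivity) (by positivity)] at hS
      have h1 : 0 < 1 / x - 1 / ρ := by
        have := one_div_lt_one_div_of_lt h hx
        linarith
      have h2 : 0 < (1 - F m x ^ 2) * F m (s * x) / s - (1 - F m (s * x) ^ 2) * F m x := by
        have h3 : x * ((1 - F m (s * x) ^ 2) * F m x * s) <
            x * ((1 - F m x ^ 2) * F m (s * x)) := by linarith
        have h4 := lt_of_mul_lt_mul_left h3 h.le
        rw [sub_pos, lt_div_iff₀ hs0]
        linarith
      exact mul_pos h1 h2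
  have hmain : F1 m (s * x) * ((1 - F m x ^ 2) - m / ρ * F m x) <
      ((1 - F m (s * x) ^ 2) - m / (s * ρ) * F m (s * x)) * F1 m x := by
    have e : ((1 - F m (s * x) ^ 2) - m / (s * ρ) * F m (s * x)) * F1 m x -
      F1 m (s * x) * ((1 - F m x ^ 2) - m / ρ * F m x) = m * ((1 / x - 1 / ρ) *
      ((1 - F m x ^ 2) * F m (s * x) / s - (1 - F m (s * x) ^ 2) * F m x)) := by
      rw [F1_eq m hx0, F1_eq m hsx]
      field_simp
      ring
    have : 0 < m * ((1 / x - 1 / ρ) *
      ((1 - F m x ^ 2) * F m (s * x) / s - (1 - F m (s * x) ^ 2) * F m x)) := by positivity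
    linarith
  have h5 : F1 m (s * x) / F1 m x * ((1 - F m x ^ 2) - m / ρ * F m x) <
      (1 - F m (s * x) ^ 2) - m / (s * ρ) * F m (s * x) := by
    rw [div_mul_eq_mul_div, div_lt_iff₀ hF1]
    exact hmain
  linarith

lemma ineq_le (m : ℕ) (hm : 1 ≤ m) {x ρ s : ℝ} (hρ : 0 < ρ) (hs : 1 < s) (hx : x < ρ) :
    F1 m (s * x) / F1 m x * ((1 - F m x ^ 2) - m / ρ * F m x) + F m (s * x) ^ 2
      + m / (s * ρ) * F m (s * x) ≤ 1 := by
  by_cases hx0 : x = 0
  · subst hx0
    have := (F1_pos m 0).ne'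
    simp only [mul_zero, F_zero]
    rw [div_self this]
    simp
  · exact (ineq_strict m hm hρ hs hx hx0).le

/-- **Crossing lemma.** If the shell `(r₁,r₂)` has eigenvalue `-k²` for the Robin parameter for
which the ball of radius `R` has eigenvalue `-k²`, then for every larger Robin parameter the shell
has a strictly larger eigenvalue (smaller `l²`) than the ball. -/
theorem crossing {m : ℕ} (hm : 1 ≤ m) {r₁ r₂ R k k' l : ℝ} (h0 : 0 < r₁) (h12 : r₁ < r₂)
    (hR : 0 < R) (hk : 0 < k) (hkk : k < k') {u p u' p' : ℝ → ℝ}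
    (g : GS m r₁ r₂ (k * F m (k * R)) k u p) (g' : GS m r₁ r₂ (k' * F m (k' * R)) l u' p') :
    l ^ 2 < k' ^ 2 := by
  have hk' : 0 < k' := hk.trans hkk
  set β : ℝ := k * F m (k * R) with hβ
  set β' : ℝ := k' * F m (k' * R) with hβ'
  have hFk : 0 < F m (k * R) := F_pos m (mul_pos hk hR)
  have hβ0 : 0 < β := mul_pos hk hFk
  have hβk : β < k := by
    have := F_lt_one m (k * R)
    nlinarith
  set s : ℝ := k' / k with hs
  have hs1 : 1 < s := by rw [hs, lt_div_iff₀ hk]; linarith
  have hs0 : 0 < s := by linarith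
  have hsk : s * k = k' := by rw [hs]; field_simp
  have hcu := g.cu
  have hcp := g.cp
  set y : ℝ → ℝ := fun r => p r / (k * u r) with hy
  have hyIoo : ∀ r ∈ Icc r₁ r₂, y r ∈ Ioo (-1 : ℝ) 1 := by
    intro r hr
    have h1 := g.abs_lt h0 h12 hβ0.le hβk r hr
    have hu := g.pos r hr
    have h2 : |p r| < k * u r := by
      apply abs_lt_of_sq_lt_sq _ (by positivity)
      nlinarith
    rw [abs_lt] at h2
    simp only [hy]
    constructor
    · rw [lt_div_iff₀ (by positivity)]; linarith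
    · rw [div_lt_iff₀ (by positivity)]; linarith
  have hycont : ContinuousOn y (Icc r₁ r₂) := by
    refine hcp.div (continuousOn_const.mul hcu) (fun r hr => ?_)
    have := g.pos r hr
    positivity
  set x : ℝ → ℝ := fun r => Finv m (y r) with hx
  have hFx : ∀ r ∈ Icc r₁ r₂, F m (x r) = y r := fun r hr => F_Finv m (hyIoo r hr)
  have hxcont : ContinuousOn x (Icc r₁ r₂) := by
    intro r hr
    have h1 := (hasDerivAt_Finv m (hyIoo r hr)).continuousAt
    exact ContinuousAt.comp_continuousWithinAt (f := y) (g := Finv m) h1 (hycont r hr)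
  have hxlt : ∀ r ∈ Icc r₁ r₂, x r < k * r := by
    intro r hr
    have h1 := g.lt_ball h0 h12 hβ0.le hk r hr
    have hu := g.pos r hr
    have h2 : F m (x r) < F m (k * r) := by
      rw [hFx r hr]
      simp only [hy]
      rw [div_lt_iff₀ (by positivity)]
      linarith
    exact (strictMono_F m).lt_iff_lt.1 h2
  set y1 : ℝ → ℝ := fun r => k * (1 - y r ^ 2) - m / r * y r with hy1
  have hyd : ∀ r ∈ Ioo r₁ r₂, HasDerivAt y (y1 r) r := by
    intro r hr
    have hr' := Ioo_subset_Icc_self hr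
    have hu := g.pos r hr'
    have hr0 : 0 < r := lt_trans h0 hr.1
    have h1 := (g.dp r hr).div ((g.du r hr').const_mul k) (by positivity)
    refine h1.congr_deriv ?_
    simp only [hy1, hy]
    field_simp
    ring
  have hxd : ∀ r ∈ Ioo r₁ r₂, HasDerivAt x ((F1 m (x r))⁻¹ * y1 r) r := by
    intro r hr
    exact HasDerivAt.comp (h₂ := Finv m) (h := y) r
      (hasDerivAt_Finv m (hyIoo r (Ioo_subset_Icc_self hr))) (hyd r hr)
  set G : ℝ → ℝ := fun r => k' * F m (s * x r) with hG
  set G1 : ℝ → ℝ := fun r => k' * (F1 m (s * x r) * (s * ((F1 m (x r))⁻¹ * y1 r))) with hG1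
  have hGcont : ContinuousOn G (Icc r₁ r₂) := by
    have h1 : ContinuousOn (fun r => s * x r) (Icc r₁ r₂) := continuousOn_const.mul hxcont
    exact continuousOn_const.mul ((continuous_F m).comp_continuousOn h1)
  have hGd : ∀ r ∈ Ioo r₁ r₂, HasDerivAt G (G1 r) r := by
    intro r hr
    have h1 := HasDerivAt.comp (h₂ := F m) (h := fun r => s * x r) r (hasDerivAt_F m (s * x r))
      ((hxd r hr).const_mul s)
    exact h1.const_mul k'
  -- Riccati expression divided by k'^2
  have hexpr : ∀ r ∈ Ioo r₁ r₂, G1 r + G r ^ 2 + m / r * G r = k' ^ 2 *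
      (F1 m (s * x r) / F1 m (x r) * ((1 - F m (x r) ^ 2) - m / (k * r) * F m (x r))
      + F m (s * x r) ^ 2 + m / (s * (k * r)) * F m (s * x r)) := by
    intro r hr
    have hr' := Ioo_subset_Icc_self hr
    have hr0 : 0 < r := lt_trans h0 hr.1
    have hF1 := F1_pos m (x r)
    simp only [hG1, hG, hy1]
    rw [hFx r hr', ← hsk]
    field_simp
  have hRic : ∀ r ∈ Ioo r₁ r₂, G1 r + G r ^ 2 + m / r * G r ≤ k' ^ 2 := by
    intro r hr
    have hr0 : 0 < r := lt_trans h0 hr.1
    rw [hexpr r hr]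
    have := ineq_le m hm (mul_pos hk hr0) hs1 (hxlt r (Ioo_subset_Icc_self hr))
    have hk2 : 0 < k' ^ 2 := by positivity
    nlinarith
  -- value at the left end
  have hleft1 : r₁ ∈ Icc r₁ r₂ := left_mem_Icc.2 h12.le
  have hright1 : r₂ ∈ Icc r₁ r₂ := right_mem_Icc.2 h12.le
  have hyl : y r₁ = F m (-(k * R)) := by
    have hu := g.pos r₁ hleft1
    have hp1 : p r₁ = - (β * u r₁) := by
      have := g.left
      have h2 : r₁ ^ m ≠ 0 := by positivity
      have := (mul_eq_zero.1 this).resolve_left h2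
      linarith
    simp only [hy]
    rw [hp1, F_neg, hβ]
    field_simp
  have hyr : y r₂ = F m (k * R) := by
    have hu := g.pos r₂ hright1
    simp only [hy]
    rw [g.right, hβ]
    field_simp
  have hGl : G r₁ = - β' := by
    simp only [hG, hx]
    rw [hyl, Finv_F, show s * -(k * R) = -(k' * R) by rw [← hsk]; ring, F_neg, hβ']
    ring
  have hGr : G r₂ = β' := by
    simp only [hG, hx]
    rw [hyr, Finv_F, show s * (k * R) = (k' * R) by rw [← hsk]; ring, hβ']
  -- find a point where `y < 0`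
  obtain ⟨c, hc, hyc⟩ : ∃ c ∈ Ioo r₁ r₂, y c < 0 := by
    have hneg : y r₁ < 0 := by rw [hyl, F_neg]; linarith
    have hc1 : ContinuousWithinAt y (Icc r₁ r₂) r₁ := hycont r₁ hleft1
    have hev : ∀ᶠ r in 𝓝[Icc r₁ r₂] r₁, y r < 0 := hc1.eventually_lt_const hneg
    have hev2 : ∀ᶠ r in 𝓝[>] r₁, y r < 0 := by
      rw [← nhdsWithin_Ioc_eq_nhdsGT h12]
      exact nhdsWithin_mono _ Ioc_subset_Icc_self hev
    have hev3 : ∀ᶠ r in 𝓝[>] r₁, r ∈ Ioo r₁ r₂ := Ioo_mem_nhdsGT h12
    obtain ⟨c, hc⟩ := (hev2.and hev3).exists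
    exact ⟨c, hc.2, hc.1⟩
  have hc0 : 0 < c := lt_trans h0 hc.1
  have hcI := Ioo_subset_Icc_self hc
  have hxc : x c ≠ 0 := by
    intro h
    have := hFx c hcI
    rw [h, F_zero] at this
    linarith
  have hslack : G1 c + G c ^ 2 + m / c * G c < k' ^ 2 := by
    rw [hexpr c hc]
    have := ineq_strict m hm (mul_pos hk hc0) hs1 (hxlt c hcI) hxc
    have hk2 : 0 < k' ^ 2 := by positivity
    nlinarith
  -- continuity at `c`
  have hyca : ContinuousAt y c := (hyd c hc).continuousAt
  have hxca : ContinuousAt x c := (hxd c hc).continuousAt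
  have hGca : ContinuousAt G c := (hGd c hc).continuousAt
  have hy1ca : ContinuousAt y1 c := by
    simp only [hy1]
    have : ContinuousAt (fun r : ℝ => (m : ℝ) / r) c := continuousAt_const.div continuousAt_id hc0.ne'
    exact (continuousAt_const.mul (continuousAt_const.sub (hyca.pow 2))).sub (this.mul hyca)
  have hG1ca : ContinuousAt G1 c := by
    simp only [hG1]
    have h1 : ContinuousAt (fun r => F1 m (s * x r)) c :=
      ContinuousAt.comp (f := fun r => s * x r) (g := F1 m) (continuous_F1 m).continuousAt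
        (continuousAt_const.mul hxca)
    have h2 : ContinuousAt (fun r => F1 m (x r)) c :=
      ContinuousAt.comp (f := x) (g := F1 m) (continuous_F1 m).continuousAt hxca
    exact continuousAt_const.mul (h1.mul (continuousAt_const.mul
      ((h2.inv₀ (F1_pos m _).ne').mul hy1ca)))
  have hSca : ContinuousAt (fun r => G1 r + G r ^ 2 + m / r * G r) c := by
    have : ContinuousAt (fun r : ℝ => (m : ℝ) / r) c := continuousAt_const.div continuousAt_id hc0.ne'
    exact (hG1ca.add (hGca.pow 2)).add (this.mul hGca)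
  set δ : ℝ := (k' ^ 2 - (G1 c + G c ^ 2 + m / c * G c)) / 2 with hδ
  have hδ0 : 0 < δ := by rw [hδ]; linarith
  have hev : ∀ᶠ r in 𝓝 c, G1 r + G r ^ 2 + m / r * G r < k' ^ 2 - δ ∧ r ∈ Ioo r₁ r₂ := by
    refine (hSca.eventually_lt_const ?_).and (isOpen_Ioo.mem_nhds hc)
    rw [hδ]
    linarith
  obtain ⟨ε, hε, hball⟩ := Metric.eventually_nhds_iff.1 hev
  set e : ℝ := ε / 2 with he
  have he0 : 0 < e := by rw [he]; positivity
  have hmem : ∀ r ∈ Icc (c - e) (c + e), G1 r + G r ^ 2 + m / r * G r < k' ^ 2 - δ ∧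
      r ∈ Ioo r₁ r₂ := by
    intro r hr
    apply hball
    rw [Real.dist_eq, abs_lt]
    constructor <;> linarith [hr.1, hr.2]
  have hm1 := (hmem (c - e) (mem_Icc.2 ⟨le_rfl, by linarith⟩)).2
  have hm2 := (hmem (c + e) (mem_Icc.2 ⟨by linarith, le_rfl⟩)).2
  have hpic := picone_lt (m := m) (κ := k' ^ 2) (c := c - e) (d := c + e) (δ := δ) h0.le hm1.1.le
    (by linarith) hm2.2.le hδ0 hGcont hGd hRic
    (fun r hr => (hmem r (Ioo_subset_Icc_self hr)).1.le) g'.du g'.cp
    (fun r hr => (g'.pos r hr).ne')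
  rw [hGl, hGr] at hpic
  have hen := g'.energy h0.le h12
  have hcu' := g'.cu
  have hcp' := g'.cp
  have hI1 : IntervalIntegrable (fun r => r ^ m * (p' r ^ 2 + l ^ 2 * u' r ^ 2)) volume r₁ r₂ := by
    refine ContinuousOn.intervalIntegrable ?_
    rw [uIcc_of_le h12.le]
    fun_prop
  have hI2 : IntervalIntegrable (fun r => (k' ^ 2 - l ^ 2) * (r ^ m * u' r ^ 2)) volume r₁ r₂ := by
    refine ContinuousOn.intervalIntegrable ?_
    rw [uIcc_of_le h12.le]
    fun_prop
  have hsplit : ∫ r in r₁..r₂, r ^ m * (p' r ^ 2 + k' ^ 2 * u' r ^ 2) =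
      (∫ r in r₁..r₂, r ^ m * (p' r ^ 2 + l ^ 2 * u' r ^ 2)) +
      (k' ^ 2 - l ^ 2) * ∫ r in r₁..r₂, r ^ m * u' r ^ 2 := by
    rw [← intervalIntegral.integral_const_mul, ← intervalIntegral.integral_add hI1 hI2]
    congr 1
    ext r
    ring
  have hnn : 0 ≤ ∫ r in r₁..r₂, r ^ m * u' r ^ 2 := by
    refine intervalIntegral.integral_nonneg h12.le (fun r hr => ?_)
    have : 0 ≤ r := h0.le.trans hr.1
    positivity
  rw [hsplit, hen] at hpic
  by_contra hcon
  push Not at hcon
  have : (k' ^ 2 - l ^ 2) * ∫ r in r₁..r₂, r ^ m * u' r ^ 2 ≤ 0 :=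
    mul_nonpos_of_nonpos_of_nonneg (by linarith) hnn
  linarith

end Pool.Agent.H.MP_1b807b_an
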