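import Pool.Agent.H.MP_1b807b_an.Cross

set_option autoImplicit false

namespace Pool.Agent.H.MP_1b807b_an

open Real Filter Topology Set MeasureTheory intervalIntegral

lemma hasDerivAt_Vk (m : ℕ) (k r : ℝ) :
    HasDerivAt (fun r => V m (k * r)) (k * W m (k * r)) r := by
  have := HasDerivAt.comp (h₂ := V m) (h := fun x : ℝ => k * x) r (hasDerivAt_V m (k * r))
    ((hasDerivAt_id r).const_mul k)
  refine this.congr_deriv ?_
  ring

lemma hasDerivAt_Wk (m : ℕ) (k r : ℝ) :
    HasDerivAt (fun r => W m (k * r)) (k * W1 m (k * r)) r := by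
  have := HasDerivAt.comp (h₂ := W m) (h := fun x : ℝ => k * x) r (hasDerivAt_W m (k * r))
    ((hasDerivAt_id r).const_mul k)
  refine this.congr_deriv ?_
  ring

/-- `k ↦ k F(k R)` is strictly increasing on `[0,∞)` for `R > 0` -/
lemma kF_strictMonoOn (m : ℕ) {R : ℝ} (hR : 0 < R) :
    StrictMonoOn (fun k => k * F m (k * R)) (Ici 0) := by
  intro a ha b hb hab
  have ha' : 0 ≤ a := ha
  have h1 : F m (a * R) < F m (b * R) := strictMono_F m (by nlinarith)
  have h2 : 0 ≤ F m (a * R) := by
    rcases eq_or_lt_of_le ha' with h | h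
    · rw [← h, zero_mul, F_zero]
    · exact (F_pos m (mul_pos h hR)).le
  simp only
  nlinarith

lemma kF_lt {m : ℕ} {R a b : ℝ} (hR : 0 < R) (ha : 0 ≤ a) (hab : a < b) :
    a * F m (a * R) < b * F m (b * R) :=
  kF_strictMonoOn m hR (mem_Ici.2 ha) (mem_Ici.2 (ha.trans hab.le)) hab

lemma continuous_kF (m : ℕ) (R : ℝ) : Continuous (fun k => k * F m (k * R)) :=
  continuous_id.mul ((continuous_F m).comp (continuous_id.mul continuous_const))

/-- for large `k`, `k F(k R)` is large -/
lemma kF_large (m : ℕ) {R : ℝ} (hR : 0 < R) (M : ℝ) : ∃ K : ℝ, 0 < K ∧ ∀ k, K ≤ k →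
    M ≤ k * F m (k * R) := by
  have hF := F_pos m hR
  refine ⟨max 1 (M / F m R), by positivity, fun k hk => ?_⟩
  have h1 : 1 ≤ k := (le_max_left _ _).trans hk
  have h2 : M / F m R ≤ k := (le_max_right _ _).trans hk
  have h3 : F m R ≤ F m (k * R) := (strictMono_F m).monotone (by nlinarith)
  rw [div_le_iff₀ hF] at h2
  calc M ≤ k * F m R := h2
    _ ≤ k * F m (k * R) := by gcongr

/-- the ball: for each `β > 0` there is `k > 0` with `k F(k R) = β` -/
lemma exists_ball (m : ℕ) {R β : ℝ} (hR : 0 < R) (hβ : 0 < β) :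
    ∃ k : ℝ, 0 < k ∧ k * F m (k * R) = β := by
  obtain ⟨K, hK, hK2⟩ := kF_large m hR β
  obtain ⟨k, hk, hk2⟩ := intermediate_value_Icc hK.le (continuous_kF m R).continuousOn
    (show β ∈ Icc (0 * F m (0 * R)) (K * F m (K * R)) from ⟨by simpa using hβ.le, hK2 K le_rfl⟩)
  simp only at hk2
  refine ⟨k, ?_, hk2⟩
  rcases eq_or_lt_of_le hk.1 with h | h
  · rw [← h, zero_mul] at hk2
    linarith
  · exact h

/-- ground state of the ball -/
lemma GS_ball {m : ℕ} (hm : 1 ≤ m) {R k : ℝ} (hk : 0 < k) :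
    GS m 0 R (k * F m (k * R)) k (fun r => V m (k * r)) (fun r => k * W m (k * r)) where
  du := fun r _ => hasDerivAt_Vk m k r
  cp := (continuous_const.mul ((continuous_W m).comp (continuous_const.mul continuous_id))).continuousOn
  dp := fun r hr => by
    refine ((hasDerivAt_Wk m k r).const_mul k).congr_deriv ?_
    have hr0 : 0 < r := hr.1
    rw [W1_eq m (mul_pos hk hr0).ne']
    field_simp
  pos := fun r _ => V_pos m _
  left := by
    rw [zero_pow (by omega)]
    simp
  right := by
    have := V_pos m (k * R)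
    unfold F
    field_simp

/-- growth of `V`: `V(ks) ≥ V(k r₁) exp (f₁ (s - r₁))` -/
lemma V_growth (m : ℕ) {k r₁ s : ℝ} (hk : 0 < k) (hs : r₁ ≤ s) :
    V m (k * r₁) * exp (k * F m (k * r₁) * (s - r₁)) ≤ V m (k * s) := by
  set f1 : ℝ := k * F m (k * r₁) with hf1
  have hd : ∀ x : ℝ, HasDerivAt (fun x => V m (k * x) * exp (-(f1 * (x - r₁))))
      (k * W m (k * x) * exp (-(f1 * (x - r₁))) + V m (k * x) * (exp (-(f1 * (x - r₁))) * (-(f1 * 1)))) x := by
    intro x
    have h1 : HasDerivAt (fun x : ℝ => -(f1 * (x - r₁))) (-(f1 * 1)) x :=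
      (((hasDerivAt_id x).sub_const r₁).const_mul f1).neg
    exact (hasDerivAt_Vk m k x).mul h1.exp
  have hmono : MonotoneOn (fun x => V m (k * x) * exp (-(f1 * (x - r₁)))) (Ici r₁) := by
    refine monotoneOn_of_deriv_nonneg (convex_Ici _) ?_ ?_ ?_
    · exact fun x _ => (hd x).continuousAt.continuousWithinAt
    · exact fun x _ => (hd x).differentiableAt.differentiableWithinAt
    · intro x hx
      rw [interior_Ici] at hx
      rw [(hd x).deriv]
      have hx' : r₁ < x := hx
      have h1 : F m (k * r₁) ≤ F m (k * x) := (strictMono_F m).monotone (by nlinarith)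
      have hV := V_pos m (k * x)
      have hW : W m (k * x) = F m (k * x) * V m (k * x) := by
        unfold F
        field_simp
      rw [hW]
      have he := exp_pos (-(f1 * (x - r₁)))
      have : k * (F m (k * x) * V m (k * x)) * exp (-(f1 * (x - r₁))) + V m (k * x) *
        (exp (-(f1 * (x - r₁))) * (-(f1 * 1))) = k * (F m (k * x) - F m (k * r₁)) *
          (V m (k * x) * exp (-(f1 * (x - r₁)))) := by
        rw [hf1]; ring
      rw [this]
      have h2 : 0 ≤ F m (k * x) - F m (k * r₁) := by linarith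
      positivity
  have h := hmono (mem_Ici.2 le_rfl) (mem_Ici.2 hs) hs
  simp only [sub_self, mul_zero, neg_zero, exp_zero, mul_one] at h
  rw [exp_neg, ← div_eq_mul_inv, le_div_iff₀ (exp_pos _)] at h
  exact h

/-- integrand of the second solution -/
noncomputable def zint (m : ℕ) (r₁ k s : ℝ) : ℝ := 1 / ((max s r₁) ^ m * V m (k * s) ^ 2)

lemma zint_pos (m : ℕ) {r₁ : ℝ} (h0 : 0 < r₁) (k s : ℝ) : 0 < zint m r₁ k s := by
  unfold zint
  have h1 : 0 < max s r₁ := lt_max_of_lt_right h0
  have h2 := V_pos m (k * s)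
  positivity

lemma continuous_zint (m : ℕ) {r₁ : ℝ} (h0 : 0 < r₁) :
    Continuous (Function.uncurry (fun k s => zint m r₁ k s)) := by
  unfold Function.uncurry zint
  refine Continuous.div continuous_const ?_ ?_
  · have h1 : Continuous (fun a : ℝ × ℝ => V m (a.1 * a.2)) :=
      (continuous_V m).comp (continuous_fst.mul continuous_snd)
    exact ((continuous_snd.max continuous_const).pow m).mul (h1.pow 2)
  · intro a
    have h1 : 0 < max a.2 r₁ := lt_max_of_lt_right h0
    have h2 := V_pos m (a.1 * a.2)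
    positivity

/-- `z(k,r) = ∫_{r₁}^r ds/(s^m V(ks)²)` -/
noncomputable def zz (m : ℕ) (r₁ k r : ℝ) : ℝ := ∫ s in r₁..r, zint m r₁ k s

lemma hasDerivAt_zz (m : ℕ) {r₁ : ℝ} (h0 : 0 < r₁) (k r : ℝ) :
    HasDerivAt (zz m r₁ k) (zint m r₁ k r) r := by
  have hc : Continuous (fun s => zint m r₁ k s) :=
    (continuous_zint m h0).comp (Continuous.prodMk continuous_const continuous_id)
  exact intervalIntegral.integral_hasDerivAt_right (hc.intervalIntegrable _ _)
    (hc.stronglyMeasurableAtFilter _ _) hc.continuousAt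

lemma continuous_zz (m : ℕ) {r₁ : ℝ} (h0 : 0 < r₁) (r : ℝ) : Continuous (fun k => zz m r₁ k r) :=
  intervalIntegral.continuous_parametric_intervalIntegral_of_continuous' (continuous_zint m h0) r₁ r

lemma zz_self (m : ℕ) (r₁ k : ℝ) : zz m r₁ k r₁ = 0 := by
  unfold zz
  simp

lemma zz_strictMono (m : ℕ) {r₁ : ℝ} (h0 : 0 < r₁) (k : ℝ) : StrictMono (zz m r₁ k) := by
  refine strictMono_of_deriv_pos fun r => ?_
  rw [(hasDerivAt_zz m h0 k r).deriv]
  exact zint_pos m h0 k r

/-- `B₁ Z ≤ 1/(2 f₁)` -/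
lemma zz_bound (m : ℕ) {r₁ r₂ k : ℝ} (h0 : 0 < r₁) (h12 : r₁ < r₂) (hk : 0 < k) :
    r₁ ^ m * V m (k * r₁) ^ 2 * zz m r₁ k r₂ ≤ 1 / (2 * (k * F m (k * r₁))) := by
  set f1 : ℝ := k * F m (k * r₁) with hf1
  have hf10 : 0 < f1 := mul_pos hk (F_pos m (mul_pos hk h0))
  set B1 : ℝ := r₁ ^ m * V m (k * r₁) ^ 2 with hB1
  have hV1 := V_pos m (k * r₁)
  have hB10 : 0 < B1 := by rw [hB1]; positivity
  have hd : ∀ x : ℝ, HasDerivAt (fun x => B1 * zz m r₁ k x + exp (-(2 * f1 * (x - r₁))) / (2 * f1))
      (B1 * zint m r₁ k x + exp (-(2 * f1 * (x - r₁))) * (-(2 * f1 * 1)) / (2 * f1)) x := by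
    intro x
    have h1 : HasDerivAt (fun x : ℝ => -(2 * f1 * (x - r₁))) (-(2 * f1 * 1)) x :=
      (((hasDerivAt_id x).sub_const r₁).const_mul (2 * f1)).neg
    exact ((hasDerivAt_zz m h0 k x).const_mul B1).add (h1.exp.div_const (2 * f1))
  have hanti : AntitoneOn (fun x => B1 * zz m r₁ k x + exp (-(2 * f1 * (x - r₁))) / (2 * f1))
      (Ici r₁) := by
    refine antitoneOn_of_deriv_nonpos (convex_Ici _) ?_ ?_ ?_
    · exact fun x _ => (hd x).continuousAt.continuousWithinAt
    · exact fun x _ => (hd x).differentiableAt.differentiableWithinAt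
    · intro x hx
      rw [interior_Ici] at hx
      have hx' : r₁ < x := hx
      rw [(hd x).deriv]
      have hg := V_growth m hk hx'.le
      rw [← hf1] at hg
      have hVx := V_pos m (k * x)
      have hx0 : 0 < x := h0.trans hx'
      have h2 : B1 * exp (2 * f1 * (x - r₁)) ≤ x ^ m * V m (k * x) ^ 2 := by
        have e : exp (2 * f1 * (x - r₁)) = exp (f1 * (x - r₁)) ^ 2 := by
          rw [← exp_nat_mul]
          congr 1
          push_cast
          ring
        rw [e, hB1]
        calc r₁ ^ m * V m (k * r₁) ^ 2 * exp (f1 * (x - r₁)) ^ 2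
            = r₁ ^ m * (V m (k * r₁) * exp (f1 * (x - r₁))) ^ 2 := by ring
          _ ≤ x ^ m * V m (k * x) ^ 2 := by gcongr
      have h3 : B1 * zint m r₁ k x ≤ exp (-(2 * f1 * (x - r₁))) := by
        unfold zint
        rw [max_eq_left hx'.le, exp_neg, mul_one_div, div_le_iff₀ (by positivity),
          inv_mul_eq_div, le_div_iff₀ (exp_pos _)]
        exact h2
      have h4 : exp (-(2 * f1 * (x - r₁))) * (-(2 * f1 * 1)) / (2 * f1) =
          - exp (-(2 * f1 * (x - r₁))) := by field_simp
      rw [h4]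
      linarith
  have h := hanti (mem_Ici.2 le_rfl) (mem_Ici.2 h12.le) h12.le
  simp only [zz_self, mul_zero, sub_self, neg_zero, exp_zero, zero_add] at h
  have : 0 < exp (-(2 * f1 * (r₂ - r₁))) / (2 * f1) := by positivity
  linarith

/-- the shell: for every `β > 0` there is a ground state -/
theorem exists_shell (m : ℕ) {r₁ r₂ β : ℝ} (h0 : 0 < r₁) (h12 : r₁ < r₂) (hβ : 0 < β) :
    ∃ (k : ℝ) (u p : ℝ → ℝ), 0 < k ∧ GS m r₁ r₂ β k u p := by
  have h2 : 0 < r₂ := h0.trans h12
  -- functions of `k`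
  set f1 : ℝ → ℝ := fun k => k * F m (k * r₁) with hf1
  set f2 : ℝ → ℝ := fun k => k * F m (k * r₂) with hf2
  set B1 : ℝ → ℝ := fun k => r₁ ^ m * V m (k * r₁) ^ 2 with hB1
  set B2 : ℝ → ℝ := fun k => r₂ ^ m * V m (k * r₂) ^ 2 with hB2
  set c : ℝ → ℝ := fun k => (β + f1 k) * B1 k with hc
  set h : ℝ → ℝ := fun k => (f2 k - β) * B2 k * (1 - c k * zz m r₁ k r₂) - c k with hh
  have hcontV : ∀ r : ℝ, Continuous (fun k => V m (k * r)) := fun r =>
    (continuous_V m).comp (continuous_id.mul continuous_const)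
  have hcf1 : Continuous f1 := continuous_kF m r₁
  have hcf2 : Continuous f2 := continuous_kF m r₂
  have hcB1 : Continuous B1 := continuous_const.mul ((hcontV r₁).pow 2)
  have hcB2 : Continuous B2 := continuous_const.mul ((hcontV r₂).pow 2)
  have hcc : Continuous c := (continuous_const.add hcf1).mul hcB1
  have hch : Continuous h :=
    (((hcf2.sub continuous_const).mul hcB2).mul
      (continuous_const.sub (hcc.mul (continuous_zz m h0 r₂)))).sub hcc
  obtain ⟨k0, hk0, hk0'⟩ := exists_ball m h2 hβ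
  have hB1pos : ∀ k, 0 < B1 k := fun k => by
    simp only [hB1]
    have := V_pos m (k * r₁)
    positivity
  have hB2pos : ∀ k, 0 < B2 k := fun k => by
    simp only [hB2]
    have := V_pos m (k * r₂)
    positivity
  have hf1pos : ∀ k, 0 < k → 0 < f1 k := fun k hk => mul_pos hk (F_pos m (mul_pos hk h0))
  have hcpos : ∀ k, 0 < k → 0 < c k := fun k hk => by
    simp only [hc]
    have := hf1pos k hk
    have := hB1pos k
    positivity
  have hneg : h k0 < 0 := by
    simp only [hh]
    have : f2 k0 = β := hk0'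
    rw [this, sub_self, zero_mul, zero_mul, zero_sub]
    have := hcpos k0 hk0
    linarith
  -- large k
  set t : ℝ := r₂ - r₁ with ht
  have ht0 : 0 < t := by rw [ht]; linarith
  obtain ⟨K, hK, hK2⟩ := kF_large m h0 (max (2 * β) (6 / t))
  set k1 : ℝ := max K (k0 + 1) with hk1
  have hk1pos : 0 < k1 := lt_of_lt_of_le hK (le_max_left _ _)
  have hk01 : k0 < k1 := lt_of_lt_of_le (by linarith) (le_max_right _ _)
  have hF1 : max (2 * β) (6 / t) ≤ f1 k1 := hK2 k1 (le_max_left _ _)
  have ha : 2 * β ≤ f1 k1 := (le_max_left _ _).trans hF1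
  have hb : 6 / t ≤ f1 k1 := (le_max_right _ _).trans hF1
  have hpos : 0 < h k1 := by
    have hf1p := hf1pos k1 hk1pos
    have hB1p := hB1pos k1
    have hB2p := hB2pos k1
    have hz := zz_bound m h0 h12 hk1pos
    have hz0 : 0 < zz m r₁ k1 r₂ := by
      have := zz_strictMono m h0 k1 h12
      rwa [zz_self] at this
    have hcz : c k1 * zz m r₁ k1 r₂ ≤ 3 / 4 := by
      simp only [hc]
      calc (β + f1 k1) * B1 k1 * zz m r₁ k1 r₂ = (β + f1 k1) * (B1 k1 * zz m r₁ k1 r₂) := by ring
        _ ≤ (β + f1 k1) * (1 / (2 * f1 k1)) := by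
            gcongr
        _ ≤ 3 / 4 := by
            rw [mul_one_div, div_le_iff₀ (by positivity)]
            linarith
    have hff : f1 k1 ≤ f2 k1 := by
      simp only [hf1, hf2]
      have : F m (k1 * r₁) ≤ F m (k1 * r₂) := (strictMono_F m).monotone (by nlinarith)
      gcongr
    have hBB : B1 k1 * exp (2 * f1 k1 * t) ≤ B2 k1 := by
      have hg := V_growth m hk1pos h12.le
      have e : exp (2 * f1 k1 * t) = exp (f1 k1 * t) ^ 2 := by
        rw [← exp_nat_mul]
        congr 1
        push_cast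
        ring
      rw [e]
      simp only [hB1, hB2]
      calc r₁ ^ m * V m (k1 * r₁) ^ 2 * exp (f1 k1 * t) ^ 2
          = r₁ ^ m * (V m (k1 * r₁) * exp (f1 k1 * t)) ^ 2 := by ring
        _ ≤ r₂ ^ m * V m (k1 * r₂) ^ 2 := by
            have : 0 < V m (k1 * r₁) := V_pos m _
            gcongr
    have hexp : 13 ≤ exp (2 * f1 k1 * t) := by
      have h1 : 12 ≤ 2 * f1 k1 * t := by
        rw [div_le_iff₀ ht0] at hb
        linarith
      have := add_one_le_exp (2 * f1 k1 * t)
      linarith
    have hBB2 : 13 * B1 k1 ≤ B2 k1 := by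
      calc 13 * B1 k1 = B1 k1 * 13 := by ring
        _ ≤ B1 k1 * exp (2 * f1 k1 * t) := by gcongr
        _ ≤ _ := hBB
    simp only [hh]
    have h5 : f1 k1 / 2 * (13 * B1 k1) ≤ (f2 k1 - β) * B2 k1 := by
      have h51 : f1 k1 / 2 ≤ f2 k1 - β := by linarith
      have h52 : 0 ≤ f2 k1 - β := by linarith
      exact mul_le_mul h51 hBB2 (by positivity) h52
    have h6 : 1 / 4 ≤ 1 - c k1 * zz m r₁ k1 r₂ := by linarith
    have h7 : f1 k1 / 2 * (13 * B1 k1) * (1 / 4) ≤
        (f2 k1 - β) * B2 k1 * (1 - c k1 * zz m r₁ k1 r₂) := by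
      have h8 : 0 ≤ (f2 k1 - β) * B2 k1 := le_trans (by positivity) h5
      gcongr
    have h9 : c k1 ≤ 3 / 2 * f1 k1 * B1 k1 := by
      simp only [hc]
      have : β + f1 k1 ≤ 3 / 2 * f1 k1 := by linarith
      gcongr
    have h10 : 0 < f1 k1 * B1 k1 := by positivity
    nlinarith
  obtain ⟨k, hk, hkz⟩ := intermediate_value_Ioo hk01.le hch.continuousOn
    (show (0:ℝ) ∈ Ioo (h k0) (h k1) from ⟨hneg, hpos⟩)
  have hkpos : 0 < k := hk0.trans hk.1
  have hf2k : β < f2 k := by
    have := kF_lt (m := m) h2 hk0.le hk.1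
    rw [hk0'] at this
    exact this
  have hck := hcpos k hkpos
  have hB2k := hB2pos k
  have hroot : (f2 k - β) * B2 k * (1 - c k * zz m r₁ k r₂) = c k := by
    simp only [hh] at hkz
    linarith
  have hD2 : 0 < 1 - c k * zz m r₁ k r₂ := by
    have h1 : 0 < (f2 k - β) * B2 k := mul_pos (by linarith) hB2k
    have h3 : 0 < (f2 k - β) * B2 k * (1 - c k * zz m r₁ k r₂) := by rw [hroot]; exact hck
    exact (mul_pos_iff_of_pos_left h1).1 h3
  -- the solution
  set D : ℝ → ℝ := fun r => 1 - c k * zz m r₁ k r with hD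
  set u : ℝ → ℝ := fun r => V m (k * r) * D r with hu
  set p : ℝ → ℝ := fun r => k * W m (k * r) * D r - c k / ((max r r₁) ^ m * V m (k * r)) with hp
  have hdD : ∀ r, HasDerivAt D (-(c k * zint m r₁ k r)) r := by
    intro r
    exact (((hasDerivAt_zz m h0 k r).const_mul (c k)).const_sub 1)
  have hdu : ∀ r, HasDerivAt u (p r) r := by
    intro r
    refine ((hasDerivAt_Vk m k r).mul (hdD r)).congr_deriv ?_
    simp only [hp]
    unfold zint
    have hV := V_pos m (k * r)
    have h1 : 0 < max r r₁ := lt_max_of_lt_right h0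
    field_simp
    ring
  have hpeq : ∀ r, r₁ < r → p r = k * W m (k * r) * D r - c k / (r ^ m * V m (k * r)) := by
    intro r hr
    simp only [hp]
    rw [max_eq_left hr.le]
  have hcD : Continuous D := continuous_iff_continuousAt.2 fun r => (hdD r).continuousAt
  have hcVk : Continuous (fun r => V m (k * r)) :=
    (continuous_V m).comp (continuous_const.mul continuous_id)
  have hcWk : Continuous (fun r => W m (k * r)) :=
    (continuous_W m).comp (continuous_const.mul continuous_id)
  have hcp : Continuous p := by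
    refine ((continuous_const.mul hcWk).mul hcD).sub (Continuous.div continuous_const
      (((continuous_id.max continuous_const).pow m).mul hcVk) (fun r => ?_))
    have hV := V_pos m (k * r)
    have h1 : 0 < max r r₁ := lt_max_of_lt_right h0
    positivity
  refine ⟨k, u, p, hkpos, ?_, ?_, ?_, ?_, ?_, ?_⟩
  · exact fun r _ => hdu r
  · exact hcp.continuousOn
  · intro r hr
    have hr0 : 0 < r := h0.trans hr.1
    have hV := V_pos m (k * r)
    have hrm : r ^ m * V m (k * r) ≠ 0 := by positivity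
    have hq : HasDerivAt (fun r => k * W m (k * r) * D r - c k / (r ^ m * V m (k * r)))
        ((k * (k * W1 m (k * r)) * D r + k * W m (k * r) * (-(c k * zint m r₁ k r))) -
          (0 * (r ^ m * V m (k * r)) - c k * (m * r ^ (m - 1) * V m (k * r)
            + r ^ m * (k * W m (k * r)))) / (r ^ m * V m (k * r)) ^ 2) r := by
      have h1 := ((hasDerivAt_Wk m k r).const_mul k).mul (hdD r)
      have h3 := (hasDerivAt_const r (c k)).div ((hasDerivAt_pow m r).mul (hasDerivAt_Vk m k r)) hrm
      exact h1.sub h3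
    have hev : p =ᶠ[𝓝 r] (fun r => k * W m (k * r) * D r - c k / (r ^ m * V m (k * r))) := by
      filter_upwards [lt_mem_nhds hr.1] with x hx
      exact hpeq x hx
    refine (hq.congr_of_eventuallyEq hev).congr_deriv ?_
    rw [W1_eq m (mul_pos hkpos hr0).ne', hpeq r hr.1]
    simp only [hu]
    unfold zint
    rw [max_eq_left hr.1.le]
    rcases m with _ | m
    · simp only [Nat.cast_zero, zero_mul, zero_div, pow_zero, sub_zero, zero_add, one_mul]
      field_simp
      ring
    · simp only [Nat.add_sub_cancel]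
      push_cast
      field_simp
      ring
  · intro r hr
    have hV := V_pos m (k * r)
    have h1 : zz m r₁ k r ≤ zz m r₁ k r₂ := (zz_strictMono m h0 k).monotone hr.2
    have h3 : 0 < D r := by
      simp only [hD]
      have : c k * zz m r₁ k r ≤ c k * zz m r₁ k r₂ := by gcongr
      linarith
    simp only [hu]
    positivity
  · have hV := V_pos m (k * r₁)
    have e1 : D r₁ = 1 := by simp [hD, zz_self]
    have hW : k * W m (k * r₁) = f1 k * V m (k * r₁) := by
      simp only [hf1]
      unfold F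
      field_simp
    have : p r₁ + β * u r₁ = 0 := by
      simp only [hp, hu]
      rw [e1, max_self, hW]
      simp only [hc, hB1]
      field_simp
      ring
    rw [this, mul_zero]
  · have hV := V_pos m (k * r₂)
    have hW : k * W m (k * r₂) = f2 k * V m (k * r₂) := by
      simp only [hf2]
      unfold F
      field_simp
    simp only [hp, hu]
    rw [max_eq_left h12.le, hW]
    have e : c k = (f2 k - β) * (r₂ ^ m * V m (k * r₂) ^ 2) * D r₂ := hroot.symm
    have e2 : c k / (r₂ ^ m * V m (k * r₂)) = (f2 k - β) * V m (k * r₂) * D r₂ := by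
      rw [e]
      field_simp
    rw [e2]
    ring

end Pool.Agent.H.MP_1b807b_an
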