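import Pool.Agent.H.MP_1b807b_an.Min

set_option autoImplicit false

namespace Pool.Agent.H.MP_1b807b_an

open Real Filter Topology Set MeasureTheory intervalIntegral

/-- shells with a small hole are strictly worse than the ball, locally uniformly in `β` -/
theorem small_hole {m : ℕ} (_hm : 1 ≤ m) {R K b0 : ℝ} (hR : 0 < R) (hK : 0 < K) (hb0 : 0 < b0) :
    ∃ ε : ℝ, 0 < ε ∧ ∀ β kb, b0 ≤ β → 0 < kb → kb ≤ K → kb * F m (kb * R) = β →
      ∀ r₁ r₂, 0 < r₁ → r₁ < ε → r₁ < r₂ → r₂ ^ (m + 1) - r₁ ^ (m + 1) = R ^ (m + 1) →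
      ∀ k u p, 0 < k → GS m r₁ r₂ β k u p → kb ^ 2 < k ^ 2 := by
  set A : ℝ := (2 * R) ^ m * exp (K * (2 * R)) ^ 2 * K ^ 2 with hA
  have hA0 : 0 < A := by rw [hA]; positivity
  refine ⟨min R (b0 * ((m + 1) * R ^ m) / A), by positivity, ?_⟩
  intro β kb hbβ hkb hkK hb r₁ r₂ h1 h1ε h12 hvol k u p hk g
  have h1R : r₁ < R := lt_of_lt_of_le h1ε (min_le_left _ _)
  have h1A : r₁ < b0 * ((m + 1) * R ^ m) / A := lt_of_lt_of_le h1ε (min_le_right _ _)
  rw [lt_div_iff₀ hA0] at h1A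
  have hβ : 0 < β := lt_of_lt_of_le hb0 hbβ
  have h2 : 0 < r₂ := h1.trans h12
  have hRn : 0 < R ^ (m + 1) := by positivity
  have hRr : R < r₂ := by
    have : R ^ (m + 1) < r₂ ^ (m + 1) := by
      have : 0 < r₁ ^ (m + 1) := by positivity
      linarith
    exact lt_of_pow_lt_pow_left₀ _ h2.le this
  have hr2R : r₂ ≤ 2 * R := by
    have hr1n : r₁ ^ (m + 1) ≤ R ^ (m + 1) := by gcongr
    have hr2n : r₂ ^ (m + 1) ≤ 2 * R ^ (m + 1) := by linarith
    have h3 : r₂ ^ (m + 1) ≤ (2 * R) ^ (m + 1) := by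
      refine hr2n.trans ?_
      rw [mul_pow]
      have : (2:ℝ) ≤ 2 ^ (m + 1) := by
        calc (2:ℝ) = 2 ^ 1 := by norm_num
          _ ≤ 2 ^ (m + 1) := by gcongr; norm_num; omega
      gcongr
    exact le_of_pow_le_pow_left₀ (by omega) (by positivity) h3
  set f2 : ℝ := kb * F m (kb * r₂) with hf2
  set f1 : ℝ := kb * F m (kb * r₁) with hf1
  have hf1p : 0 < f1 := mul_pos hkb (F_pos m (mul_pos hkb h1))
  have hdf : ∀ r : ℝ, HasDerivAt (fun r => kb * F m (kb * r)) (kb ^ 2 * F1 m (kb * r)) r := by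
    intro r
    have := HasDerivAt.comp (h₂ := F m) (h := fun x : ℝ => kb * x) r (hasDerivAt_F m (kb * r))
      ((hasDerivAt_id r).const_mul kb)
    refine (this.const_mul kb).congr_deriv ?_
    ring
  have hfb : f2 - β ≤ kb ^ 2 * (r₂ - R) := by
    have h3 := Convex.image_sub_le_mul_sub_of_deriv_le (convex_Icc R r₂)
      (f := fun r => kb * F m (kb * r)) (C := kb ^ 2)
      (fun r _ => (hdf r).continuousAt.continuousWithinAt)
      (fun r _ => (hdf r).differentiableAt.differentiableWithinAt)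
      (fun r hr => by
        rw [interior_Icc] at hr
        have hr0 : 0 < r := hR.trans hr.1
        rw [(hdf r).deriv, F1_eq m (mul_pos hkb hr0).ne']
        have h6 : 0 < F m (kb * r) := F_pos m (mul_pos hkb hr0)
        have h7 : 0 ≤ m / (kb * r) * F m (kb * r) := by positivity
        have h8 : 0 ≤ kb ^ 2 * (F m (kb * r) ^ 2 + m / (kb * r) * F m (kb * r)) := by positivity
        linarith)
      R (left_mem_Icc.2 hRr.le) r₂ (right_mem_Icc.2 hRr.le) hRr.le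
    simp only [hb] at h3
    exact h3
  have hrr : (m + 1) * R ^ m * (r₂ - R) ≤ r₁ ^ (m + 1) := by
    have h3 := one_add_mul_le_pow (a := (r₂ - R) / R) (by
      have : 0 ≤ (r₂ - R) / R := div_nonneg (by linarith) hR.le
      linarith) (m + 1)
    have h4 : 1 + (r₂ - R) / R = r₂ / R := by field_simp; ring
    rw [h4, div_pow, le_div_iff₀ hRn] at h3
    push_cast at h3
    have h5 : (1 + ((m:ℝ) + 1) * ((r₂ - R) / R)) * R ^ (m + 1) =
        R ^ (m + 1) + (m + 1) * R ^ m * (r₂ - R) := by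
      rw [pow_succ]
      field_simp
    rw [h5] at h3
    linarith
  -- test function inequality
  have hcVk : Continuous (fun r => V m (kb * r)) :=
    (continuous_V m).comp (continuous_const.mul continuous_id)
  have hcWk : Continuous (fun r => W m (kb * r)) :=
    (continuous_W m).comp (continuous_const.mul continuous_id)
  have ht := g.test h1.le h12 (w := fun r => V m (kb * r)) (w1 := fun r => kb * W m (kb * r))
    (fun r _ => hasDerivAt_Vk m kb r) (continuous_const.mul hcWk).continuousOn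
  have hFTC := integral_eq_sub_of_hasDerivAt_of_le h12.le
    (f := fun r => r ^ m * (kb * W m (kb * r) * V m (kb * r)))
    (f' := fun r => r ^ m * (kb * W m (kb * r)) ^ 2 + kb ^ 2 * (r ^ m * V m (kb * r) ^ 2))
    (by fun_prop) (fun r hr => by
      have hr0 : 0 < r := h1.trans hr.1
      have h3 := (hasDerivAt_pow m r).mul (((hasDerivAt_Wk m kb r).const_mul kb).mul
        (hasDerivAt_Vk m kb r))
      refine h3.congr_deriv ?_
      rw [W1_eq m (mul_pos hkb hr0).ne']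
      simp only [Pi.mul_apply]
      rcases m with _ | m
      · simp
        ring
      · simp only [Nat.add_sub_cancel]
        push_cast
        field_simp
        ring) (by
      refine ContinuousOn.intervalIntegrable ?_
      fun_prop)
  have hI1 : IntervalIntegrable (fun r => r ^ m * (kb * W m (kb * r)) ^ 2) volume r₁ r₂ :=
    Continuous.intervalIntegrable (by fun_prop) _ _
  have hI2 : IntervalIntegrable (fun r => kb ^ 2 * (r ^ m * V m (kb * r) ^ 2)) volume r₁ r₂ :=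
    Continuous.intervalIntegrable (by fun_prop) _ _
  rw [intervalIntegral.integral_add hI1 hI2, intervalIntegral.integral_const_mul] at hFTC
  have e2 : kb * W m (kb * r₂) * V m (kb * r₂) = f2 * V m (kb * r₂) ^ 2 := by
    have := V_pos m (kb * r₂)
    rw [hf2]
    unfold F
    field_simp
  have e1 : kb * W m (kb * r₁) * V m (kb * r₁) = f1 * V m (kb * r₁) ^ 2 := by
    have := V_pos m (kb * r₁)
    rw [hf1]
    unfold F
    field_simp
  rw [e1, e2] at hFTC
  set M : ℝ := ∫ r in r₁..r₂, r ^ m * V m (kb * r) ^ 2 with hM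
  have hM0 : 0 < M := by
    rw [hM]
    refine intervalIntegral.intervalIntegral_pos_of_pos_on
      (Continuous.intervalIntegrable (by fun_prop) _ _) ?_ h12
    intro r hr
    have hr0 : 0 < r := h1.trans hr.1
    have := V_pos m (kb * r)
    positivity
  set V1 := V m (kb * r₁) with hV1
  set V2 := V m (kb * r₂) with hV2
  have hV1' : 1 ≤ V1 := one_le_V m _
  have hV2p : 0 < V2 := V_pos m _
  have hV2e : V2 ≤ exp (K * (2 * R)) := by
    refine (V_le_exp m (t := kb * r₂) (by positivity)).trans ?_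
    gcongr
  -- main estimate
  have hmain : 0 < β * (r₁ ^ m * V1 ^ 2 + r₂ ^ m * V2 ^ 2) - (r₂ ^ m * (f2 * V2 ^ 2) -
      r₁ ^ m * (f1 * V1 ^ 2)) := by
    have a1 : β * r₁ ^ m ≤ β * (r₁ ^ m * V1 ^ 2) := by
      have : (1:ℝ) ≤ V1 ^ 2 := one_le_pow₀ hV1'
      have h5 : r₁ ^ m * 1 ≤ r₁ ^ m * V1 ^ 2 := by gcongr
      have h6 : β * (r₁ ^ m * 1) ≤ β * (r₁ ^ m * V1 ^ 2) := by gcongr
      linarith
    have a2 : 0 ≤ r₁ ^ m * (f1 * V1 ^ 2) := by positivity
    have a3 : r₂ ^ m * V2 ^ 2 * (f2 - β) ≤ r₂ ^ m * V2 ^ 2 * (kb ^ 2 * (r₂ - R)) := by gcongr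
    have a4 : r₂ ^ m * V2 ^ 2 * kb ^ 2 ≤ A := by
      rw [hA]
      gcongr
    have a5 : (m + 1) * R ^ m * (r₂ ^ m * V2 ^ 2 * (kb ^ 2 * (r₂ - R))) ≤ A * r₁ ^ (m + 1) := by
      calc (m + 1) * R ^ m * (r₂ ^ m * V2 ^ 2 * (kb ^ 2 * (r₂ - R)))
          = (r₂ ^ m * V2 ^ 2 * kb ^ 2) * ((m + 1) * R ^ m * (r₂ - R)) := by ring
        _ ≤ A * r₁ ^ (m + 1) := by
          have : 0 ≤ r₂ - R := by linarith
          gcongr
    have a6 : A * r₁ ^ (m + 1) < (m + 1) * R ^ m * (β * r₁ ^ m) := by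
      have h5 : r₁ * A < β * ((m + 1) * R ^ m) := by
        refine h1A.trans_le ?_
        gcongr
      calc A * r₁ ^ (m + 1) = (r₁ * A) * r₁ ^ m := by ring
        _ < (β * ((m + 1) * R ^ m)) * r₁ ^ m := by gcongr
        _ = (m + 1) * R ^ m * (β * r₁ ^ m) := by ring
    have a7 : r₂ ^ m * V2 ^ 2 * (kb ^ 2 * (r₂ - R)) < β * r₁ ^ m := by
      have h5 : (m + 1) * R ^ m * (r₂ ^ m * V2 ^ 2 * (kb ^ 2 * (r₂ - R))) <
          (m + 1) * R ^ m * (β * r₁ ^ m) := lt_of_le_of_lt a5 a6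
      exact lt_of_mul_lt_mul_left h5 (by positivity)
    have e : β * (r₁ ^ m * V1 ^ 2 + r₂ ^ m * V2 ^ 2) - (r₂ ^ m * (f2 * V2 ^ 2) -
      r₁ ^ m * (f1 * V1 ^ 2)) = β * (r₁ ^ m * V1 ^ 2) + r₁ ^ m * (f1 * V1 ^ 2) -
      r₂ ^ m * V2 ^ 2 * (f2 - β) := by ring
    rw [e]
    linarith
  have h9 : kb ^ 2 * M < k ^ 2 * M := by linarith
  exact lt_of_mul_lt_mul_right h9 hM0.le

/-- there is exactly one `kb > 0` for the ball -/
lemma ball_unique (m : ℕ) {R a b : ℝ} (hR : 0 < R) (ha : 0 < a) (hb : 0 < b)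
    (h : a * F m (a * R) = b * F m (b * R)) : a = b := by
  rcases lt_trichotomy a b with h1 | h1 | h1
  · have := kF_lt (m := m) hR ha.le h1
    linarith
  · exact h1
  · have := kF_lt (m := m) hR hb.le h1
    linarith

lemma ball_lt (m : ℕ) {R a b : ℝ} (hR : 0 < R) (_ha : 0 < a)
    (h : a * F m (a * R) < b * F m (b * R)) (hb : 0 < b) : a < b := by
  by_contra hc
  push Not at hc
  rcases eq_or_lt_of_le hc with h1 | h1
  · rw [h1] at h; exact lt_irrefl _ h
  · have := kF_lt (m := m) hR hb.le h1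
    linarith

/-- the transition theorem in terms of the radial ground states -/
theorem transition1d {m : ℕ} (hm : 1 ≤ m) {R : ℝ} (hR : 0 < R) : ∃ βs : ℝ, 0 < βs ∧
    (∀ β, 0 < β → β < βs → ∀ x, 0 < x → kk m R β 0 ^ 2 < kk m R β x ^ 2) ∧
    (∀ β, βs < β → ∃ x, 0 < x ∧ kk m R β x ^ 2 < kk m R β 0 ^ 2 ∧
      ∀ y, 0 ≤ y → kk m R β x ^ 2 ≤ kk m R β y ^ 2) ∧
    (∀ y, 0 ≤ y → kk m R βs 0 ^ 2 ≤ kk m R βs y ^ 2) ∧
    (∃ x, 0 < x ∧ kk m R βs x ^ 2 = kk m R βs 0 ^ 2) := by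
  have hball : ∀ β, 0 < β → 0 < kk m R β 0 ∧ kk m R β 0 * F m (kk m R β 0 * R) = β := by
    intro β hβ
    obtain ⟨k, hk, hkβ⟩ := exists_ball m hR hβ
    have h1 := (kk_spec hm hR hβ le_rfl).1
    have h2 := kk_unique hm hR hβ le_rfl (l := k) ⟨fun r => V m (k * r), fun r => k * W m (k * r), by
      rw [outer_zero m hR, ← hkβ]
      exact GS_ball hm hk⟩
    have h3 : kk m R β 0 = k := (pow_left_inj₀ h1.le hk.le two_ne_zero).1 h2
    rw [h3]
    exact ⟨hk, hkβ⟩
  have hvol : ∀ x, 0 ≤ x → outer m R x ^ (m + 1) - x ^ (m + 1) = R ^ (m + 1) := by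
    intro x hx
    rw [outer_pow m hR hx]; ring
  set S : Set ℝ := {β | 0 < β ∧ ∃ x, 0 < x ∧ kk m R β x ^ 2 ≤ kk m R β 0 ^ 2} with hS
  -- crossing in terms of kk
  have hcross : ∀ β β' x, 0 < β → β < β' → 0 < x → kk m R β x ^ 2 ≤ kk m R β 0 ^ 2 →
      kk m R β' x ^ 2 < kk m R β' 0 ^ 2 := by
    intro β β' x hβ hββ hx hle
    have hβ' := hβ.trans hββ
    obtain ⟨hk, u, p, g⟩ := kk_spec hm hR hβ hx.le
    obtain ⟨hk', u', p', g'⟩ := kk_spec hm hR hβ' hx.le
    obtain ⟨hb1, hb2⟩ := hball β hβ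
    obtain ⟨hb1', hb2'⟩ := hball β' hβ'
    exact crossing2 hm hx (lt_outer m hR hx.le) hR hβ hββ hk hb1 hb1' g g' hb2 hb2'
      (le_of_sq_le_sq hle hb1.le)
  have hSne : S.Nonempty := by
    obtain ⟨β, r₁, r₂, hβ, h1, h12, hv, H⟩ := large_beta hm hR
    refine ⟨β, hβ, r₁, h1, ?_⟩
    have e := outer_unique m hR h1.le (h1.trans h12) hv
    obtain ⟨hk, u, p, g⟩ := kk_spec hm hR hβ h1.le
    rw [← e] at g
    obtain ⟨hb1, hb2⟩ := hball β hβ
    exact (H _ u p hk g _ hb1 hb2).le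
  obtain ⟨β0, hβ0, hsmall⟩ := small_beta hm hR
  have hSlow : ∀ β ∈ S, β0 ≤ β := by
    intro β hβS
    by_contra hc
    push Not at hc
    obtain ⟨hβ, x, hx, hle⟩ := hβS
    obtain ⟨hk, u, p, g⟩ := kk_spec hm hR hβ hx.le
    obtain ⟨hb1, hb2⟩ := hball β hβ
    have := hsmall β hβ hc.le x (outer m R x) hx (lt_outer m hR hx.le) (hvol x hx.le) _ u p hk g _
      hb1 hb2
    linarith
  have hSbdd : BddBelow S := ⟨β0, hSlow⟩
  set βs := sInf S with hβs
  have hβs0 : 0 < βs := lt_of_lt_of_le hβ0 (le_csInf hSne hSlow)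
  -- beyond the threshold
  have hbeyond : ∀ β, βs < β → ∃ x, 0 < x ∧ kk m R β x ^ 2 < kk m R β 0 ^ 2 ∧
      ∀ y, 0 ≤ y → kk m R β x ^ 2 ≤ kk m R β y ^ 2 := by
    intro β hβ
    have hβ0 := hβs0.trans hβ
    obtain ⟨β', hβ'S, hβ'⟩ := exists_lt_of_csInf_lt hSne hβ
    obtain ⟨hβ'0, z, hz, hle⟩ := hβ'S
    have h1 := hcross β' β z hβ'0 hβ' hz hle
    obtain ⟨x, hx, hmin⟩ := exists_min hm hR hβ0
    have h2 := hmin z hz.le
    have h3 : kk m R β x ^ 2 < kk m R β 0 ^ 2 := lt_of_le_of_lt h2 h1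
    refine ⟨x, ?_, h3, hmin⟩
    rcases eq_or_lt_of_le hx with h | h
    · rw [← h] at h3
      exact absurd h3 (lt_irrefl _)
    · exact h
  -- at the threshold the ball is optimal
  have hat : ∀ y, 0 ≤ y → kk m R βs 0 ^ 2 ≤ kk m R βs y ^ 2 := by
    intro y hy
    rcases eq_or_lt_of_le hy with h | h
    · rw [← h]
    · by_contra hc
      push Not at hc
      obtain ⟨hk, u, p, g⟩ := kk_spec hm hR hβs0 hy
      obtain ⟨hb1, hb2⟩ := hball βs hβs0
      have hlt : kk m R βs y < kk m R βs 0 := lt_of_pow_lt_pow_left₀ 2 hb1.le hc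
      set k' := (kk m R βs y + kk m R βs 0) / 2 with hk'
      have hk'1 : kk m R βs y < k' := by rw [hk']; linarith
      have hk'2 : k' < kk m R βs 0 := by rw [hk']; linarith
      have hk'0 : 0 < k' := hk.trans hk'1
      set β' := k' * F m (k' * R) with hβ'
      have hβ'0 : 0 < β' := mul_pos hk'0 (F_pos m (mul_pos hk'0 hR))
      have hβ'lt : β' < βs := by
        rw [hβ', ← hb2]
        exact kF_lt hR hk'0.le hk'2
      obtain ⟨hb1', hb2'⟩ := hball β' hβ'0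
      have e : kk m R β' 0 = k' := ball_unique m hR hb1' hk'0 (by rw [hb2'])
      obtain ⟨hkk, u', p', g'⟩ := kk_spec hm hR hβ'0 hy
      have hmono := g'.mono_beta g hy (lt_outer m hR hy) hβ'lt.le
      have hmem : β' ∈ S := by
        refine ⟨hβ'0, y, h, ?_⟩
        rw [e]
        refine hmono.trans ?_
        gcongr
      have := csInf_le hSbdd hmem
      linarith
  refine ⟨βs, hβs0, ?_, hbeyond, hat, ?_⟩
  · intro β hβ hlt x hx
    by_contra hc
    push Not at hc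
    have := csInf_le hSbdd (show β ∈ S from ⟨hβ, x, hx, hc⟩)
    linarith
  -- a tie at the threshold
  obtain ⟨hbs1, hbs2⟩ := hball βs hβs0
  obtain ⟨hbt1, hbt2⟩ := hball (βs + 1) (by linarith)
  set K := kk m R (βs + 1) 0 with hK
  obtain ⟨ε, hε, hhole⟩ := small_hole hm hR hbt1 hβs0
  -- upper bound for the optimal inner radii
  set X : ℝ := max 1 (K ^ 2 * R ^ (m + 1) / ((m + 1) * βs)) with hX
  have hkey : ∀ β, βs < β → β < βs + 1 → ∃ x, ε ≤ x ∧ x ≤ X ∧
      kk m R βs x ^ 2 ≤ kk m R β 0 ^ 2 := by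
    intro β hβ1 hβ2
    have hβ0 := hβs0.trans hβ1
    obtain ⟨x, hx, hlt, _⟩ := hbeyond β hβ1
    obtain ⟨hb1, hb2⟩ := hball β hβ0
    have hkK : kk m R β 0 < K := ball_lt m hR hb1 (by rw [hb2, hbt2]; exact hβ2) hbt1
    obtain ⟨hk, u, p, g⟩ := kk_spec hm hR hβ0 hx.le
    obtain ⟨hks, us, ps, gs⟩ := kk_spec hm hR hβs0 hx.le
    refine ⟨x, ?_, ?_, ?_⟩
    · by_contra hc
      push Not at hc
      have := hhole β _ hβ1.le hb1 hkK.le hb2 x _ hx hc (lt_outer m hR hx.le) (hvol x hx.le) _ u p hk g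
      linarith
    · rcases le_or_gt x 1 with h | h
      · exact h.trans (le_max_left _ _)
      · refine le_trans ?_ (le_max_right _ _)
        have h1 := kk_coer hm hR hβ0 h.le
        rw [le_div_iff₀ (by positivity)]
        have h2 : kk m R β x ^ 2 ≤ K ^ 2 := by
          refine hlt.le.trans ?_
          gcongr
        calc x * ((m + 1) * βs) = (m + 1) * βs * x := by ring
          _ ≤ (m + 1) * β * x := by
            have := hβ1.le
            gcongr
          _ ≤ kk m R β x ^ 2 * R ^ (m + 1) := h1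
          _ ≤ K ^ 2 * R ^ (m + 1) := by gcongr
    · exact (gs.mono_beta g hx.le (lt_outer m hR hx.le) hβ1.le).trans hlt.le
  have hne : (Icc ε X).Nonempty := by
    obtain ⟨x, h1, h2, _⟩ := hkey (βs + 1 / 2) (by linarith) (by linarith)
    exact ⟨x, h1, h2⟩
  obtain ⟨x, hx, hmin⟩ := LowerSemicontinuousOn.exists_isMinOn
    (s := Icc ε X) hne isCompact_Icc
    ((kk_lsc hm hR hβs0).mono (fun y hy => mem_Ici.2 (hε.le.trans hy.1)))
  have hx0 : 0 < x := lt_of_lt_of_le hε hx.1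
  refine ⟨x, hx0, le_antisymm ?_ (hat x hx0.le)⟩
  by_contra hc
  push Not at hc
  -- choose β slightly above βs with ball value below
  have hlt : kk m R βs 0 < kk m R βs x := lt_of_pow_lt_pow_left₀ 2 (kk_spec hm hR hβs0 hx0.le).1.le hc
  set k' := min ((kk m R βs x + kk m R βs 0) / 2) ((K + kk m R βs 0) / 2) with hk'
  have hKs : kk m R βs 0 < K := ball_lt m hR hbs1 (by rw [hbs2, hbt2]; linarith) hbt1
  have hk'1 : kk m R βs 0 < k' := by rw [hk']; exact lt_min (by linarith) (by linarith)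
  have hk'2 : k' < kk m R βs x := by
    rw [hk']; exact lt_of_le_of_lt (min_le_left _ _) (by linarith)
  have hk'3 : k' < K := by
    rw [hk']; exact lt_of_le_of_lt (min_le_right _ _) (by linarith)
  have hk'0 : 0 < k' := hbs1.trans hk'1
  set β' := k' * F m (k' * R) with hβ'
  have hβ'1 : βs < β' := by rw [hβ', ← hbs2]; exact kF_lt hR hbs1.le hk'1
  have hβ'2 : β' < βs + 1 := by rw [hβ', ← hbt2]; exact kF_lt hR hk'0.le hk'3
  obtain ⟨hb1', hb2'⟩ := hball β' (hβs0.trans hβ'1)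
  have e : kk m R β' 0 = k' := ball_unique m hR hb1' hk'0 (by rw [hb2'])
  obtain ⟨z, hz1, hz2, hz3⟩ := hkey β' hβ'1 hβ'2
  have h5 : kk m R βs x ^ 2 ≤ kk m R βs z ^ 2 := hmin (mem_Icc.2 ⟨hz1, hz2⟩)
  rw [e] at hz3
  have h6 : k' ^ 2 < kk m R βs x ^ 2 := by gcongr
  linarith

end Pool.Agent.H.MP_1b807b_an
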