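import Pool.Agent.H.MP_1b807b_an.Bes

set_option autoImplicit false

namespace Pool.Agent.H.MP_1b807b_an

open Real Filter Topology Set MeasureTheory intervalIntegral

/-- one-dimensional Picone inequality -/
lemma picone_le {m : ℕ} {a b κ : ℝ} (h0 : 0 ≤ a) (hab : a ≤ b) {G G1 w w1 : ℝ → ℝ}
    (hG : ContinuousOn G (Icc a b)) (hG1 : ∀ r ∈ Ioo a b, HasDerivAt G (G1 r) r)
    (hR : ∀ r ∈ Ioo a b, G1 r + G r ^ 2 + m / r * G r ≤ κ)
    (hw : ∀ r ∈ Icc a b, HasDerivAt w (w1 r) r) (hw1 : ContinuousOn w1 (Icc a b)) :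
    b ^ m * G b * w b ^ 2 - a ^ m * G a * w a ^ 2 ≤
      ∫ r in a..b, r ^ m * (w1 r ^ 2 + κ * w r ^ 2) := by
  have hwc : ContinuousOn w (Icc a b) := fun r hr => (hw r hr).continuousAt.continuousWithinAt
  have hφ : ContinuousOn (fun r => r ^ m * (w1 r ^ 2 + κ * w r ^ 2)) (Icc a b) := by fun_prop
  refine sub_le_integral_of_hasDeriv_right_of_le hab (g := fun r => r ^ m * G r * w r ^ 2)
    (g' := fun r => (m * r ^ (m - 1) * G r + r ^ m * G1 r) * w r ^ 2
      + r ^ m * G r * (2 * w r * w1 r)) ?_ ?_ ?_ ?_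
  · fun_prop
  · intro r hr
    have h1 := ((hasDerivAt_pow m r).mul (hG1 r hr)).mul ((hw r (Ioo_subset_Icc_self hr)).pow 2)
    refine (h1.congr_deriv ?_).hasDerivWithinAt
    simp only [Pi.mul_apply, Pi.pow_apply]
    push_cast
    ring
  · exact hφ.integrableOn_Icc
  · intro r hr
    have hr0 : 0 < r := lt_of_le_of_lt h0 hr.1
    have hR' := hR r hr
    have hpow : (m : ℝ) * r ^ (m - 1) = m / r * r ^ m := by
      rcases m with _ | m
      · simp
      · simp only [Nat.add_sub_cancel]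
        field_simp
        ring
    rw [hpow]
    have hrm : 0 < r ^ m := by positivity
    have key : r ^ m * (w1 r ^ 2 + κ * w r ^ 2) - ((m / r * r ^ m * G r + r ^ m * G1 r) * w r ^ 2
      + r ^ m * G r * (2 * w r * w1 r)) =
      r ^ m * ((w1 r - G r * w r) ^ 2 + (κ - (G1 r + G r ^ 2 + m / r * G r)) * w r ^ 2) := by ring
    have h2 : 0 ≤ r ^ m * ((w1 r - G r * w r) ^ 2
        + (κ - (G1 r + G r ^ 2 + m / r * G r)) * w r ^ 2) := by
      have : 0 ≤ κ - (G1 r + G r ^ 2 + m / r * G r) := by linarith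
      positivity
    linarith

/-- strict version: the Riccati inequality is strict by `δ` on a subinterval where `w ≠ 0` -/
lemma picone_lt {m : ℕ} {a b κ c d δ : ℝ} (h0 : 0 ≤ a) (hac : a ≤ c) (hcd : c < d) (hdb : d ≤ b)
    (hδ : 0 < δ) {G G1 w w1 : ℝ → ℝ}
    (hG : ContinuousOn G (Icc a b)) (hG1 : ∀ r ∈ Ioo a b, HasDerivAt G (G1 r) r)
    (hR : ∀ r ∈ Ioo a b, G1 r + G r ^ 2 + m / r * G r ≤ κ)
    (hR2 : ∀ r ∈ Ioo c d, G1 r + G r ^ 2 + m / r * G r ≤ κ - δ)
    (hw : ∀ r ∈ Icc a b, HasDerivAt w (w1 r) r) (hw1 : ContinuousOn w1 (Icc a b))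
    (hwp : ∀ r ∈ Icc a b, w r ≠ 0) :
    b ^ m * G b * w b ^ 2 - a ^ m * G a * w a ^ 2 <
      ∫ r in a..b, r ^ m * (w1 r ^ 2 + κ * w r ^ 2) := by
  have hwc : ContinuousOn w (Icc a b) := fun r hr => (hw r hr).continuousAt.continuousWithinAt
  have sub1 : Icc a c ⊆ Icc a b := Icc_subset_Icc le_rfl (hcd.le.trans hdb)
  have sub2 : Icc c d ⊆ Icc a b := Icc_subset_Icc hac hdb
  have sub3 : Icc d b ⊆ Icc a b := Icc_subset_Icc (hac.trans hcd.le) le_rfl
  have so1 : Ioo a c ⊆ Ioo a b := Ioo_subset_Ioo le_rfl (hcd.le.trans hdb)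
  have so2 : Ioo c d ⊆ Ioo a b := Ioo_subset_Ioo hac hdb
  have so3 : Ioo d b ⊆ Ioo a b := Ioo_subset_Ioo (hac.trans hcd.le) le_rfl
  have i1 := picone_le (m := m) (κ := κ) h0 hac (hG.mono sub1) (fun r hr => hG1 r (so1 hr))
    (fun r hr => hR r (so1 hr)) (fun r hr => hw r (sub1 hr)) (hw1.mono sub1)
  have i2 := picone_le (m := m) (κ := κ - δ) (h0.trans hac) hcd.le (hG.mono sub2)
    (fun r hr => hG1 r (so2 hr))
    (fun r hr => hR2 r hr) (fun r hr => hw r (sub2 hr)) (hw1.mono sub2)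
  have i3 := picone_le (m := m) (κ := κ) (h0.trans (hac.trans hcd.le)) hdb (hG.mono sub3)
    (fun r hr => hG1 r (so3 hr))
    (fun r hr => hR r (so3 hr)) (fun r hr => hw r (sub3 hr)) (hw1.mono sub3)
  have hφ : ContinuousOn (fun r => r ^ m * (w1 r ^ 2 + κ * w r ^ 2)) (Icc a b) := by fun_prop
  have hψ : ContinuousOn (fun r => r ^ m * w r ^ 2) (Icc a b) := by fun_prop
  have e2 : ∫ r in c..d, r ^ m * (w1 r ^ 2 + (κ - δ) * w r ^ 2) =
      (∫ r in c..d, r ^ m * (w1 r ^ 2 + κ * w r ^ 2)) - δ * ∫ r in c..d, r ^ m * w r ^ 2 := by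
    rw [← intervalIntegral.integral_const_mul, ← intervalIntegral.integral_sub]
    · congr 1
      ext r
      ring
    · exact ContinuousOn.intervalIntegrable (by rw [uIcc_of_le hcd.le]; exact hφ.mono sub2)
    · exact ContinuousOn.intervalIntegrable
        (by rw [uIcc_of_le hcd.le]; exact (hψ.mono sub2).const_mul δ)
  have hpos : 0 < ∫ r in c..d, r ^ m * w r ^ 2 := by
    refine intervalIntegral.intervalIntegral_pos_of_pos_on ?_ ?_ hcd
    · exact ContinuousOn.intervalIntegrable (by rw [uIcc_of_le hcd.le]; exact hψ.mono sub2)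
    · intro r hr
      have hr0 : 0 < r := lt_of_le_of_lt (h0.trans hac) hr.1
      have := hwp r (sub2 (Ioo_subset_Icc_self hr))
      positivity
  have hII : ∀ x ∈ Icc a b, ∀ y ∈ Icc a b, x ≤ y →
      IntervalIntegrable (fun r => r ^ m * (w1 r ^ 2 + κ * w r ^ 2)) volume x y := by
    intro x hx y hy hxy
    refine ContinuousOn.intervalIntegrable ?_
    rw [uIcc_of_le hxy]
    exact hφ.mono (Icc_subset_Icc hx.1 hy.2)
  have ha : a ∈ Icc a b := ⟨le_rfl, hac.trans (hcd.le.trans hdb)⟩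
  have hb : b ∈ Icc a b := ⟨hac.trans (hcd.le.trans hdb), le_rfl⟩
  have hc : c ∈ Icc a b := ⟨hac, hcd.le.trans hdb⟩
  have hd : d ∈ Icc a b := ⟨hac.trans hcd.le, hdb⟩
  rw [← integral_add_adjacent_intervals (hII a ha c hc hac)
    ((hII c hc d hd hcd.le).trans (hII d hd b hb hdb)),
    ← integral_add_adjacent_intervals (hII c hc d hd hcd.le) (hII d hd b hb hdb)]
  have : 0 < δ * ∫ r in c..d, r ^ m * w r ^ 2 := by positivity
  rw [e2] at i2
  linarith

/-- ground state pair `(u, p = u')` of the radial Robin problem on `[r₁, r₂]`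
with Robin parameter `-β` and eigenvalue `-k²`; here `m = n - 1` -/
structure GS (m : ℕ) (r₁ r₂ β k : ℝ) (u p : ℝ → ℝ) : Prop where
  du : ∀ r ∈ Icc r₁ r₂, HasDerivAt u (p r) r
  cp : ContinuousOn p (Icc r₁ r₂)
  dp : ∀ r ∈ Ioo r₁ r₂, HasDerivAt p (k ^ 2 * u r - m / r * p r) r
  pos : ∀ r ∈ Icc r₁ r₂, 0 < u r
  left : r₁ ^ m * (p r₁ + β * u r₁) = 0
  right : p r₂ = β * u r₂

section GSlemmas

variable {m : ℕ} {r₁ r₂ β k : ℝ} {u p : ℝ → ℝ}

lemma GS.cu (g : GS m r₁ r₂ β k u p) : ContinuousOn u (Icc r₁ r₂) :=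
  fun r hr => (g.du r hr).continuousAt.continuousWithinAt

/-- Picone inequality for a ground state -/
lemma GS.picone (g : GS m r₁ r₂ β k u p) (h0 : 0 ≤ r₁) (h12 : r₁ < r₂) {w w1 : ℝ → ℝ}
    (hw : ∀ r ∈ Icc r₁ r₂, HasDerivAt w (w1 r) r) (hw1 : ContinuousOn w1 (Icc r₁ r₂)) :
    β * (r₁ ^ m * w r₁ ^ 2 + r₂ ^ m * w r₂ ^ 2) ≤
      ∫ r in r₁..r₂, r ^ m * (w1 r ^ 2 + k ^ 2 * w r ^ 2) := by
  have hp := g.pos
  have h := picone_le (m := m) (κ := k ^ 2) (G := fun r => p r / u r)
    (G1 := fun r => ((k ^ 2 * u r - m / r * p r) * u r - p r * p r) / u r ^ 2) h0 h12.le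
    (g.cp.div g.cu (fun r hr => (hp r hr).ne')) (fun r hr =>
      (g.dp r hr).div (g.du r (Ioo_subset_Icc_self hr)) (hp r (Ioo_subset_Icc_self hr)).ne')
    (fun r hr => by
      have hu := hp r (Ioo_subset_Icc_self hr)
      have hr0 : 0 < r := lt_of_le_of_lt h0 hr.1
      apply le_of_eq
      field_simp
      ring) hw hw1
  have h1 : r₁ ^ m * (p r₁ / u r₁) * w r₁ ^ 2 = - (β * (r₁ ^ m * w r₁ ^ 2)) := by
    have hu := hp r₁ (left_mem_Icc.2 h12.le)
    have hl := g.left
    have : r₁ ^ m * p r₁ = - (r₁ ^ m * β * u r₁) := by linarith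
    rw [← mul_div_assoc, this]
    field_simp
  have h2 : r₂ ^ m * (p r₂ / u r₂) * w r₂ ^ 2 = β * (r₂ ^ m * w r₂ ^ 2) := by
    have hu := hp r₂ (right_mem_Icc.2 h12.le)
    rw [g.right]
    field_simp
  simp only [h1, h2] at h
  linarith

/-- energy identity -/
lemma GS.energy (g : GS m r₁ r₂ β k u p) (h0 : 0 ≤ r₁) (h12 : r₁ < r₂) :
    ∫ r in r₁..r₂, r ^ m * (p r ^ 2 + k ^ 2 * u r ^ 2) =
      β * (r₁ ^ m * u r₁ ^ 2 + r₂ ^ m * u r₂ ^ 2) := by
  have hcu := g.cu
  have hcp := g.cp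
  have h := integral_eq_sub_of_hasDerivAt_of_le h12.le (f := fun r => r ^ m * (p r * u r))
    (f' := fun r => r ^ m * (p r ^ 2 + k ^ 2 * u r ^ 2)) (by fun_prop) (fun r hr => by
      have h1 := (hasDerivAt_pow m r).mul ((g.dp r hr).mul (g.du r (Ioo_subset_Icc_self hr)))
      refine h1.congr_deriv ?_
      have hr0 : 0 < r := lt_of_le_of_lt h0 hr.1
      simp only [Pi.mul_apply]
      rcases m with _ | m
      · simp
        ring
      · simp only [Nat.add_sub_cancel]
        push_cast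
        field_simp
        ring) (by
      refine ContinuousOn.intervalIntegrable ?_
      rw [uIcc_of_le h12.le]
      fun_prop)
  rw [h, g.right]
  have hl := g.left
  have : r₁ ^ m * p r₁ = - (r₁ ^ m * β * u r₁) := by linarith
  calc r₂ ^ m * (β * u r₂ * u r₂) - r₁ ^ m * (p r₁ * u r₁)
      = r₂ ^ m * (β * u r₂ * u r₂) - (r₁ ^ m * p r₁) * u r₁ := by ring
    _ = _ := by rw [this]; ring

/-- `k² u² - p²` is positive on the whole interval -/
lemma GS.abs_lt (g : GS m r₁ r₂ β k u p) (h0 : 0 < r₁) (h12 : r₁ < r₂) (hβ : 0 ≤ β) (hβk : β < k) :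
    ∀ r ∈ Icc r₁ r₂, p r ^ 2 < k ^ 2 * u r ^ 2 := by
  have hcu := g.cu
  have hcp := g.cp
  have hmono : MonotoneOn (fun r => k ^ 2 * u r ^ 2 - p r ^ 2) (Icc r₁ r₂) := by
    have hd : ∀ r ∈ Ioo r₁ r₂, HasDerivAt (fun r => k ^ 2 * u r ^ 2 - p r ^ 2)
        (2 * (m / r) * p r ^ 2) r := by
      intro r hr
      have h1 := (((g.du r (Ioo_subset_Icc_self hr)).pow 2).const_mul (k ^ 2)).sub
        ((g.dp r hr).pow 2)
      refine h1.congr_deriv ?_
      push_cast
      ring
    refine monotoneOn_of_deriv_nonneg (convex_Icc _ _) (by fun_prop) ?_ ?_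
    · intro r hr
      rw [interior_Icc] at hr
      exact (hd r hr).differentiableAt.differentiableWithinAt
    · intro r hr
      rw [interior_Icc] at hr
      have hr0 : 0 < r := lt_trans h0 hr.1
      rw [(hd r hr).deriv]
      positivity
  intro r hr
  have h := hmono (left_mem_Icc.2 h12.le) hr hr.1
  have hu := g.pos r₁ (left_mem_Icc.2 h12.le)
  have hp1 : p r₁ = - (β * u r₁) := by
    have := g.left
    have h2 : r₁ ^ m ≠ 0 := by positivity
    have := (mul_eq_zero.1 this).resolve_left h2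
    linarith
  simp only [hp1] at h
  have hk2 : β ^ 2 < k ^ 2 := by nlinarith
  have h3 : 0 < (k ^ 2 - β ^ 2) * u r₁ ^ 2 := by
    have : 0 < k ^ 2 - β ^ 2 := by linarith
    positivity
  nlinarith

/-- comparison with the ball solution: `u'/u < k F(k r)` -/
lemma GS.lt_ball (g : GS m r₁ r₂ β k u p) (h0 : 0 < r₁) (h12 : r₁ < r₂) (hβ : 0 ≤ β) (hk : 0 < k) :
    ∀ r ∈ Icc r₁ r₂, p r < k * F m (k * r) * u r := by
  have hcu := g.cu
  have hcp := g.cp
  have hdV : ∀ r : ℝ, HasDerivAt (fun r => V m (k * r)) (k * W m (k * r)) r := by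
    intro r
    have := HasDerivAt.comp (h₂ := V m) (h := fun x : ℝ => k * x) r (hasDerivAt_V m (k * r))
      ((hasDerivAt_id r).const_mul k)
    refine this.congr_deriv ?_
    ring
  have hdW : ∀ r : ℝ, HasDerivAt (fun r => W m (k * r)) (k * W1 m (k * r)) r := by
    intro r
    have := HasDerivAt.comp (h₂ := W m) (h := fun x : ℝ => k * x) r (hasDerivAt_W m (k * r))
      ((hasDerivAt_id r).const_mul k)
    refine this.congr_deriv ?_
    ring
  have hcV : Continuous fun r => V m (k * r) :=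
    (continuous_V m).comp (continuous_const.mul continuous_id)
  have hcW : Continuous fun r => W m (k * r) :=
    (continuous_W m).comp (continuous_const.mul continuous_id)
  intro r hr
  -- Wronskian
  have hW : r ^ m * (p r * V m (k * r) - u r * (k * W m (k * r))) =
      r₁ ^ m * (p r₁ * V m (k * r₁) - u r₁ * (k * W m (k * r₁))) := by
    rcases eq_or_lt_of_le hr.1 with h | h
    · rw [h]
    · obtain ⟨c, hc, hc2⟩ := exists_hasDerivAt_eq_slope
        (fun r => r ^ m * (p r * V m (k * r) - u r * (k * W m (k * r)))) (fun _ => 0) h (by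
          have : Icc r₁ r ⊆ Icc r₁ r₂ := Icc_subset_Icc le_rfl hr.2
          have h1 := hcu.mono this
          have h2 := hcp.mono this
          exact (continuous_pow m).continuousOn.mul ((h2.mul hcV.continuousOn).sub
            (h1.mul (continuousOn_const.mul hcW.continuousOn)))) (fun x hx => by
          have hx' : x ∈ Ioo r₁ r₂ := ⟨hx.1, hx.2.trans_le hr.2⟩
          have h1 := (hasDerivAt_pow m x).mul (((g.dp x hx').mul (hdV x)).sub
            ((g.du x (Ioo_subset_Icc_self hx')).mul ((hdW x).const_mul k)))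
          refine h1.congr_deriv ?_
          have hx0 : 0 < x := lt_trans h0 hx.1
          rw [W1_eq m (mul_pos hk hx0).ne']
          simp only [Pi.mul_apply, Pi.sub_apply]
          rcases m with _ | m
          · simp only [Nat.cast_zero, zero_mul, zero_div, pow_zero, sub_zero, zero_add, one_mul]
            ring
          · simp only [Nat.add_sub_cancel]
            push_cast
            field_simp
            ring)
      have h3 : r - r₁ ≠ 0 := by linarith
      have h4 := (div_eq_zero_iff.1 hc2.symm).resolve_right h3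
      linarith
  have hu1 := g.pos r₁ (left_mem_Icc.2 h12.le)
  have hp1 : p r₁ = - (β * u r₁) := by
    have := g.left
    have h2 : r₁ ^ m ≠ 0 := by positivity
    have := (mul_eq_zero.1 this).resolve_left h2
    linarith
  have hneg : r₁ ^ m * (p r₁ * V m (k * r₁) - u r₁ * (k * W m (k * r₁))) < 0 := by
    have h2 : 0 < r₁ ^ m := by positivity
    have hV := V_pos m (k * r₁)
    have hWp := W_pos m (mul_pos hk h0)
    have : 0 < u r₁ * (k * W m (k * r₁)) := by positivity
    have h5 : p r₁ * V m (k * r₁) ≤ 0 := by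
      rw [hp1]
      have : 0 ≤ β * u r₁ * V m (k * r₁) := by positivity
      linarith
    exact mul_neg_of_pos_of_neg h2 (by linarith)
  rw [← hW] at hneg
  have hr0 : 0 < r := lt_of_lt_of_le h0 hr.1
  have hrm : 0 < r ^ m := by positivity
  have h6 : p r * V m (k * r) - u r * (k * W m (k * r)) < 0 := by
    by_contra hcon
    push Not at hcon
    have := mul_nonneg hrm.le hcon
    linarith
  have hV := V_pos m (k * r)
  have : W m (k * r) = F m (k * r) * V m (k * r) := by
    unfold F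
    field_simp
  rw [this] at h6
  have h7 : (p r - k * F m (k * r) * u r) * V m (k * r) < 0 := by
    calc (p r - k * F m (k * r) * u r) * V m (k * r)
        = p r * V m (k * r) - u r * (k * (F m (k * r) * V m (k * r))) := by ring
      _ < 0 := h6
  have h8 : p r - k * F m (k * r) * u r < 0 := by
    by_contra hcon
    push Not at hcon
    have := mul_nonneg hcon hV.le
    linarith
  linarith

end GSlemmas

end Pool.Agent.H.MP_1b807b_an
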