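import Pool.Agent.H.MP_1b807b_an.Comp

set_option autoImplicit false

namespace Pool.Agent.H.MP_1b807b_an

open Real Filter Topology Set MeasureTheory intervalIntegral

lemma hasDerivAt_th (q c r : ℝ) :
    HasDerivAt (fun r => q * (sinh (q * (r - c)) / cosh (q * (r - c))))
      (q ^ 2 - (q * (sinh (q * (r - c)) / cosh (q * (r - c)))) ^ 2) r := by
  have h1 : HasDerivAt (fun r : ℝ => q * (r - c)) q r := by
    simpa using ((hasDerivAt_id r).sub_const c).const_mul q
  have hc2 : cosh (q * (r - c)) ≠ 0 := (cosh_pos _).ne'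
  have h2 := ((h1.sinh.div h1.cosh hc2).const_mul q)
  refine h2.congr_deriv ?_
  field_simp

/-- some shell beats the ball for some (large) `β` -/
theorem large_beta {m : ℕ} (hm : 1 ≤ m) {R : ℝ} (hR : 0 < R) :
    ∃ β r₁ r₂ : ℝ, 0 < β ∧ 0 < r₁ ∧ r₁ < r₂ ∧ r₂ ^ (m + 1) - r₁ ^ (m + 1) = R ^ (m + 1) ∧
      ∀ k u p, 0 < k → GS m r₁ r₂ β k u p →
      ∀ kb, 0 < kb → kb * F m (kb * R) = β → k ^ 2 < kb ^ 2 := by
  have hm0 : (0:ℝ) < m := by exact_mod_cast hm
  -- shell r₁ = R, r₂ = 2^{1/(m+1)} R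
  set r₂ : ℝ := (2 * R ^ (m + 1)) ^ ((1:ℝ) / ((m + 1 : ℕ) : ℝ)) with hr2
  have hr2n : r₂ ^ (m + 1) = 2 * R ^ (m + 1) := by
    rw [hr2, one_div]
    exact Real.rpow_inv_natCast_pow (by positivity) (by omega)
  have hr20 : 0 < r₂ := by rw [hr2]; positivity
  have hRr : R < r₂ := by
    have : R ^ (m + 1) < r₂ ^ (m + 1) := by
      rw [hr2n]
      have : 0 < R ^ (m + 1) := by positivity
      linarith
    exact lt_of_pow_lt_pow_left₀ _ hr20.le this
  set t : ℝ := r₂ - R with ht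
  have ht0 : 0 < t := by rw [ht]; linarith
  set c : ℝ := (R + r₂) / 2 with hc
  have hcR : R < c := by rw [hc]; linarith
  have hc0 : 0 < c := hR.trans hcR
  set δ : ℝ := 1 / R - 1 / c with hδ
  have hδ0 : 0 < δ := by
    rw [hδ]
    have := one_div_lt_one_div_of_lt hR hcR
    linarith
  set q : ℝ := 4 / (m * δ * t ^ 2) + 1 with hq
  have hq0 : 0 < q := by rw [hq]; positivity
  set x : ℝ := q * (t / 2) with hx
  have hx0 : 0 < x := by rw [hx]; positivity
  set β : ℝ := q * (sinh x / cosh x) with hβ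
  have hsx : x ≤ sinh x := self_le_sinh_iff.2 hx0.le
  have hs0 : 0 < sinh x := lt_of_lt_of_le hx0 hsx
  have hch : 0 < cosh x := cosh_pos x
  have hβ0 : 0 < β := by rw [hβ]; positivity
  have hcs : sinh x < cosh x := sinh_lt_cosh x
  -- q² - β² = q²/cosh² < m β δ
  have hcosh : cosh x ^ 2 = sinh x ^ 2 + 1 := cosh_sq x
  have hqβ : q ^ 2 - β ^ 2 = q ^ 2 / cosh x ^ 2 := by
    rw [hβ]
    field_simp
    rw [hcosh]
    ring
  have hmain : q ^ 2 - β ^ 2 < m * β * δ := by
    rw [hqβ, hβ]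
    have h1 : q < m * δ * (sinh x * cosh x) := by
      have h2 : x ^ 2 ≤ sinh x * cosh x := by nlinarith
      have h3 : q < m * δ * x ^ 2 := by
        have h4 : 4 / (m * δ * t ^ 2) < q := by rw [hq]; linarith
        rw [div_lt_iff₀ (by positivity)] at h4
        have : m * δ * x ^ 2 = q * (q * (m * δ * t ^ 2)) / 4 := by rw [hx]; ring
        rw [this]
        nlinarith
      calc q < m * δ * x ^ 2 := h3
        _ ≤ m * δ * (sinh x * cosh x) := by gcongr
    rw [div_lt_iff₀ (by positivity)]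
    have : m * (q * (sinh x / cosh x)) * δ * cosh x ^ 2 = q * (m * δ * (sinh x * cosh x)) := by
      field_simp
    rw [this]
    nlinarith
  refine ⟨β, R, r₂, hβ0, hR, hRr, by rw [hr2n]; ring, ?_⟩
  intro k u p hk g kb hkb hb
  have hlow := ball_lower m hR hkb
  rw [hb] at hlow
  have hup : k ^ 2 ≤ q ^ 2 + m * β / c := by
    refine g.le_of_super hR.le hRr
      (G := fun r => q * (sinh (q * (r - c)) / cosh (q * (r - c))))
      (G1 := fun r => q ^ 2 - (q * (sinh (q * (r - c)) / cosh (q * (r - c)))) ^ 2) ?_ ?_ ?_ ?_ ?_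
    · refine Continuous.continuousOn ?_
      refine continuous_const.mul (Continuous.div (by fun_prop) (by fun_prop) (fun r => (cosh_pos _).ne'))
    · intro r hr
      exact hasDerivAt_th q c r
    · intro r hr
      have hr0 : 0 < r := hR.trans hr.1
      have hc2 : 0 < cosh (q * (r - c)) := cosh_pos _
      have h3 : m / r * (q * (sinh (q * (r - c)) / cosh (q * (r - c)))) ≤ m * β / c := by
        rcases le_or_gt r c with h | h
        · have h4 : sinh (q * (r - c)) ≤ 0 := by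
            rw [sinh_nonpos_iff]
            nlinarith
          have h5 : m / r * (q * (sinh (q * (r - c)) / cosh (q * (r - c)))) ≤ 0 := by
            apply mul_nonpos_of_nonneg_of_nonpos (by positivity)
            apply mul_nonpos_of_nonneg_of_nonpos hq0.le
            exact div_nonpos_of_nonpos_of_nonneg h4 hc2.le
          have h6 : 0 ≤ m * β / c := by positivity
          linarith
        · have h4 : sinh (q * (r - c)) / cosh (q * (r - c)) ≤ sinh x / cosh x := by
            rw [div_le_div_iff₀ hc2 hch]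
            have h5 : 0 ≤ sinh (x - q * (r - c)) := by
              rw [sinh_nonneg_iff, hx, hc, ht]
              have : q * ((r₂ - R) / 2) - q * (r - (R + r₂) / 2) = q * (r₂ - r) := by ring
              rw [this]
              have := hr.2
              have : 0 ≤ r₂ - r := by linarith
              positivity
            rw [sinh_sub] at h5
            linarith
          have h4' : 0 ≤ sinh (q * (r - c)) / cosh (q * (r - c)) := by
            have : 0 ≤ sinh (q * (r - c)) := by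
              rw [sinh_nonneg_iff]
              have : 0 ≤ r - c := by linarith
              positivity
            positivity
          calc m / r * (q * (sinh (q * (r - c)) / cosh (q * (r - c))))
              ≤ m / c * (q * (sinh x / cosh x)) := by gcongr
            _ = m * β / c := by rw [hβ]; ring
      linarith
    · have : q * (R - c) = - x := by rw [hx, hc, ht]; ring
      rw [this, sinh_neg, cosh_neg, hβ]
      apply le_of_eq
      ring
    · have : q * (r₂ - c) = x := by rw [hx, hc, ht]; ring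
      rw [this, hβ]
  have e : m * β * δ = m / R * β - m * β / c := by rw [hδ]; ring
  rw [e] at hmain
  linarith

/-- C¹ extension of a ground state -/
lemma GS.extend {m : ℕ} {r₁ r₂ β k : ℝ} {u p : ℝ → ℝ} (g : GS m r₁ r₂ β k u p) (h12 : r₁ < r₂) :
    ∃ w w1 : ℝ → ℝ, Continuous w1 ∧ (∀ r, HasDerivAt w (w1 r) r) ∧
      (∀ r ∈ Icc r₁ r₂, w r = u r) ∧ (∀ r ∈ Icc r₁ r₂, w1 r = p r) := by
  set w1 : ℝ → ℝ := fun r => p (max r₁ (min r r₂)) with hw1
  have hcl : ∀ r ∈ Icc r₁ r₂, max r₁ (min r r₂) = r := by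
    intro r hr
    rw [min_eq_left hr.2, max_eq_right hr.1]
  have hcont : Continuous w1 := by
    refine g.cp.comp_continuous (continuous_const.max (continuous_id.min continuous_const)) ?_
    intro r
    exact ⟨le_max_left _ _, max_le h12.le (min_le_right _ _)⟩
  set w : ℝ → ℝ := fun r => u r₁ + ∫ s in r₁..r, w1 s with hw
  have hd : ∀ r, HasDerivAt w (w1 r) r := by
    intro r
    have := intervalIntegral.integral_hasDerivAt_right (hcont.intervalIntegrable r₁ r)
      (hcont.stronglyMeasurableAtFilter _ _) hcont.continuousAt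
    exact this.const_add (u r₁)
  refine ⟨w, w1, hcont, hd, ?_, fun r hr => by simp only [hw1]; rw [hcl r hr]⟩
  intro r hr
  have hFTC : ∫ s in r₁..r, w1 s = u r - u r₁ := by
    refine integral_eq_sub_of_hasDerivAt_of_le hr.1 ?_ ?_ (hcont.intervalIntegrable _ _)
    · exact g.cu.mono (Icc_subset_Icc le_rfl hr.2)
    · intro s hs
      have hs' : s ∈ Icc r₁ r₂ := ⟨hs.1.le, hs.2.le.trans hr.2⟩
      have := g.du s hs'
      simp only [hw1]
      rwa [hcl s hs']
  simp only [hw]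
  rw [hFTC]
  ring

/-- outer radius of the shell with inner radius `x` and the volume of the ball of radius `R` -/
noncomputable def outer (m : ℕ) (R x : ℝ) : ℝ := (R ^ (m + 1) + x ^ (m + 1)) ^ ((1:ℝ) / ((m + 1 : ℕ) : ℝ))

lemma outer_pow (m : ℕ) {R x : ℝ} (hR : 0 < R) (hx : 0 ≤ x) :
    outer m R x ^ (m + 1) = R ^ (m + 1) + x ^ (m + 1) := by
  unfold outer
  rw [one_div]
  exact Real.rpow_inv_natCast_pow (by positivity) (by omega)

lemma outer_pos (m : ℕ) {R x : ℝ} (hR : 0 < R) (hx : 0 ≤ x) : 0 < outer m R x := by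
  unfold outer
  positivity

lemma lt_outer (m : ℕ) {R x : ℝ} (hR : 0 < R) (hx : 0 ≤ x) : x < outer m R x := by
  have h := outer_pow m hR hx
  have h0 := outer_pos m hR hx
  have : x ^ (m + 1) < outer m R x ^ (m + 1) := by
    rw [h]
    have : 0 < R ^ (m + 1) := by positivity
    linarith
  exact lt_of_pow_lt_pow_left₀ _ h0.le this

lemma outer_zero (m : ℕ) {R : ℝ} (hR : 0 < R) : outer m R 0 = R := by
  have h := outer_pow m hR le_rfl
  rw [zero_pow (by omega), add_zero] at h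
  exact (pow_left_inj₀ (outer_pos m hR le_rfl).le hR.le (by omega)).1 h

lemma outer_unique (m : ℕ) {R x r₂ : ℝ} (hR : 0 < R) (hx : 0 ≤ x) (hr : 0 < r₂)
    (h : r₂ ^ (m + 1) - x ^ (m + 1) = R ^ (m + 1)) : r₂ = outer m R x := by
  have h1 := outer_pow m hR hx
  refine (pow_left_inj₀ hr.le (outer_pos m hR hx).le (by omega : m + 1 ≠ 0)).1 ?_
  rw [h1]
  linarith

lemma continuousOn_outer (m : ℕ) {R : ℝ} (hR : 0 < R) : ContinuousOn (outer m R) (Ici 0) := by
  unfold outer
  refine ContinuousOn.rpow_const (by fun_prop) (fun x hx => ?_)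
  left
  have : (0:ℝ) ≤ x := hx
  positivity

/-- `k²` is determined by the interval and `β` -/
lemma GS.unique {m : ℕ} {r₁ r₂ β k l : ℝ} {u p u' p' : ℝ → ℝ} (g : GS m r₁ r₂ β k u p)
    (g' : GS m r₁ r₂ β l u' p') (h0 : 0 ≤ r₁) (h12 : r₁ < r₂) : k ^ 2 = l ^ 2 := by
  have h1 := g.test h0 h12 g'.du g'.cp
  have h2 := g'.energy' h0 h12
  have h3 := g'.mass_pos h0 h12
  have h4 := g'.test h0 h12 g.du g.cp
  have h5 := g.energy' h0 h12
  have h6 := g.mass_pos h0 h12
  rw [h2] at h1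
  rw [h5] at h4
  exact le_antisymm (le_of_mul_le_mul_right h4 h6) (le_of_mul_le_mul_right h1 h3)

/-- `k²` is monotone in `β` -/
lemma GS.mono_beta {m : ℕ} {r₁ r₂ β β' k l : ℝ} {u p u' p' : ℝ → ℝ} (g : GS m r₁ r₂ β k u p)
    (g' : GS m r₁ r₂ β' l u' p') (h0 : 0 ≤ r₁) (h12 : r₁ < r₂) (hβ : β ≤ β') : k ^ 2 ≤ l ^ 2 := by
  have h4 := g'.test h0 h12 g.du g.cp
  have h5 := g.energy' h0 h12
  have h6 := g.mass_pos h0 h12
  have h2 : 0 < r₂ := lt_of_le_of_lt h0 h12
  have h7 : β * (r₁ ^ m * u r₁ ^ 2 + r₂ ^ m * u r₂ ^ 2) ≤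
      β' * (r₁ ^ m * u r₁ ^ 2 + r₂ ^ m * u r₂ ^ 2) := by gcongr
  have h8 : k ^ 2 * (∫ r in r₁..r₂, r ^ m * u r ^ 2) ≤
      l ^ 2 * (∫ r in r₁..r₂, r ^ m * u r ^ 2) := by linarith
  exact le_of_mul_le_mul_right h8 h6

lemma exists_gs {m : ℕ} (hm : 1 ≤ m) {R β x : ℝ} (hR : 0 < R) (hβ : 0 < β) (hx : 0 ≤ x) :
    ∃ k : ℝ, 0 < k ∧ ∃ u p, GS m x (outer m R x) β k u p := by
  rcases eq_or_lt_of_le hx with h | h
  · obtain ⟨k, hk, hkβ⟩ := exists_ball m hR hβ
    refine ⟨k, hk, fun r => V m (k * r), fun r => k * W m (k * r), ?_⟩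
    rw [← h, outer_zero m hR, ← hkβ]
    exact GS_ball hm hk
  · obtain ⟨k, u, p, hk, g⟩ := exists_shell m h (lt_outer m hR hx) hβ
    exact ⟨k, hk, u, p, g⟩

open Classical in
/-- the number `k > 0` with `λ₁ = -k²` for the radial domain of inner radius `x` -/
noncomputable def kk (m : ℕ) (R β x : ℝ) : ℝ :=
  if h : ∃ k : ℝ, 0 < k ∧ ∃ u p, GS m x (outer m R x) β k u p then h.choose else 0

lemma kk_spec {m : ℕ} (hm : 1 ≤ m) {R β x : ℝ} (hR : 0 < R) (hβ : 0 < β) (hx : 0 ≤ x) :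
    0 < kk m R β x ∧ ∃ u p, GS m x (outer m R x) β (kk m R β x) u p := by
  have h := exists_gs hm hR hβ hx
  unfold kk
  rw [dif_pos h]
  exact h.choose_spec

lemma kk_unique {m : ℕ} (hm : 1 ≤ m) {R β x l : ℝ} (hR : 0 < R) (hβ : 0 < β) (hx : 0 ≤ x)
    (hg : ∃ u p, GS m x (outer m R x) β l u p) : kk m R β x ^ 2 = l ^ 2 := by
  obtain ⟨u', p', g'⟩ := hg
  obtain ⟨_, u, p, g⟩ := kk_spec hm hR hβ hx
  exact g.unique g' hx (lt_outer m hR hx)

/-- lower semicontinuity of `k²` in the inner radius -/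
theorem kk_lsc {m : ℕ} (hm : 1 ≤ m) {R β : ℝ} (hR : 0 < R) (hβ : 0 < β) :
    LowerSemicontinuousOn (fun x => kk m R β x ^ 2) (Ici (0:ℝ)) := by
  intro x0 hx0 y hy
  have hx0' : (0:ℝ) ≤ x0 := hx0
  have hlt0 := lt_outer m hR hx0'
  obtain ⟨hk, u, p, g⟩ := kk_spec hm hR hβ hx0'
  obtain ⟨w, w1, hw1, hw, hwu, hwp⟩ := g.extend hlt0
  have hwc : Continuous w := continuous_iff_continuousAt.2 fun r => (hw r).continuousAt
  have hmass := g.mass_pos hx0' hlt0
  have hen := g.energy' hx0' hlt0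
  -- N and D as functions of `x`
  set N : ℝ → ℝ := fun x => β * (x ^ m * w x ^ 2 + outer m R x ^ m * w (outer m R x) ^ 2) -
    ∫ r in x..(outer m R x), r ^ m * w1 r ^ 2 with hN
  set D : ℝ → ℝ := fun x => ∫ r in x..(outer m R x), r ^ m * w r ^ 2 with hD
  have hco : ContinuousWithinAt (outer m R) (Ici 0) x0 := continuousOn_outer m hR x0 hx0
  have hcont_int : ∀ f : ℝ → ℝ, Continuous f →
      ContinuousWithinAt (fun x => ∫ r in x..(outer m R x), f r) (Ici 0) x0 := by
    intro f hf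
    have hprim : Continuous (fun b => ∫ r in (0:ℝ)..b, f r) :=
      intervalIntegral.continuous_primitive (fun a b => hf.intervalIntegrable a b) 0
    have e : (fun x => ∫ r in x..(outer m R x), f r) =
        fun x => (∫ r in (0:ℝ)..(outer m R x), f r) - ∫ r in (0:ℝ)..x, f r := by
      ext x
      rw [intervalIntegral.integral_interval_sub_left (hf.intervalIntegrable _ _)
        (hf.intervalIntegrable _ _)]
    rw [e]
    exact (hprim.continuousAt.comp_continuousWithinAt hco).sub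
      hprim.continuousAt.continuousWithinAt
  have hDc : ContinuousWithinAt D (Ici 0) x0 := hcont_int _ (by fun_prop)
  have hNc : ContinuousWithinAt N (Ici 0) x0 := by
    refine ContinuousWithinAt.sub ?_ (hcont_int _ (by fun_prop))
    refine continuousWithinAt_const.mul (ContinuousWithinAt.add ?_ ?_)
    · exact (((continuous_pow m).mul (hwc.pow 2)).continuousAt).continuousWithinAt
    · exact (hco.pow m).mul ((hwc.continuousAt.comp_continuousWithinAt hco).pow 2)
  have hD0 : D x0 = ∫ r in x0..(outer m R x0), r ^ m * u r ^ 2 := by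
    simp only [hD]
    refine intervalIntegral.integral_congr (fun r hr => ?_)
    rw [uIcc_of_le hlt0.le] at hr
    show r ^ m * w r ^ 2 = r ^ m * u r ^ 2
    rw [hwu r hr]
  have hN0 : N x0 = kk m R β x0 ^ 2 * D x0 := by
    rw [hD0, ← hen]
    simp only [hN]
    rw [hwu x0 (left_mem_Icc.2 hlt0.le), hwu _ (right_mem_Icc.2 hlt0.le)]
    congr 1
    refine intervalIntegral.integral_congr (fun r hr => ?_)
    rw [uIcc_of_le hlt0.le] at hr
    show r ^ m * w1 r ^ 2 = r ^ m * p r ^ 2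
    rw [hwp r hr]
  have hDpos : 0 < D x0 := by rw [hD0]; exact hmass
  have hev1 : ∀ᶠ x in 𝓝[Ici 0] x0, 0 < N x - y * D x := by
    have hc : ContinuousWithinAt (fun x => N x - y * D x) (Ici 0) x0 :=
      hNc.sub (continuousWithinAt_const.mul hDc)
    refine hc.eventually_const_lt ?_
    have : y < kk m R β x0 ^ 2 := hy
    show 0 < N x0 - y * D x0
    rw [hN0]
    nlinarith
  have hev2 : ∀ᶠ x in 𝓝[Ici 0] x0, 0 < D x := hDc.eventually_const_lt hDpos
  filter_upwards [hev1, hev2, self_mem_nhdsWithin] with x hx1 hx2 hx3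
  have hx3' : (0:ℝ) ≤ x := hx3
  obtain ⟨_, u', p', gx⟩ := kk_spec hm hR hβ hx3'
  have ht := gx.test hx3' (lt_outer m hR hx3') (fun r _ => hw r) hw1.continuousOn
  have ht' : N x ≤ kk m R β x ^ 2 * D x := ht
  have : y * D x < kk m R β x ^ 2 * D x := by linarith
  exact lt_of_mul_lt_mul_right this hx2.le

/-- coercivity: `(m+1) β x ≤ k² R^{m+1}` for inner radius `x ≥ 1` -/
lemma kk_coer {m : ℕ} (hm : 1 ≤ m) {R β : ℝ} (hR : 0 < R) (hβ : 0 < β) {x : ℝ} (hx : 1 ≤ x) :
    (m + 1) * β * x ≤ kk m R β x ^ 2 * R ^ (m + 1) := by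
  have hx0 : 0 ≤ x := by linarith
  obtain ⟨hk, u, p, g⟩ := kk_spec hm hR hβ hx0
  have hvol : outer m R x ^ (m + 1) - x ^ (m + 1) = R ^ (m + 1) := by
    rw [outer_pow m hR hx0]; ring
  have h1 := g.const_test hx0 (lt_outer m hR hx0) hvol
  have h2 : x ≤ x ^ m := by
    calc x = x ^ 1 := (pow_one x).symm
      _ ≤ x ^ m := pow_le_pow_right₀ hx hm
  have h3 : 0 ≤ outer m R x ^ m := pow_nonneg (outer_pos m hR hx0).le m
  refine le_trans ?_ h1
  have : 0 ≤ ((m:ℝ) + 1) * β := by positivity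
  gcongr
  linarith

/-- existence of a best radially symmetric domain: a minimiser of `k²` -/
theorem exists_min {m : ℕ} (hm : 1 ≤ m) {R β : ℝ} (hR : 0 < R) (hβ : 0 < β) :
    ∃ x : ℝ, 0 ≤ x ∧ ∀ y : ℝ, 0 ≤ y → kk m R β x ^ 2 ≤ kk m R β y ^ 2 := by
  -- coercivity
  set X : ℝ := kk m R β 0 ^ 2 * R ^ (m + 1) / ((m + 1) * β) + 1 with hX
  have hX1 : 1 ≤ X := by
    rw [hX]
    have : 0 ≤ kk m R β 0 ^ 2 * R ^ (m + 1) / ((m + 1) * β) := by positivity
    linarith
  have hcoer : ∀ x, X < x → kk m R β 0 ^ 2 ≤ kk m R β x ^ 2 := by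
    intro x hx
    have h1 := kk_coer hm hR hβ (x := x) (by linarith)
    have h4 : kk m R β 0 ^ 2 * R ^ (m + 1) / ((m + 1) * β) < x := by rw [hX] at hx; linarith
    rw [div_lt_iff₀ (by positivity)] at h4
    have h6 : kk m R β 0 ^ 2 * R ^ (m + 1) ≤ kk m R β x ^ 2 * R ^ (m + 1) := by linarith
    exact le_of_mul_le_mul_right h6 (by positivity)
  obtain ⟨x, hx, hmin⟩ := LowerSemicontinuousOn.exists_isMinOn
    (s := Icc (0:ℝ) X) ⟨0, left_mem_Icc.2 (by linarith)⟩ isCompact_Icc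
    ((kk_lsc hm hR hβ).mono Icc_subset_Ici_self)
  refine ⟨x, hx.1, ?_⟩
  intro y hy
  rcases le_or_gt y X with h | h
  · exact hmin (mem_Icc.2 ⟨hy, h⟩)
  · have h1 : kk m R β x ^ 2 ≤ kk m R β 0 ^ 2 := hmin (mem_Icc.2 ⟨le_rfl, by linarith⟩)
    exact h1.trans (hcoer y h)

end Pool.Agent.H.MP_1b807b_an
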