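import Pool.Agent.H.MP_1b807b_an.Polar
import Pool.Agent.H.MP_1b807b_an.Comp

set_option autoImplicit false

namespace Pool.Agent.H.MP_1b807b_an

open Real Filter Topology Set MeasureTheory Metric

/-- surface integral over the sphere of radius `r` centred at `0` -/
noncomputable def sphI (n : ℕ) (r : ℝ) (w : EE n → ℝ) : ℝ :=
  r ^ (n - 1) * ∫ ω : sphere (0 : EE n) 1, w (r • (ω : EE n)) ∂((volume : Measure (EE n)).toSphere)

lemma continuous_ray {n : ℕ} (r : ℝ) :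
    Continuous (fun ω : sphere (0 : EE n) 1 => r • (ω : EE n)) := by fun_prop

lemma sphere_integrable {n : ℕ} {f : sphere (0 : EE n) 1 → ℝ} (hf : Continuous f) :
    Integrable f ((volume : Measure (EE n)).toSphere) :=
  hf.integrable_of_hasCompactSupport (HasCompactSupport.of_compactSpace _)

/-- lower bound for the `n`-dimensional Rayleigh quotient -/
theorem nd_lower {n : ℕ} (hn : 2 ≤ n) {r₁ r₂ β k : ℝ} (h0 : 0 ≤ r₁) (h12 : r₁ < r₂)
    {u p : ℝ → ℝ} (g : GS (n - 1) r₁ r₂ β k u p) {U : EE n → ℝ} (hU : ContDiff ℝ 1 U) :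
    β * (sphI n r₁ (fun x => U x ^ 2) + sphI n r₂ (fun x => U x ^ 2)) ≤
      (∫ x in shell0 n r₁ r₂, ‖fderiv ℝ U x‖ ^ 2) + k ^ 2 * ∫ x in shell0 n r₁ r₂, U x ^ 2 := by
  have hUc : Continuous U := hU.continuous
  have hUd : Continuous (fun x => fderiv ℝ U x) := hU.continuous_fderiv (by norm_num)
  set f : EE n → ℝ := fun x => ‖fderiv ℝ U x‖ ^ 2 + k ^ 2 * U x ^ 2 with hf
  have hfc : Continuous f := (hUd.norm.pow 2).add (continuous_const.mul (hUc.pow 2))
  have hsplit : ∫ x in shell0 n r₁ r₂, f x = (∫ x in shell0 n r₁ r₂, ‖fderiv ℝ U x‖ ^ 2) +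
      k ^ 2 * ∫ x in shell0 n r₁ r₂, U x ^ 2 := by
    rw [← integral_const_mul, ← integral_add]
    · exact integrableOn_shell0 (hUd.norm.pow 2)
    · exact (integrableOn_shell0 (hUc.pow 2)).const_mul _
  rw [← hsplit, polar (by omega) h0 h12.le hfc]
  have hw : ∀ ω : sphere (0 : EE n) 1, β * (r₁ ^ (n - 1) * U (r₁ • (ω : EE n)) ^ 2 +
      r₂ ^ (n - 1) * U (r₂ • (ω : EE n)) ^ 2) ≤
      ∫ r in r₁..r₂, r ^ (n - 1) * f (r • (ω : EE n)) := by
    intro ω
    have hω : ‖(ω : EE n)‖ = 1 := by simp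
    have hline : ∀ r : ℝ, HasDerivAt (fun r : ℝ => r • (ω : EE n)) (ω : EE n) r := by
      intro r
      simpa using (hasDerivAt_id r).smul_const (ω : EE n)
    have hlc : Continuous (fun r : ℝ => r • (ω : EE n)) := by fun_prop
    have hwd : ∀ r : ℝ, HasDerivAt (fun r : ℝ => U (r • (ω : EE n)))
        (fderiv ℝ U (r • (ω : EE n)) (ω : EE n)) r := by
      intro r
      exact (((hU.differentiable (by norm_num)) (r • (ω : EE n))).hasFDerivAt).comp_hasDerivAt r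
        (hline r)
    have hw1c : Continuous (fun r : ℝ => fderiv ℝ U (r • (ω : EE n)) (ω : EE n)) :=
      (hUd.comp hlc).clm_apply continuous_const
    have h1 := g.picone h0 h12 (w := fun r => U (r • (ω : EE n)))
      (w1 := fun r => fderiv ℝ U (r • (ω : EE n)) (ω : EE n)) (fun r _ => hwd r) hw1c.continuousOn
    refine h1.trans ?_
    have hUlc : Continuous (fun r : ℝ => U (r • (ω : EE n))) := hUc.comp hlc
    have hflc : Continuous (fun r : ℝ => f (r • (ω : EE n))) := hfc.comp hlc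
    refine intervalIntegral.integral_mono_on h12.le
      (Continuous.intervalIntegrable (by fun_prop) _ _)
      (Continuous.intervalIntegrable (by fun_prop) _ _) (fun r hr => ?_)
    have hr0 : 0 ≤ r := h0.trans hr.1
    have h2 : (fderiv ℝ U (r • (ω : EE n)) (ω : EE n)) ^ 2 ≤ ‖fderiv ℝ U (r • (ω : EE n))‖ ^ 2 := by
      have h3 := (fderiv ℝ U (r • (ω : EE n))).le_opNorm (ω : EE n)
      rw [hω, mul_one, Real.norm_eq_abs] at h3
      rw [← sq_abs]
      gcongr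
    have h4 : 0 ≤ r ^ (n - 1) := by positivity
    simp only [hf]
    gcongr
  have hmono := integral_mono (μ := (volume : Measure (EE n)).toSphere)
    (f := fun ω : sphere (0 : EE n) 1 => β * (r₁ ^ (n - 1) * U (r₁ • (ω : EE n)) ^ 2 +
      r₂ ^ (n - 1) * U (r₂ • (ω : EE n)) ^ 2))
    (g := fun ω : sphere (0 : EE n) 1 => ∫ r in r₁..r₂, r ^ (n - 1) * f (r • (ω : EE n)))
    (sphere_integrable (by
      have h1 : Continuous (fun ω : sphere (0 : EE n) 1 => U (r₁ • (ω : EE n))) :=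
        hUc.comp (continuous_ray _)
      have h2 : Continuous (fun ω : sphere (0 : EE n) 1 => U (r₂ • (ω : EE n))) :=
        hUc.comp (continuous_ray _)
      fun_prop))
    (sphere_integrable (by
      refine intervalIntegral.continuous_parametric_intervalIntegral_of_continuous' ?_ r₁ r₂
      have h1 : Continuous (fun q : sphere (0 : EE n) 1 × ℝ => q.2 • (q.1 : EE n)) :=
        continuous_snd.smul (continuous_subtype_val.comp continuous_fst)
      exact (continuous_snd.pow _).mul (hfc.comp h1))) hw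
  refine le_trans (le_of_eq ?_) hmono
  have hi1 : Integrable (fun ω : sphere (0 : EE n) 1 => r₁ ^ (n - 1) * U (r₁ • (ω : EE n)) ^ 2)
      ((volume : Measure (EE n)).toSphere) := sphere_integrable (by
      have h1 : Continuous (fun ω : sphere (0 : EE n) 1 => U (r₁ • (ω : EE n))) :=
        hUc.comp (continuous_ray _)
      fun_prop)
  have hi2 : Integrable (fun ω : sphere (0 : EE n) 1 => r₂ ^ (n - 1) * U (r₂ • (ω : EE n)) ^ 2)
      ((volume : Measure (EE n)).toSphere) := sphere_integrable (by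
      have h2 : Continuous (fun ω : sphere (0 : EE n) 1 => U (r₂ • (ω : EE n))) :=
        hUc.comp (continuous_ray _)
      fun_prop)
  rw [integral_const_mul, integral_add hi1 hi2, integral_const_mul, integral_const_mul]
  rfl

/-- radial `C¹` functions -/
lemma radial_contDiff {n : ℕ} {Ψ ψ : ℝ → ℝ} (hΨ : ∀ s, HasDerivAt Ψ (ψ s) s) (hψ : Continuous ψ) :
    ContDiff ℝ 1 (fun x : EE n => Ψ (‖x‖ ^ 2)) ∧
      ∀ x : EE n, ‖fderiv ℝ (fun x : EE n => Ψ (‖x‖ ^ 2)) x‖ = |ψ (‖x‖ ^ 2)| * (2 * ‖x‖) := by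
  have hΨ1 : ContDiff ℝ 1 Ψ := by
    rw [contDiff_one_iff_deriv]
    refine ⟨fun s => (hΨ s).differentiableAt, ?_⟩
    have : deriv Ψ = ψ := by ext s; exact (hΨ s).deriv
    rw [this]
    exact hψ
  refine ⟨hΨ1.comp (contDiff_norm_sq ℝ), fun x => ?_⟩
  have h1 : HasFDerivAt (fun x : EE n => ‖x‖ ^ 2) (2 • (innerSL ℝ x)) x := by
    have := (hasStrictFDerivAt_norm_sq x).hasFDerivAt
    simpa using this
  have h2 := (hΨ (‖x‖ ^ 2)).comp_hasFDerivAt x h1
  have h3 : fderiv ℝ (fun x : EE n => Ψ (‖x‖ ^ 2)) x = ψ (‖x‖ ^ 2) • (2 • (innerSL ℝ x)) := h2.fderiv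
  rw [h3, norm_smul, Real.norm_eq_abs]
  congr 1
  rw [← Nat.cast_smul_eq_nsmul ℝ, norm_smul, innerSL_apply_norm]
  norm_num

/-- `n`-dimensional test function attaining the eigenvalue -/
def RadialTest (n : ℕ) (r₁ r₂ : ℝ) (u p : ℝ → ℝ) (U : EE n → ℝ) : Prop :=
  ContDiff ℝ 1 U ∧ (∀ x, r₁ ≤ ‖x‖ → ‖x‖ ≤ r₂ → U x = u ‖x‖) ∧
    ∀ x, r₁ ≤ ‖x‖ → ‖x‖ ≤ r₂ → ‖fderiv ℝ U x‖ ^ 2 = p ‖x‖ ^ 2

lemma exists_test_shell {n : ℕ} {m : ℕ} {r₁ r₂ β k : ℝ} (h0 : 0 < r₁) (h12 : r₁ < r₂)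
    {u p : ℝ → ℝ} (g : GS m r₁ r₂ β k u p) : ∃ U : EE n → ℝ, RadialTest n r₁ r₂ u p U := by
  have h2 : 0 < r₂ := h0.trans h12
  -- clamp of s = r²
  set c : ℝ → ℝ := fun s => max r₁ (min (√s) r₂) with hc
  have hcc : Continuous c := continuous_const.max (Real.continuous_sqrt.min continuous_const)
  have hcmem : ∀ s, c s ∈ Icc r₁ r₂ := fun s =>
    ⟨le_max_left _ _, max_le h12.le (min_le_right _ _)⟩
  have hcpos : ∀ s, 0 < c s := fun s => lt_of_lt_of_le h0 (hcmem s).1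
  have hcr : ∀ r ∈ Icc r₁ r₂, c (r ^ 2) = r := by
    intro r hr
    have hr0 : 0 ≤ r := h0.le.trans hr.1
    simp only [hc]
    rw [Real.sqrt_sq hr0, min_eq_left hr.2, max_eq_right hr.1]
  set φ : ℝ → ℝ := fun s => p (c s) / (2 * c s) with hφ
  have hφc : Continuous φ := by
    refine Continuous.div (g.cp.comp_continuous hcc hcmem) (continuous_const.mul hcc) (fun s => ?_)
    have := hcpos s
    positivity
  set Ψ : ℝ → ℝ := fun s => u r₁ + ∫ t in (r₁ ^ 2)..s, φ t with hΨ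
  have hΨd : ∀ s, HasDerivAt Ψ (φ s) s := by
    intro s
    have := intervalIntegral.integral_hasDerivAt_right (hφc.intervalIntegrable (r₁ ^ 2) s)
      (hφc.stronglyMeasurableAtFilter _ _) hφc.continuousAt
    exact this.const_add (u r₁)
  obtain ⟨hU, hUd⟩ := radial_contDiff (n := n) hΨd hφc
  have hΨu : ∀ r ∈ Icc r₁ r₂, Ψ (r ^ 2) = u r := by
    intro r hr
    have hd : ∀ x : ℝ, HasDerivAt (fun r => Ψ (r ^ 2)) (φ (x ^ 2) * (2 * x)) x := by
      intro x
      have := HasDerivAt.comp (h₂ := Ψ) (h := fun x : ℝ => x ^ 2) x (hΨd (x ^ 2)) (hasDerivAt_pow 2 x)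
      refine this.congr_deriv ?_
      push_cast
      ring
    have hconst := constant_of_has_deriv_right_zero (f := fun r => Ψ (r ^ 2) - u r) (a := r₁)
      (b := r₂) (by
        refine ContinuousOn.sub ?_ g.cu
        exact (continuous_iff_continuousAt.2 fun x => (hd x).continuousAt).continuousOn) (by
        intro x hx
        have hx' := Ico_subset_Icc_self hx
        have h3 := ((hd x).sub (g.du x hx')).hasDerivWithinAt (s := Ici x)
        refine h3.congr_deriv ?_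
        simp only [hφ]
        rw [hcr x hx']
        have hx0 : 0 < x := lt_of_lt_of_le h0 hx.1
        field_simp
        ring) r hr
    have h4 : Ψ (r₁ ^ 2) = u r₁ := by simp [hΨ]
    simp only [h4] at hconst
    linarith
  refine ⟨fun x => Ψ (‖x‖ ^ 2), hU, fun x hx1 hx2 => hΨu _ ⟨hx1, hx2⟩, fun x hx1 hx2 => ?_⟩
  rw [hUd x, mul_pow, sq_abs]
  simp only [hφ]
  rw [hcr _ ⟨hx1, hx2⟩]
  have hx0 : 0 < ‖x‖ := lt_of_lt_of_le h0 hx1
  field_simp

lemma exists_test_ball {n : ℕ} {m : ℕ} {R k : ℝ} :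
    ∃ U : EE n → ℝ, RadialTest n 0 R (fun r => V m (k * r)) (fun r => k * W m (k * r)) U := by
  have hΨd : ∀ s, HasDerivAt (fun s => ser (cc m) (k ^ 2 * s)) (k ^ 2 * ser (shc (cc m)) (k ^ 2 * s)) s := by
    intro s
    have := HasDerivAt.comp (h₂ := ser (cc m)) (h := fun x : ℝ => k ^ 2 * x) s
      (hasDerivAt_ser (ent_cc m) (k ^ 2 * s)) ((hasDerivAt_id s).const_mul (k ^ 2))
    refine this.congr_deriv ?_
    ring
  have hψc : Continuous (fun s => k ^ 2 * ser (shc (cc m)) (k ^ 2 * s)) :=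
    continuous_const.mul ((continuous_ser (ent_cc m).shc).comp (continuous_const.mul continuous_id))
  obtain ⟨hU, hUd⟩ := radial_contDiff (n := n) hΨd hψc
  refine ⟨_, hU, fun x _ _ => ?_, fun x _ _ => ?_⟩
  · show ser (cc m) (k ^ 2 * ‖x‖ ^ 2) = V m (k * ‖x‖)
    unfold V
    rw [mul_pow]
  · rw [hUd x, mul_pow, sq_abs]
    show _ = (k * W m (k * ‖x‖)) ^ 2
    unfold W
    rw [mul_pow k ‖x‖]
    ring

/-- value of the Rayleigh functional for a radial test function -/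
theorem radial_values {n : ℕ} (hn : 2 ≤ n) {r₁ r₂ β k : ℝ} (h0 : 0 ≤ r₁) (h12 : r₁ < r₂)
    {u p : ℝ → ℝ} (g : GS (n - 1) r₁ r₂ β k u p) {U : EE n → ℝ} (hT : RadialTest n r₁ r₂ u p U) :
    0 < (∫ x in shell0 n r₁ r₂, U x ^ 2) ∧
    (∫ x in shell0 n r₁ r₂, ‖fderiv ℝ U x‖ ^ 2) + (-β) * (sphI n r₁ (fun x => U x ^ 2) +
      sphI n r₂ (fun x => U x ^ 2)) = - k ^ 2 * ∫ x in shell0 n r₁ r₂, U x ^ 2 := by
  obtain ⟨hU, hUu, hUp⟩ := hT
  have hUc : Continuous U := hU.continuous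
  have hUd : Continuous (fun x => fderiv ℝ U x) := hU.continuous_fderiv (by norm_num)
  have h2 : 0 < r₂ := lt_of_le_of_lt h0 h12
  have : Nonempty (Fin n) := ⟨⟨0, by omega⟩⟩
  have : Nontrivial (EE n) := inferInstance
  set σ : ℝ := ((volume : Measure (EE n)).toSphere).real univ with hσ
  have hσ0 : 0 < σ := by
    rw [hσ, measureReal_def]
    refine ENNReal.toReal_pos ?_ (measure_ne_top _ _)
    rw [ne_eq, Measure.measure_univ_eq_zero]
    exact Measure.toSphere_ne_zero _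
  have hnorm : ∀ (r : ℝ) (ω : sphere (0 : EE n) 1), 0 ≤ r → ‖r • (ω : EE n)‖ = r := by
    intro r ω hr
    have hω : ‖(ω : EE n)‖ = 1 := by simp
    rw [norm_smul, hω, mul_one, Real.norm_eq_abs, abs_of_nonneg hr]
  have e1 : ∫ x in shell0 n r₁ r₂, U x ^ 2 = σ * ∫ r in r₁..r₂, r ^ (n - 1) * u r ^ 2 := by
    rw [polar (f := fun x => U x ^ 2) (by omega) h0 h12.le (hUc.pow 2)]
    have : ∀ ω : sphere (0 : EE n) 1, (∫ r in r₁..r₂, r ^ (n - 1) * U (r • (ω : EE n)) ^ 2) =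
        ∫ r in r₁..r₂, r ^ (n - 1) * u r ^ 2 := by
      intro ω
      refine intervalIntegral.integral_congr (fun r hr => ?_)
      rw [uIcc_of_le h12.le] at hr
      have hr0 : 0 ≤ r := h0.trans hr.1
      show r ^ (n - 1) * U (r • (ω : EE n)) ^ 2 = r ^ (n - 1) * u r ^ 2
      rw [hUu _ (by rw [hnorm r ω hr0]; exact hr.1) (by rw [hnorm r ω hr0]; exact hr.2),
        hnorm r ω hr0]
    simp only [this]
    rw [integral_const, smul_eq_mul]
  have e2 : ∫ x in shell0 n r₁ r₂, ‖fderiv ℝ U x‖ ^ 2 = σ * ∫ r in r₁..r₂, r ^ (n - 1) * p r ^ 2 := by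
    rw [polar (f := fun x => ‖fderiv ℝ U x‖ ^ 2) (by omega) h0 h12.le (hUd.norm.pow 2)]
    have : ∀ ω : sphere (0 : EE n) 1,
        (∫ r in r₁..r₂, r ^ (n - 1) * ‖fderiv ℝ U (r • (ω : EE n))‖ ^ 2) =
        ∫ r in r₁..r₂, r ^ (n - 1) * p r ^ 2 := by
      intro ω
      refine intervalIntegral.integral_congr (fun r hr => ?_)
      rw [uIcc_of_le h12.le] at hr
      have hr0 : 0 ≤ r := h0.trans hr.1
      show r ^ (n - 1) * ‖fderiv ℝ U (r • (ω : EE n))‖ ^ 2 = r ^ (n - 1) * p r ^ 2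
      rw [hUp _ (by rw [hnorm r ω hr0]; exact hr.1) (by rw [hnorm r ω hr0]; exact hr.2),
        hnorm r ω hr0]
    simp only [this]
    rw [integral_const, smul_eq_mul]
  have e3 : ∀ r ∈ Icc r₁ r₂, sphI n r (fun x => U x ^ 2) = σ * (r ^ (n - 1) * u r ^ 2) := by
    intro r hr
    have hr0 : 0 ≤ r := h0.trans hr.1
    unfold sphI
    have : ∀ ω : sphere (0 : EE n) 1, U (r • (ω : EE n)) ^ 2 = u r ^ 2 := by
      intro ω
      rw [hUu _ (by rw [hnorm r ω hr0]; exact hr.1) (by rw [hnorm r ω hr0]; exact hr.2),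
        hnorm r ω hr0]
    simp only [this]
    rw [integral_const, smul_eq_mul]
    ring
  have hmass := g.mass_pos h0 h12
  have hen := g.energy' h0 h12
  refine ⟨by rw [e1]; positivity, ?_⟩
  rw [e1, e2, e3 r₁ (left_mem_Icc.2 h12.le), e3 r₂ (right_mem_Icc.2 h12.le)]
  have : σ * (∫ r in r₁..r₂, r ^ (n - 1) * p r ^ 2) + -β * (σ * (r₁ ^ (n - 1) * u r₁ ^ 2) +
      σ * (r₂ ^ (n - 1) * u r₂ ^ 2)) = - σ * (β * (r₁ ^ (n - 1) * u r₁ ^ 2 +
      r₂ ^ (n - 1) * u r₂ ^ 2) - ∫ r in r₁..r₂, r ^ (n - 1) * p r ^ 2) := by ring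
  rw [this, hen]
  ring

end Pool.Agent.H.MP_1b807b_an
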