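import Mathlib

set_option autoImplicit false

namespace Pool.Agent.H.MP_1b807b_an

open Real Filter Topology

/-- the power series with coefficients `a` -/
noncomputable def ser (a : ℕ → ℝ) (z : ℝ) : ℝ := ∑' j, a j * z ^ j

/-- coefficients of the derivative -/
noncomputable def shc (a : ℕ → ℝ) (j : ℕ) : ℝ := (j + 1) * a (j + 1)

/-- entire-type coefficient bound -/
def Ent (a : ℕ → ℝ) : Prop := ∃ C : ℝ, ∀ j, |a j| ≤ C / (j.factorial : ℝ)

lemma Ent.shc {a : ℕ → ℝ} (h : Ent a) : Ent (shc a) := by
  obtain ⟨C, hC⟩ := h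
  refine ⟨C, fun j => ?_⟩
  have h1 := hC (j + 1)
  have hj : (0 : ℝ) < (j.factorial : ℝ) := by exact_mod_cast Nat.factorial_pos j
  have e : ((j + 1).factorial : ℝ) = (j + 1) * (j.factorial : ℝ) := by
    rw [Nat.factorial_succ]; push_cast; ring
  rw [e] at h1
  unfold MP_1b807b_an.shc
  rw [abs_mul, abs_of_pos (by positivity : (0 : ℝ) < (j : ℝ) + 1)]
  calc ((j : ℝ) + 1) * |a (j + 1)| ≤ ((j : ℝ) + 1) * (C / ((j + 1) * (j.factorial : ℝ))) := by
        gcongr
    _ = C / (j.factorial : ℝ) := by field_simp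

lemma Ent.summable {a : ℕ → ℝ} (h : Ent a) (z : ℝ) : Summable (fun j => a j * z ^ j) := by
  obtain ⟨C, hC⟩ := h
  refine Summable.of_norm_bounded (g := fun j => C * (|z| ^ j / (j.factorial : ℝ)))
    ((Real.summable_pow_div_factorial |z|).mul_left C) (fun j => ?_)
  rw [Real.norm_eq_abs, abs_mul, abs_pow]
  calc |a j| * |z| ^ j ≤ C / (j.factorial : ℝ) * |z| ^ j := by
        gcongr; exact hC j
    _ = C * (|z| ^ j / (j.factorial : ℝ)) := by ring

lemma hasDerivAt_ser {a : ℕ → ℝ} (h : Ent a) (z : ℝ) :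
    HasDerivAt (ser a) (ser (shc a) z) z := by
  obtain ⟨C, hC⟩ := h
  have h' : Ent a := ⟨C, hC⟩
  have hC0 : 0 ≤ C := by
    have := hC 0
    simp at this
    exact le_trans (abs_nonneg _) this
  set R : ℝ := |z| + 1 with hR
  have hR0 : 0 < R := by positivity
  -- bounding sequence
  set b : ℕ → ℝ := fun j => C * (j * R ^ (j - 1) / (j.factorial : ℝ)) with hb
  have hbs : Summable b := by
    refine Summable.mul_left C ?_
    rw [← summable_nat_add_iff 1]
    refine (Real.summable_pow_div_factorial R).congr (fun j => ?_)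
    rw [Nat.factorial_succ]
    push_cast
    have hj : (0 : ℝ) < (j.factorial : ℝ) := by exact_mod_cast Nat.factorial_pos j
    field_simp
  have key : HasDerivAt (fun z => ∑' j, a j * z ^ j) (∑' j, a j * ((j : ℝ) * z ^ (j - 1))) z := by
    refine hasDerivAt_tsum_of_isPreconnected (t := Metric.ball (0 : ℝ) R) (u := b) (y₀ := 0)
      (g := fun j z => a j * z ^ j) (g' := fun j z => a j * ((j : ℝ) * z ^ (j - 1))) (y := z)
      hbs Metric.isOpen_ball (convex_ball _ _).isPreconnected ?_ ?_ ?_ ?_ ?_
    · intro j y _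
      exact (hasDerivAt_pow j y).const_mul (a j)
    · intro j y hy
      have hy' : |y| ≤ R := by
        have := mem_ball_zero_iff.1 hy
        rw [Real.norm_eq_abs] at this
        exact this.le
      rw [Real.norm_eq_abs, abs_mul, abs_mul, abs_pow, Nat.abs_cast]
      calc |a j| * ((j : ℝ) * |y| ^ (j - 1)) ≤ C / (j.factorial : ℝ) * ((j : ℝ) * R ^ (j - 1)) := by
            gcongr; exact hC j
        _ = b j := by simp only [hb]; ring
    · simpa using hR0
    · exact h'.summable 0
    · rw [mem_ball_zero_iff, Real.norm_eq_abs]; simp [hR]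
  have e : (∑' j, a j * ((j : ℝ) * z ^ (j - 1))) = ser (shc a) z := by
    have hs : Summable (fun j => a j * ((j : ℝ) * z ^ (j - 1))) := by
      rw [← summable_nat_add_iff 1]
      refine (h'.shc.summable z).congr (fun j => ?_)
      unfold shc
      push_cast
      ring
    rw [hs.tsum_eq_zero_add]
    simp only [Nat.cast_zero, zero_mul, mul_zero, zero_add]
    unfold ser
    congr 1
    ext j
    unfold shc
    push_cast
    ring
  rw [e] at key
  exact key

lemma continuous_ser {a : ℕ → ℝ} (h : Ent a) : Continuous (ser a) :=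
  continuous_iff_continuousAt.2 fun z => (hasDerivAt_ser h z).continuousAt

lemma ser_zero (a : ℕ → ℝ) : ser a 0 = a 0 := by
  unfold ser
  rw [tsum_eq_single 0]
  · simp
  · intro j hj
    simp [hj]

end Pool.Agent.H.MP_1b807b_an
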